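import Pool.Agent.Helper14.AS.Objs

/-! # Basic facts on `vec`, `lin` and `W` -/

noncomputable section

namespace Pool.Agent.Helper14.AS

open Complex MeasureTheory Set Filter Topology Metric

theorem vec_eq (t : ℂ × ℂ × ℂ) (y : Fin 4 → ℝ) : vec t y =
    (y 0 + y 2 * t.1 + y 3 * t.2.1, y 1 + y 2 * t.2.1 + y 3 * t.2.2) := by
  simp only [vec, bt, Fin.sum_univ_four]
  ext <;> simp

theorem continuous_vec : Continuous fun q : (ℂ × ℂ × ℂ) × (Fin 4 → ℝ) => vec q.1 q.2 := by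
  simp only [vec_eq]
  fun_prop

theorem continuous_vec' (t : ℂ × ℂ × ℂ) : Continuous (vec t) := by
  have := continuous_vec.comp (Continuous.prodMk_right t)
  exact this

theorem vec_sub (t : ℂ × ℂ × ℂ) (y y' : Fin 4 → ℝ) : vec t (y - y') = vec t y - vec t y' := by
  simp only [vec, Pi.sub_apply, sub_smul, Finset.sum_sub_distrib]

theorem vec_smul (t : ℂ × ℂ × ℂ) (c : ℝ) (y : Fin 4 → ℝ) : vec t (c • y) = c • vec t y := by
  simp only [vec, Pi.smul_apply, smul_eq_mul, mul_smul, Finset.smul_sum]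

theorem lin_sub (l z z' : ℂ × ℂ) : lin l (z - z') = lin l z - lin l z' := by
  simp only [lin, Prod.fst_sub, Prod.snd_sub]; ring

theorem continuous_lin : Continuous fun q : (ℂ × ℂ) × (ℂ × ℂ) => lin q.1 q.2 := by
  unfold lin; fun_prop

theorem mem_cell_iff (t : ℂ × ℂ × ℂ) (z : ℂ × ℂ) :
    z ∈ cell (bt t) ↔ ∃ y : Fin 4 → ℝ, (∀ i, y i ∈ Ico (0 : ℝ) 1) ∧ z = vec t y := Iff.rfl

theorem W_nhds : W ∈ 𝓝 t0 := ball_mem_nhds _ (by norm_num)

theorem bt_zero (t : ℂ × ℂ × ℂ) : bt t 0 = (1, 0) := rfl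

theorem bt_one (t : ℂ × ℂ × ℂ) : bt t 1 = (0, 1) := rfl

theorem bt_two (t : ℂ × ℂ × ℂ) : bt t 2 = (t.1, t.2.1) := rfl

theorem bt_three (t : ℂ × ℂ × ℂ) : bt t 3 = (t.2.1, t.2.2) := rfl

theorem norm_of_mem_W {t : ℂ × ℂ × ℂ} (ht : t ∈ W) :
    ‖t.1 - I‖ < 1 / 8 ∧ ‖t.2.1‖ < 1 / 8 ∧ ‖t.2.2 - I‖ < 1 / 8 := by
  rw [W, mem_ball, dist_eq_norm] at ht
  have e1 : ‖t.1 - I‖ ≤ ‖t - t0‖ := by
    have := norm_fst_le (t - t0); simpa [t0] using this
  have e2 : ‖t.2.1 - 0‖ ≤ ‖t - t0‖ := by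
    have := (norm_fst_le (t - t0).2).trans (norm_snd_le (t - t0)); simpa [t0] using this
  have e3 : ‖t.2.2 - I‖ ≤ ‖t - t0‖ := by
    have := (norm_snd_le (t - t0).2).trans (norm_snd_le (t - t0)); simpa [t0] using this
  rw [sub_zero] at e2
  exact ⟨by linarith, by linarith, by linarith⟩

theorem im_of_mem_W {t : ℂ × ℂ × ℂ} (ht : t ∈ W) :
    7 / 8 < t.1.im ∧ |t.2.1.im| < 1 / 8 ∧ 7 / 8 < t.2.2.im := by
  obtain ⟨h1, h2, h3⟩ := norm_of_mem_W ht
  have a1 := (abs_lt.1 ((abs_im_le_norm _).trans_lt h1)).1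
  have a3 := (abs_lt.1 ((abs_im_le_norm _).trans_lt h3)).1
  simp only [sub_im, I_im] at a1 a3
  exact ⟨by linarith, (abs_im_le_norm _).trans_lt h2, by linarith⟩

/-- For `t ∈ W` the real coordinates are determined by the point. -/
theorem vec_injective {t : ℂ × ℂ × ℂ} (ht : t ∈ W) : Function.Injective (vec t) := by
  obtain ⟨h1, h2, h3⟩ := im_of_mem_W ht
  intro y y' h
  have h0 : vec t (y - y') = 0 := by rw [vec_sub, h, sub_self]
  set u := y - y' with hu
  rw [vec_eq] at h0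
  have e1 := congrArg Prod.fst h0
  have e2 := congrArg Prod.snd h0
  simp only [Prod.fst_zero, Prod.snd_zero] at e1 e2
  have i1 := congrArg Complex.im e1
  have i2 := congrArg Complex.im e2
  have r1 := congrArg Complex.re e1
  have r2 := congrArg Complex.re e2
  simp only [add_im, ofReal_im, mul_im, ofReal_re, zero_mul, add_zero, zero_add, zero_im, add_re,
    mul_re, zero_re, sub_zero] at i1 i2 r1 r2
  obtain ⟨g1, g2⟩ := abs_lt.1 h2
  have hdet : 0 < t.1.im * t.2.2.im - t.2.1.im * t.2.1.im := by nlinarith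
  have u2 : u 2 = 0 := by
    have : u 2 * (t.1.im * t.2.2.im - t.2.1.im * t.2.1.im) = 0 := by
      linear_combination t.2.2.im * i1 - t.2.1.im * i2
    exact (mul_eq_zero.1 this).resolve_right hdet.ne'
  have u3 : u 3 = 0 := by
    have : u 3 * (t.1.im * t.2.2.im - t.2.1.im * t.2.1.im) = 0 := by
      linear_combination t.1.im * i2 - t.2.1.im * i1
    exact (mul_eq_zero.1 this).resolve_right hdet.ne'
  have u0 : u 0 = 0 := by rw [u2, u3] at r1; simpa using r1
  have u1 : u 1 = 0 := by rw [u2, u3] at r2; simpa using r2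
  have : u = 0 := by
    funext i; fin_cases i
    · exact u0
    · exact u1
    · exact u2
    · exact u3
  rw [hu, sub_eq_zero] at this
  exact this

theorem linearIndependent_bt {t : ℂ × ℂ × ℂ} (ht : t ∈ W) : LinearIndependent ℝ (bt t) := by
  rw [Fintype.linearIndependent_iff]
  intro g hg
  have h0 : vec t g = vec t 0 := by simpa [vec] using hg
  have := vec_injective ht h0
  intro i; rw [this]; rfl

end Pool.Agent.Helper14.AS
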