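import Pool.Agent.Helper14.AS.Objs

/-!
# Algebraic properties of the theta series
-/

noncomputable section

namespace Pool.Agent.Helper14.AS

open Complex MeasureTheory Set Filter Topology Metric

theorem th_neg (t : ℂ × ℂ × ℂ) (z : ℂ × ℂ) : th t (-z) = th t z := by
  unfold th
  rw [← (Equiv.neg (ℤ × ℤ)).tsum_eq]
  refine tsum_congr fun k => ?_
  congr 1
  simp only [thE, Equiv.neg_apply, Prod.fst_neg, Prod.snd_neg]
  push_cast
  ring

theorem th_add_int (t : ℂ × ℂ × ℂ) (z : ℂ × ℂ) (m n : ℤ) :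
    th t (z + ((m : ℂ), (n : ℂ))) = th t z := by
  unfold th
  refine tsum_congr fun k => ?_
  have h : thE t (z + ((m : ℂ), (n : ℂ))) k
      = thE t z k + ((k.1 * m + k.2 * n : ℤ) : ℂ) * (2 * Real.pi * I) := by
    simp only [thE, Prod.fst_add, Prod.snd_add]
    push_cast
    ring
  rw [h, Complex.exp_add, Complex.exp_int_mul_two_pi_mul_I, mul_one]

theorem th_add_tau (t : ℂ × ℂ × ℂ) (z : ℂ × ℂ) (m n : ℤ) :
    th t (z + (m * t.1 + n * t.2.1, m * t.2.1 + n * t.2.2)) =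
      cexp (-(Real.pi * I * (t.1 * m ^ 2 + 2 * t.2.1 * m * n + t.2.2 * n ^ 2)) -
        2 * Real.pi * I * (m * z.1 + n * z.2)) * th t z := by
  unfold th
  rw [← (Equiv.addRight ((m, n) : ℤ × ℤ)).tsum_eq (fun k => cexp (thE t z k)), ← tsum_mul_left]
  refine tsum_congr fun k => ?_
  rw [← Complex.exp_add]
  congr 1
  simp only [thE, Prod.fst_add, Prod.snd_add, Equiv.coe_addRight]
  push_cast
  ring

/-- Odd half periods are zeros. -/
theorem th_odd (t : ℂ × ℂ × ℂ) (a b m n : ℤ) (h : Odd (a * m + b * n)) :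
    th t ((a + m * t.1 + n * t.2.1) / 2, (b + m * t.2.1 + n * t.2.2) / 2) = 0 := by
  set p : ℂ × ℂ := ((a + m * t.1 + n * t.2.1) / 2, (b + m * t.2.1 + n * t.2.2) / 2) with hp
  have h1 : p = (-p + ((a : ℂ), (b : ℂ))) + (m * t.1 + n * t.2.1, m * t.2.1 + n * t.2.2) := by
    rw [hp]
    ext
    · simp only [Prod.fst_add, Prod.fst_neg]
      ring
    · simp only [Prod.snd_add, Prod.snd_neg]
      ring
  have h2 : th t p = - th t p := by
    conv_lhs => rw [h1]
    rw [th_add_tau, th_add_int, th_neg]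
    have h3 : -(Real.pi * I * (t.1 * m ^ 2 + 2 * t.2.1 * m * n + t.2.2 * n ^ 2)) -
        2 * Real.pi * I * (m * (-p + ((a : ℂ), (b : ℂ))).1 + n * (-p + ((a : ℂ), (b : ℂ))).2)
        = -(((a * m + b * n : ℤ) : ℂ) * (Real.pi * I)) := by
      rw [hp]
      simp only [Prod.fst_add, Prod.snd_add, Prod.fst_neg, Prod.snd_neg]
      push_cast
      ring
    rw [h3]
    obtain ⟨c, hc⟩ := h
    rw [hc]
    have h4 : -(((2 * c + 1 : ℤ) : ℂ) * (Real.pi * I))
        = ((-(c + 1) : ℤ) : ℂ) * (2 * Real.pi * I) + Real.pi * I := by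
      push_cast
      ring
    rw [h4, Complex.exp_add, Complex.exp_int_mul_two_pi_mul_I, Complex.exp_pi_mul_I]
    ring
  have h5 : (2 : ℂ) * th t p = 0 := by linear_combination h2
  rcases mul_eq_zero.1 h5 with h6 | h6
  · norm_num at h6
  · exact h6

theorem th_summ (z : ℂ) : Summable fun n : ℤ => ‖jacobiTheta₂_term n z I‖ :=
  summable_norm_iff.2 ((summable_jacobiTheta₂_term_iff z I).2 (by simp))

theorem th_summ' (z : ℂ) : Summable fun n : ℤ => ‖jacobiTheta₂'_term n z I‖ :=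
  summable_norm_iff.2 ((summable_jacobiTheta₂'_term_iff z I).2 (by simp))

theorem th_term (z : ℂ × ℂ) (k : ℤ × ℤ) :
    cexp (thE t0 z k) = jacobiTheta₂_term k.1 z.1 I * jacobiTheta₂_term k.2 z.2 I := by
  unfold jacobiTheta₂_term
  rw [← Complex.exp_add]
  congr 1
  simp only [thE, t0]
  ring

theorem th_t0 (z : ℂ × ℂ) : th t0 z = jacobiTheta₂ z.1 I * jacobiTheta₂ z.2 I := by
  unfold th jacobiTheta₂
  rw [tsum_mul_tsum_of_summable_norm (th_summ z.1) (th_summ z.2)]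
  exact tsum_congr fun k => th_term z k

theorem th1_t0 (z : ℂ × ℂ) : th1 t0 z = jacobiTheta₂' z.1 I * jacobiTheta₂ z.2 I := by
  unfold th1 jacobiTheta₂ jacobiTheta₂'
  rw [tsum_mul_tsum_of_summable_norm (th_summ' z.1) (th_summ z.2)]
  refine tsum_congr fun k => ?_
  rw [th_term z k, jacobiTheta₂'_term]
  ring

theorem th2_t0 (z : ℂ × ℂ) : th2 t0 z = jacobiTheta₂ z.1 I * jacobiTheta₂' z.2 I := by
  unfold th2 jacobiTheta₂ jacobiTheta₂'
  rw [tsum_mul_tsum_of_summable_norm (th_summ z.1) (th_summ' z.2)]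
  refine tsum_congr fun k => ?_
  rw [th_term z k, jacobiTheta₂'_term]
  ring

/-- The zero set of theta is invariant under the lattice; membership in `lat (bt t)`. -/
theorem mem_lat_bt {t : ℂ × ℂ × ℂ} {z : ℂ × ℂ} : z ∈ lat (bt t) ↔
    ∃ a b m n : ℤ, z = (a + m * t.1 + n * t.2.1, b + m * t.2.1 + n * t.2.2) := by
  constructor
  · intro h
    unfold lat at h
    induction h using AddSubgroup.closure_induction with
    | mem x hx =>
      obtain ⟨i, rfl⟩ := hx
      fin_cases i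
      · exact ⟨1, 0, 0, 0, by simp [bt]⟩
      · exact ⟨0, 1, 0, 0, by simp [bt]⟩
      · exact ⟨0, 0, 1, 0, by simp [bt]⟩
      · exact ⟨0, 0, 0, 1, by simp [bt]⟩
    | zero => exact ⟨0, 0, 0, 0, by ext <;> simp⟩
    | add x y _ _ hx hy =>
      obtain ⟨a, b, m, n, rfl⟩ := hx
      obtain ⟨a', b', m', n', rfl⟩ := hy
      refine ⟨a + a', b + b', m + m', n + n', ?_⟩
      ext
      · simp only [Prod.fst_add]
        push_cast
        ring
      · simp only [Prod.snd_add]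
        push_cast
        ring
    | neg x _ hx =>
      obtain ⟨a, b, m, n, rfl⟩ := hx
      refine ⟨-a, -b, -m, -n, ?_⟩
      ext
      · simp only [Prod.fst_neg]
        push_cast
        ring
      · simp only [Prod.snd_neg]
        push_cast
        ring
  · rintro ⟨a, b, m, n, rfl⟩
    have hi : ∀ i, bt t i ∈ lat (bt t) := fun i => AddSubgroup.subset_closure ⟨i, rfl⟩
    have h : ((a + m * t.1 + n * t.2.1, b + m * t.2.1 + n * t.2.2) : ℂ × ℂ)
        = a • bt t 0 + b • bt t 1 + m • bt t 2 + n • bt t 3 := by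
      ext
      · simp [bt]
      · simp [bt]
    rw [h]
    exact add_mem (add_mem (add_mem (AddSubgroup.zsmul_mem _ (hi 0) _)
      (AddSubgroup.zsmul_mem _ (hi 1) _)) (AddSubgroup.zsmul_mem _ (hi 2) _))
      (AddSubgroup.zsmul_mem _ (hi 3) _)

/-- Quasi-periodicity for the full lattice. -/
theorem th_add_full (t : ℂ × ℂ × ℂ) (z : ℂ × ℂ) (a b m n : ℤ) :
    th t (z + (a + m * t.1 + n * t.2.1, b + m * t.2.1 + n * t.2.2)) =
      cexp (-(Real.pi * I * (t.1 * m ^ 2 + 2 * t.2.1 * m * n + t.2.2 * n ^ 2)) -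
        2 * Real.pi * I * (m * (z.1 + a) + n * (z.2 + b))) * th t z := by
  have h : z + ((a + m * t.1 + n * t.2.1, b + m * t.2.1 + n * t.2.2) : ℂ × ℂ)
      = (z + ((a : ℂ), (b : ℂ))) + (m * t.1 + n * t.2.1, m * t.2.1 + n * t.2.2) := by
    ext
    · simp only [Prod.fst_add]
      ring
    · simp only [Prod.snd_add]
      ring
  rw [h, th_add_tau, th_add_int]
  rfl

theorem th_add_lat (t : ℂ × ℂ × ℂ) (z v : ℂ × ℂ) (hv : v ∈ lat (bt t)) :
    th t (z + v) = 0 ↔ th t z = 0 := by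
  obtain ⟨a, b, m, n, rfl⟩ := mem_lat_bt.1 hv
  rw [th_add_full, mul_eq_zero]
  constructor
  · rintro (h | h)
    · exact absurd h (Complex.exp_ne_zero _)
    · exact h
  · exact fun h => Or.inr h

theorem F_add_full (s : ℝ) (t : ℂ × ℂ × ℂ) (z : ℂ × ℂ) (a b m n : ℤ) :
    F s t (z + (a + m * t.1 + n * t.2.1, b + m * t.2.1 + n * t.2.2)) =
      cexp (-(Real.pi * I * (t.1 * m ^ 2 + 2 * t.2.1 * m * n + t.2.2 * n ^ 2)) -
        2 * Real.pi * I * (m * (z.1 + s - t.1 / 2 + a) + n * (z.2 - t.2.1 / 2 - 1 / 2 + b))) *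
        F s t z := by
  have h : fp s t (z + ((a + m * t.1 + n * t.2.1, b + m * t.2.1 + n * t.2.2) : ℂ × ℂ))
      = fp s t z + (a + m * t.1 + n * t.2.1, b + m * t.2.1 + n * t.2.2) := by
    unfold fp
    ext
    · simp only [Prod.fst_add]
      ring
    · simp only [Prod.snd_add]
      ring
  unfold F
  rw [h, th_add_full]
  rfl

theorem hh_add_lat (t : ℂ × ℂ × ℂ) (z v : ℂ × ℂ) (hv : v ∈ lat (bt t)) :
    hh t (z + v) = hh t z := by
  obtain ⟨a, b, m, n, rfl⟩ := mem_lat_bt.1 hv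
  unfold hh
  rw [F_add_full, F_add_full, mul_div_mul_comm, mul_pow, ← Complex.exp_sub, ← Complex.exp_nat_mul]
  have h : ((2 : ℕ) : ℂ) * ((-(Real.pi * I * (t.1 * m ^ 2 + 2 * t.2.1 * m * n + t.2.2 * n ^ 2)) -
        2 * Real.pi * I * (m * (z.1 + ((1 / 4 : ℝ) : ℂ) - t.1 / 2 + a) +
          n * (z.2 - t.2.1 / 2 - 1 / 2 + b))) -
      (-(Real.pi * I * (t.1 * m ^ 2 + 2 * t.2.1 * m * n + t.2.2 * n ^ 2)) -
        2 * Real.pi * I * (m * (z.1 + ((-(1 / 4) : ℝ) : ℂ) - t.1 / 2 + a) +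
          n * (z.2 - t.2.1 / 2 - 1 / 2 + b)))) = ((-m : ℤ) : ℂ) * (2 * Real.pi * I) := by
    push_cast
    ring
  rw [h, Complex.exp_int_mul_two_pi_mul_I, one_mul]

end Pool.Agent.Helper14.AS
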