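import Pool.Agent.Helper14.AS.ThA
import Pool.Agent.Helper14.AS.ThB
import Pool.Agent.Helper21.K1.JT

/-!
# COUNT: bounded number of points in the fibres
-/

noncomputable section

namespace Pool.Agent.Helper14.AS

open Complex MeasureTheory Set Filter Topology Metric

/-- The zeros of the one variable theta function. -/
theorem Cnt.jt_zero (z : ℂ) (h : jacobiTheta₂ z I = 0) :
    ∃ m n : ℤ, z = (1 + I) / 2 + m + n * I := by
  obtain ⟨m, n, hmn⟩ := (Pool.Agent.Helper21.K1.jt_zero_iff' (τ := I) (by simp) z).1 h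
  exact ⟨m, n, by linear_combination hmn⟩

/-- Jensen bound for the number of zeros of an entire function. -/
theorem Cnt.zeros_le {f : ℂ → ℂ} (hf : Differentiable ℂ f) {c : ℂ} {r R M : ℝ} (hr : 0 < r)
    (hrR : r < R) (hM : 1 ≤ M) (hfc : f c ≠ 0) (hb : ∀ z ∈ sphere c R, ‖f z‖ ≤ M) :
    {u | u ∈ closedBall c r ∧ f u = 0}.Finite ∧
      ({u | u ∈ closedBall c r ∧ f u = 0}.ncard : ℝ) ≤
        Real.log (M / ‖f c‖) / Real.log (R / r) := by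
  have hr' : |r| = r := abs_of_pos hr
  have hR' : |R| = R := abs_of_pos (hr.trans hrR)
  have ha : AnalyticOnNhd ℂ f univ := fun z _ => hf.analyticAt z
  have h1 := AnalyticOnNhd.sum_divisor_le (c := c) (r := r) (R := R) (M := M) (f := f)
    (by rw [hr']; exact hr) (by rw [hr', hR']; exact hrR) hM
    (fun z _ => hf.analyticAt z) hfc (by rw [hR']; exact hb)
  rw [hr'] at h1
  set D := MeromorphicOn.divisor f (closedBall c r) with hD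
  have haB : AnalyticOnNhd ℂ f (closedBall c r) := fun z _ => hf.analyticAt z
  have hfin : (Function.support D).Finite := D.finiteSupport (isCompact_closedBall c r)
  have hnn : ∀ u, 0 ≤ D u := fun u => MeromorphicOn.AnalyticOnNhd.divisor_nonneg haB u
  have hpos : ∀ u ∈ {u | u ∈ closedBall c r ∧ f u = 0}, 1 ≤ D u := by
    rintro u ⟨hu, hfu⟩
    have h2 : D u = ((analyticOrderAt f u).map (↑)).untop₀ :=
      MeromorphicOn.AnalyticOnNhd.divisor_apply haB hu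
    have h3 : analyticOrderAt f u ≠ 0 := by
      rw [(hf.analyticAt u).analyticOrderAt_ne_zero]
      exact hfu
    have h4 : analyticOrderAt f u ≠ ⊤ := by
      intro h5
      rw [analyticOrderAt_eq_top] at h5
      have h6 := ha.eqOn_zero_of_preconnected_of_eventuallyEq_zero isPreconnected_univ
        (mem_univ u) h5
      exact hfc (h6 (mem_univ c))
    obtain ⟨n, hn⟩ := ENat.ne_top_iff_exists.1 h4
    rw [← hn] at h2 h3
    have h5 : D u = (n : ℤ) := by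
      rw [h2]
      rfl
    have h6 : n ≠ 0 := by
      rintro rfl
      exact h3 rfl
    rw [h5]
    omega
  have hsub : {u | u ∈ closedBall c r ∧ f u = 0} ⊆ Function.support D := by
    intro u hu
    have := hpos u hu
    rw [Function.mem_support]
    omega
  have hfin' := hfin.subset hsub
  refine ⟨hfin', le_trans ?_ h1⟩
  have h7 : ∑ᶠ u, D u = ∑ u ∈ hfin.toFinset, D u :=
    finsum_eq_sum_of_support_toFinset_subset _ _ (le_refl _)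
  rw [h7, Set.ncard_eq_toFinset_card _ hfin']
  have h8 : ((hfin'.toFinset.card : ℤ)) ≤ ∑ u ∈ hfin.toFinset, D u := by
    calc ((hfin'.toFinset.card : ℤ)) = ∑ u ∈ hfin'.toFinset, (1 : ℤ) := by simp
      _ ≤ ∑ u ∈ hfin'.toFinset, D u :=
          Finset.sum_le_sum (fun u hu => hpos u (hfin'.mem_toFinset.1 hu))
      _ ≤ ∑ u ∈ hfin.toFinset, D u :=
          Finset.sum_le_sum_of_subset_of_nonneg
            (Set.Finite.toFinset_subset_toFinset.2 hsub) (fun u _ _ => hnn u)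
  exact_mod_cast h8

/-- Uniform bound for the number of zeros in families. -/
theorem Cnt.family {X : Type*} [TopologicalSpace X] {x₀ : X} {f : X → ℂ → ℂ} {r : ℝ} (hr : 0 < r)
    (hd : ∀ᶠ x in 𝓝 x₀, Differentiable ℂ (f x))
    (hc : ∀ u, ContinuousAt (fun p : X × ℂ => f p.1 p.2) (x₀, u))
    {c : ℂ} (hc1 : ‖c‖ ≤ 1) (h0 : f x₀ c ≠ 0) :
    ∃ N : ℕ, ∀ᶠ x in 𝓝 x₀, {u | ‖u‖ ≤ r ∧ f x u = 0}.Finite ∧
      {u | ‖u‖ ≤ r ∧ f x u = 0}.ncard ≤ N := by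
  have hK : IsCompact (closedBall c (2 * (r + 1))) := isCompact_closedBall _ _
  have hcont : Continuous (f x₀) := by
    rw [continuous_iff_continuousAt]
    intro u
    have := (hc u).comp (f := fun u : ℂ => (x₀, u)) (x := u) (by fun_prop)
    exact this
  obtain ⟨M0, hM0⟩ := (hK.image hcont.norm).bddAbove
  set M : ℝ := max 1 (M0 + 1) with hM
  have h1 : ∀ᶠ x in 𝓝 x₀, ∀ u ∈ closedBall c (2 * (r + 1)), ‖f x u‖ ≤ M := by
    refine hK.eventually_forall_of_forall_eventually (fun u hu => ?_)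
    have h2 : ‖f x₀ u‖ < M0 + 1 := by
      have := hM0 (mem_image_of_mem _ hu)
      linarith
    have h3 := (hc u).norm.eventually_lt_const h2
    filter_upwards [h3] with p hp
    exact le_trans hp.le (le_max_right _ _)
  have h2 : ∀ᶠ x in 𝓝 x₀, ‖f x₀ c‖ / 2 < ‖f x c‖ := by
    have h3 : ContinuousAt (fun x => f x c) x₀ :=
      (hc c).comp (f := fun x : X => (x, c)) (x := x₀) (by fun_prop)
    refine h3.norm.eventually_const_lt ?_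
    have := norm_pos_iff.2 h0
    linarith
  have hη : 0 < ‖f x₀ c‖ / 2 := by
    have := norm_pos_iff.2 h0
    linarith
  refine ⟨⌊Real.log (M / (‖f x₀ c‖ / 2)) / Real.log 2⌋₊, ?_⟩
  filter_upwards [hd, h1, h2] with x hx1 hx2 hx3
  have hM1 : 1 ≤ M := le_max_left _ _
  have hfc : f x c ≠ 0 := by
    intro h
    rw [h, norm_zero] at hx3
    linarith
  have h4 := Cnt.zeros_le hx1 (c := c) (r := r + 1) (R := 2 * (r + 1)) (M := M) (by linarith)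
    (by linarith) hM1 hfc (fun z hz => hx2 z (sphere_subset_closedBall hz))
  have hsub : {u | ‖u‖ ≤ r ∧ f x u = 0} ⊆ {u | u ∈ closedBall c (r + 1) ∧ f x u = 0} := by
    rintro u ⟨hu, hu'⟩
    refine ⟨?_, hu'⟩
    rw [mem_closedBall, dist_eq_norm]
    exact le_trans (norm_sub_le _ _) (by linarith)
  refine ⟨h4.1.subset hsub, ?_⟩
  apply Nat.le_floor
  have h5 : ({u | ‖u‖ ≤ r ∧ f x u = 0}.ncard : ℝ) ≤
      ({u | u ∈ closedBall c (r + 1) ∧ f x u = 0}.ncard : ℝ) := by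
    exact_mod_cast Set.ncard_le_ncard hsub h4.1
  have h6 : (2 * (r + 1)) / (r + 1) = 2 := by
    field_simp
  rw [h6] at h4
  have h7 : Real.log (M / ‖f x c‖) ≤ Real.log (M / (‖f x₀ c‖ / 2)) := by
    apply Real.log_le_log
    · have := norm_pos_iff.2 hfc
      positivity
    · exact div_le_div_of_nonneg_left (by linarith) hη hx3.le
  have h8 : 0 < Real.log 2 := Real.log_pos (by norm_num)
  calc ({u | ‖u‖ ≤ r ∧ f x u = 0}.ncard : ℝ) ≤ Real.log (M / ‖f x c‖) / Real.log 2 :=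
        le_trans h5 h4.2
    _ ≤ Real.log (M / (‖f x₀ c‖ / 2)) / Real.log 2 := by gcongr

/-- The slice function. -/
def Cnt.ff (s : ℝ) (x : ((ℂ × ℂ × ℂ) × (ℂ × ℂ)) × ℂ) (u : ℂ) : ℂ :=
  th x.1.1 ((x.2 - x.1.2.2 * u) / x.1.2.1 + s, u)

theorem Cnt.mem_W : ∀ᶠ t in 𝓝 t0, t ∈ W :=
  Metric.ball_mem_nhds t0 (by norm_num)

theorem Cnt.ff_diff (s : ℝ) {x : ((ℂ × ℂ × ℂ) × (ℂ × ℂ)) × ℂ} (hx : x.1.1 ∈ W) :
    Differentiable ℂ (Cnt.ff s x) := by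
  intro u
  have h1 : DifferentiableAt ℂ (th x.1.1) ((x.2 - x.1.2.2 * u) / x.1.2.1 + s, u) :=
    (hasFDerivAt_th hx _).differentiableAt
  have h2 : DifferentiableAt ℂ (fun u : ℂ => ((x.2 - x.1.2.2 * u) / x.1.2.1 + (s : ℂ), u)) u := by
    fun_prop
  exact DifferentiableAt.comp (g := th x.1.1)
    (f := fun u : ℂ => ((x.2 - x.1.2.2 * u) / x.1.2.1 + (s : ℂ), u)) u h1 h2

theorem Cnt.ff_cont (s : ℝ) {x : ((ℂ × ℂ × ℂ) × (ℂ × ℂ)) × ℂ} (hx : x.1.1 ∈ W)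
    (hx1 : x.1.2.1 ≠ 0) (u : ℂ) :
    ContinuousAt (fun p : (((ℂ × ℂ × ℂ) × (ℂ × ℂ)) × ℂ) × ℂ => Cnt.ff s p.1 p.2) (x, u) := by
  have h1 : ContinuousAt (fun p : (ℂ × ℂ × ℂ) × (ℂ × ℂ) => th p.1 p.2)
      (x.1.1, ((x.2 - x.1.2.2 * u) / x.1.2.1 + (s : ℂ), u)) := by
    refine continuousOn_th.continuousAt ?_
    refine (Metric.isOpen_ball.prod isOpen_univ).mem_nhds ⟨hx, mem_univ _⟩
  have h2 : ContinuousAt (fun p : (((ℂ × ℂ × ℂ) × (ℂ × ℂ)) × ℂ) × ℂ =>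
      (p.1.1.1, ((p.1.2 - p.1.1.2.2 * p.2) / p.1.1.2.1 + (s : ℂ), p.2))) (x, u) := by
    refine ContinuousAt.prodMk (by fun_prop) (ContinuousAt.prodMk ?_ (by fun_prop))
    refine ContinuousAt.add (ContinuousAt.div (by fun_prop) (by fun_prop) hx1) (by fun_prop)
  exact ContinuousAt.comp (g := fun p : (ℂ × ℂ × ℂ) × (ℂ × ℂ) => th p.1 p.2)
    (f := fun p : (((ℂ × ℂ × ℂ) × (ℂ × ℂ)) × ℂ) × ℂ =>
      (p.1.1.1, ((p.1.2 - p.1.1.2.2 * p.2) / p.1.1.2.1 + (s : ℂ), p.2)))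
    (x := (x, u)) h1 h2

/-- At the base point the slice function is not identically zero. -/
theorem Cnt.ff_ne (s : ℝ) {l : ℂ × ℂ} (h1 : l.1 ≠ 0) (h2 : l.2 ≠ 0) (w : ℂ) :
    ∃ c : ℂ, ‖c‖ ≤ 1 ∧ Cnt.ff s ((t0, l), w) c ≠ 0 := by
  set B : Set ℂ := (Set.range fun k : ℤ × ℤ => ((1 + I) / 2 + k.1 + k.2 * I : ℂ)) with hB
  have hBc : B.Countable := countable_range _
  set B' : Set ℂ := (fun v : ℂ => (w - l.1 * (v - s)) / l.2) '' B with hB'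
  have hBc' : B'.Countable := hBc.image _
  have hd : Dense ((B ∪ B')ᶜ) := (hBc.union hBc').dense_compl ℝ
  obtain ⟨c, hc, hc1⟩ := hd.exists_mem_open (isOpen_ball (x := (0 : ℂ)) (ε := 1))
    ⟨0, mem_ball_self one_pos⟩
  refine ⟨c, by simpa using (mem_ball_zero_iff.1 hc1).le, ?_⟩
  have hc' := hc
  rw [mem_compl_iff, mem_union, not_or] at hc'
  obtain ⟨hcB, hcB'⟩ := hc'
  show th t0 ((w - l.2 * c) / l.1 + s, c) ≠ 0
  rw [th_t0]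
  refine mul_ne_zero ?_ ?_
  · intro h
    obtain ⟨m, n, hmn⟩ := Cnt.jt_zero _ h
    apply hcB'
    refine ⟨(w - l.2 * c) / l.1 + s, ⟨(m, n), hmn.symm⟩, ?_⟩
    show (w - l.1 * ((w - l.2 * c) / l.1 + s - s)) / l.2 = c
    field_simp
    ring
  · intro h
    obtain ⟨m, n, hmn⟩ := Cnt.jt_zero _ h
    exact hcB ⟨(m, n), hmn.symm⟩

/-- Points of the cell are bounded. -/
theorem Cnt.cell_bound {t : ℂ × ℂ × ℂ} (ht : t ∈ W) {z : ℂ × ℂ} (hz : z ∈ cell (bt t)) :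
    ‖z.1‖ ≤ 3 ∧ ‖z.2‖ ≤ 3 := by
  obtain ⟨x, hx, rfl⟩ := hz
  have ht' : ‖t - t0‖ < 1 / 8 := by
    rw [← dist_eq_norm]; exact ht
  have h1 : ‖t.1‖ ≤ 9 / 8 := by
    have h2 : ‖t.1 - I‖ ≤ 1 / 8 := le_trans (norm_fst_le (t - t0)) ht'.le
    calc ‖t.1‖ = ‖(t.1 - I) + I‖ := by ring_nf
      _ ≤ ‖t.1 - I‖ + ‖I‖ := norm_add_le _ _
      _ ≤ 9 / 8 := by rw [Complex.norm_I]; linarith
  have h3 : ‖(t - t0).2‖ ≤ 1 / 8 := le_trans (norm_snd_le (t - t0)) ht'.le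
  have h4 : ‖t.2.1‖ ≤ 1 / 8 := by
    have h2 : ‖t.2.1 - 0‖ ≤ 1 / 8 := le_trans (norm_fst_le (t - t0).2) h3
    simpa using h2
  have h5 : ‖t.2.2‖ ≤ 9 / 8 := by
    have h2 : ‖t.2.2 - I‖ ≤ 1 / 8 := le_trans (norm_snd_le (t - t0).2) h3
    calc ‖t.2.2‖ = ‖(t.2.2 - I) + I‖ := by ring_nf
      _ ≤ ‖t.2.2 - I‖ + ‖I‖ := norm_add_le _ _
      _ ≤ 9 / 8 := by rw [Complex.norm_I]; linarith
  have hxn : ∀ i, ‖((x i : ℝ) : ℂ)‖ ≤ 1 := by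
    intro i
    rw [Complex.norm_real, Real.norm_eq_abs, abs_of_nonneg (hx i).1]
    exact (hx i).2.le
  have e1 : (∑ i, x i • bt t i : ℂ × ℂ).1 = (x 0 : ℂ) + x 2 * t.1 + x 3 * t.2.1 := by
    simp [Fin.sum_univ_four, bt]
  have e2 : (∑ i, x i • bt t i : ℂ × ℂ).2 = (x 1 : ℂ) + x 2 * t.2.1 + x 3 * t.2.2 := by
    simp [Fin.sum_univ_four, bt]
  rw [e1, e2]
  have key : ∀ a b c p q : ℂ, ‖a‖ ≤ 1 → ‖b‖ ≤ 1 → ‖c‖ ≤ 1 → ‖p‖ + ‖q‖ ≤ 2 →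
      ‖a + b * p + c * q‖ ≤ 3 := by
    intro a b c p q ha hb hc hpq
    have h6 : ‖b * p‖ ≤ ‖p‖ := by
      rw [norm_mul]; exact mul_le_of_le_one_left (norm_nonneg _) hb
    have h7 : ‖c * q‖ ≤ ‖q‖ := by
      rw [norm_mul]; exact mul_le_of_le_one_left (norm_nonneg _) hc
    calc ‖a + b * p + c * q‖ ≤ ‖a + b * p‖ + ‖c * q‖ := norm_add_le _ _
      _ ≤ ‖a‖ + ‖b * p‖ + ‖c * q‖ := by gcongr; exact norm_add_le _ _
      _ ≤ 3 := by linarith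
  exact ⟨key _ _ _ _ _ (hxn 0) (hxn 2) (hxn 3) (by linarith),
    key _ _ _ _ _ (hxn 1) (hxn 2) (hxn 3) (by linarith)⟩

theorem count (s : ℝ) (hs : s = 1 / 4 ∨ s = -(1 / 4)) {l : ℂ × ℂ} (h1 : l.1 ≠ 0) (h2 : l.2 ≠ 0) :
    ∃ N : ℕ, ∀ᶠ p in 𝓝 (t0, l), ∀ w : ℂ,
      {z | z ∈ Zc s p.1 ∧ z ∈ cell (bt p.1) ∧ lin p.2 z = w}.Finite ∧
      {z | z ∈ Zc s p.1 ∧ z ∈ cell (bt p.1) ∧ lin p.2 z = w}.ncard ≤ N := by
  have _ := hs
  set Rw : ℝ := 3 * (‖l.1‖ + 1) + 3 * (‖l.2‖ + 1) with hRw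
  have hmemW : t0 ∈ W := Metric.mem_ball_self (by norm_num)
  -- the local statement
  have hloc : ∀ w₀ : ℂ, ∃ N : ℕ, ∀ᶠ x : ((ℂ × ℂ × ℂ) × (ℂ × ℂ)) × ℂ in 𝓝 ((t0, l), w₀),
      {u | ‖u‖ ≤ 3 ∧ Cnt.ff s x u = 0}.Finite ∧
        {u | ‖u‖ ≤ 3 ∧ Cnt.ff s x u = 0}.ncard ≤ N := by
    intro w₀
    obtain ⟨c, hc1, hc⟩ := Cnt.ff_ne s h1 h2 w₀
    refine Cnt.family (f := Cnt.ff s) (by norm_num) ?_ (fun u => Cnt.ff_cont s hmemW h1 u) hc1 hc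
    have h3 : ContinuousAt (fun x : ((ℂ × ℂ × ℂ) × (ℂ × ℂ)) × ℂ => x.1.1) ((t0, l), w₀) := by
      fun_prop
    filter_upwards [h3.eventually Cnt.mem_W] with x hx
    exact Cnt.ff_diff s hx
  -- compactness in `w`
  have hcomp : ∃ N : ℕ, ∀ᶠ p : (ℂ × ℂ × ℂ) × (ℂ × ℂ) in 𝓝 (t0, l), ∀ w ∈ closedBall (0 : ℂ) Rw,
      {u | ‖u‖ ≤ 3 ∧ Cnt.ff s (p, w) u = 0}.Finite ∧
        {u | ‖u‖ ≤ 3 ∧ Cnt.ff s (p, w) u = 0}.ncard ≤ N := by
    refine (isCompact_closedBall (0 : ℂ) Rw).induction_on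
      (p := fun K => ∃ N : ℕ, ∀ᶠ p : (ℂ × ℂ × ℂ) × (ℂ × ℂ) in 𝓝 (t0, l), ∀ w ∈ K,
        {u | ‖u‖ ≤ 3 ∧ Cnt.ff s (p, w) u = 0}.Finite ∧
        {u | ‖u‖ ≤ 3 ∧ Cnt.ff s (p, w) u = 0}.ncard ≤ N) ?_ ?_ ?_ ?_
    · exact ⟨0, Eventually.of_forall (fun p w hw => absurd hw (notMem_empty w))⟩
    · rintro K K' hKK' ⟨N, hN⟩
      exact ⟨N, hN.mono (fun p hp w hw => hp w (hKK' hw))⟩
    · rintro K K' ⟨N, hN⟩ ⟨N', hN'⟩
      refine ⟨max N N', ?_⟩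
      filter_upwards [hN, hN'] with p hp hp' w hw
      rcases hw with hw | hw
      · exact ⟨(hp w hw).1, le_trans (hp w hw).2 (le_max_left _ _)⟩
      · exact ⟨(hp' w hw).1, le_trans (hp' w hw).2 (le_max_right _ _)⟩
    · intro w₀ _
      obtain ⟨N, hN⟩ := hloc w₀
      rw [nhds_prod_eq, eventually_prod_iff] at hN
      obtain ⟨pa, hpa, pb, hpb, H⟩ := hN
      refine ⟨{w | pb w}, mem_nhdsWithin_of_mem_nhds hpb, N, ?_⟩
      filter_upwards [hpa] with p hp w hw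
      exact H hp hw
  obtain ⟨N, hN⟩ := hcomp
  refine ⟨N, ?_⟩
  have c1 : ContinuousAt (fun p : (ℂ × ℂ × ℂ) × (ℂ × ℂ) => p.1) (t0, l) := by fun_prop
  have c2 : ContinuousAt (fun p : (ℂ × ℂ × ℂ) × (ℂ × ℂ) => p.2.1) (t0, l) := by fun_prop
  have c3 : ContinuousAt (fun p : (ℂ × ℂ × ℂ) × (ℂ × ℂ) => p.2.2) (t0, l) := by fun_prop
  have e2 : ∀ᶠ p : (ℂ × ℂ × ℂ) × (ℂ × ℂ) in 𝓝 (t0, l), ‖p.2.1‖ < ‖l.1‖ + 1 :=
    c2.norm.eventually_lt_const (by simp)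
  have e3 : ∀ᶠ p : (ℂ × ℂ × ℂ) × (ℂ × ℂ) in 𝓝 (t0, l), ‖p.2.2‖ < ‖l.2‖ + 1 :=
    c3.norm.eventually_lt_const (by simp)
  have e4 : ∀ᶠ p : (ℂ × ℂ × ℂ) × (ℂ × ℂ) in 𝓝 (t0, l), p.2.1 ≠ 0 := c2.eventually_ne h1
  filter_upwards [hN, c1.eventually Cnt.mem_W, e2, e3, e4] with p hp hpW hp2 hp3 hp4 w
  by_cases hw : w ∈ closedBall (0 : ℂ) Rw
  · obtain ⟨hf, hcard⟩ := hp w hw
    have hmaps : ∀ z ∈ {z | z ∈ Zc s p.1 ∧ z ∈ cell (bt p.1) ∧ lin p.2 z = w},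
        z.2 ∈ {u | ‖u‖ ≤ 3 ∧ Cnt.ff s (p, w) u = 0} := by
      rintro z ⟨hz1, hz2, hz3⟩
      refine ⟨(Cnt.cell_bound hpW hz2).2, ?_⟩
      show th p.1 ((w - p.2.2 * z.2) / p.2.1 + s, z.2) = 0
      have h5 : (w - p.2.2 * z.2) / p.2.1 = z.1 := by
        rw [← hz3, lin]
        field_simp
        ring
      rw [h5]
      exact hz1
    have hinj : InjOn (fun z : ℂ × ℂ => z.2)
        {z | z ∈ Zc s p.1 ∧ z ∈ cell (bt p.1) ∧ lin p.2 z = w} := by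
      rintro z ⟨_, _, hz3⟩ z' ⟨_, _, hz3'⟩ hzz'
      have hzz'' : z.2 = z'.2 := hzz'
      have h6 : p.2.1 * z.1 = p.2.1 * z'.1 := by
        rw [← hz3'] at hz3
        unfold lin at hz3
        rw [hzz''] at hz3
        exact add_right_cancel hz3
      exact Prod.ext (mul_left_cancel₀ hp4 h6) hzz''
    refine ⟨Set.Finite.of_injOn hmaps hinj hf, le_trans ?_ hcard⟩
    exact Set.ncard_le_ncard_of_injOn (fun z : ℂ × ℂ => z.2) hmaps hinj hf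
  · have hempty : {z | z ∈ Zc s p.1 ∧ z ∈ cell (bt p.1) ∧ lin p.2 z = w} = ∅ := by
      rw [Set.eq_empty_iff_forall_notMem]
      rintro z ⟨_, hz2, hz3⟩
      apply hw
      rw [mem_closedBall_zero_iff, ← hz3, lin]
      obtain ⟨b1, b2⟩ := Cnt.cell_bound hpW hz2
      calc ‖p.2.1 * z.1 + p.2.2 * z.2‖ ≤ ‖p.2.1 * z.1‖ + ‖p.2.2 * z.2‖ := norm_add_le _ _
        _ = ‖p.2.1‖ * ‖z.1‖ + ‖p.2.2‖ * ‖z.2‖ := by rw [norm_mul, norm_mul]
        _ ≤ (‖l.1‖ + 1) * 3 + (‖l.2‖ + 1) * 3 := by gcongr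
        _ = Rw := by rw [hRw]; ring
    rw [hempty]
    exact ⟨Set.finite_empty, by simp⟩

end Pool.Agent.Helper14.AS
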