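import Pool.Agent.Helper14.AS.Objs

/-!
# Uniform local inversion with parameters
-/

noncomputable section

namespace Pool.Agent.Helper14.AS

open Complex MeasureTheory Set Filter Topology Metric
open scoped NNReal

theorem locinv {X E E' : Type*} [TopologicalSpace X] [NormedAddCommGroup E] [NormedSpace ℝ E]
    [CompleteSpace E] [NormedAddCommGroup E'] [NormedSpace ℝ E'] {Ψ : X → E → E'}
    {D : X → E → (E →L[ℝ] E')} {x₀ : X} {e₀ : E}
    (hD : ∀ᶠ p : X × E in 𝓝 (x₀, e₀), HasFDerivAt (Ψ p.1) (D p.1 p.2) p.2)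
    (hc : ContinuousAt (fun p : X × E => D p.1 p.2) (x₀, e₀))
    (hΨ : ContinuousAt (fun x => Ψ x e₀) x₀) (L : E ≃L[ℝ] E') (hL : D x₀ e₀ = L) :
    ∃ c > 0, ∃ r > 0,
      (∀ᶠ x in 𝓝 x₀, ∀ e ∈ ball e₀ r, ∀ e' ∈ ball e₀ r, c * ‖e - e'‖ ≤ ‖Ψ x e - Ψ x e'‖) ∧
      (Ψ x₀ e₀ = 0 → ∀ ε > 0, ∀ᶠ x in 𝓝 x₀, ∃ e ∈ ball e₀ ε, Ψ x e = 0) := by
  -- constants
  set a : ℝ≥0 := ‖(L.symm : E' →L[ℝ] E)‖₊ + 1 with ha
  have ha0 : (0 : ℝ) < a := by
    rw [ha]; push_cast; positivity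
  set κ : ℝ≥0 := (2 * a)⁻¹ with hκ
  have hκr : (κ : ℝ) = (2 * (a : ℝ))⁻¹ := by rw [hκ]; push_cast; rfl
  have hκ0 : (0 : ℝ) < κ := by rw [hκr]; positivity
  have hak : (a : ℝ)⁻¹ - κ = κ := by
    rw [hκr]; field_simp; norm_num
  have hsymm : ∀ y : E', ‖L.symm y‖ ≤ a * ‖y‖ := by
    intro y
    have h1 : ‖(L.symm : E' →L[ℝ] E) y‖ ≤ ‖(L.symm : E' →L[ℝ] E)‖ * ‖y‖ :=
      ContinuousLinearMap.le_opNorm _ y
    have h2 : (a : ℝ) = ‖(L.symm : E' →L[ℝ] E)‖ + 1 := by rw [ha]; push_cast; rfl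
    have h3 : L.symm y = (L.symm : E' →L[ℝ] E) y := rfl
    rw [h3, h2]
    nlinarith [norm_nonneg y]
  have hlow : ∀ v : E, (a : ℝ)⁻¹ * ‖v‖ ≤ ‖L v‖ := by
    intro v
    have h1 := hsymm (L v)
    rw [ContinuousLinearEquiv.symm_apply_apply] at h1
    rw [inv_mul_le_iff₀ ha0]
    exact h1
  -- neighbourhoods
  have hnear : ∀ᶠ p : X × E in 𝓝 (x₀, e₀), ‖D p.1 p.2 - (L : E →L[ℝ] E')‖ ≤ κ := by
    have h1 : Tendsto (fun p : X × E => ‖D p.1 p.2 - (L : E →L[ℝ] E')‖) (𝓝 (x₀, e₀))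
        (𝓝 ‖D x₀ e₀ - (L : E →L[ℝ] E')‖) := (hc.tendsto.sub_const _).norm
    rw [hL, sub_self, norm_zero] at h1
    filter_upwards [h1.eventually (gt_mem_nhds hκ0)] with p hp using hp.le
  have hboth := hD.and hnear
  rw [nhds_prod_eq, eventually_prod_iff] at hboth
  obtain ⟨pa, hpa, pb, hpb, hab⟩ := hboth
  obtain ⟨r, hr, hrb⟩ := Metric.eventually_nhds_iff_ball.1 hpb
  have happrox : ∀ x, pa x → ApproximatesLinearOn (Ψ x) (L : E →L[ℝ] E') (ball e₀ r) κ := by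
    intro x hx e he e' he'
    have h1 := Convex.norm_image_sub_le_of_norm_hasFDerivWithin_le' (𝕜 := ℝ)
      (f := Ψ x) (f' := fun e => D x e) (s := ball e₀ r) (x := e') (y := e) (C := κ)
      (φ := (L : E →L[ℝ] E'))
      (fun y hy => (hab hx (hrb y hy)).1.hasFDerivWithinAt)
      (fun y hy => (hab hx (hrb y hy)).2) (convex_ball e₀ r) he' he
    exact h1
  refine ⟨κ, hκ0, r, hr, ?_, ?_⟩
  · filter_upwards [hpa] with x hx e he e' he'
    have h1 := happrox x hx e he e' he'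
    have h2 := hlow (e - e')
    have h3 : ‖(L : E →L[ℝ] E') (e - e')‖ ≤
        ‖Ψ x e - Ψ x e'‖ + ‖Ψ x e - Ψ x e' - (L : E →L[ℝ] E') (e - e')‖ := by
      have h4 : (L : E →L[ℝ] E') (e - e') =
          (Ψ x e - Ψ x e') - (Ψ x e - Ψ x e' - (L : E →L[ℝ] E') (e - e')) := by abel
      calc ‖(L : E →L[ℝ] E') (e - e')‖ =
          ‖(Ψ x e - Ψ x e') - (Ψ x e - Ψ x e' - (L : E →L[ℝ] E') (e - e'))‖ := by rw [← h4]
        _ ≤ _ := norm_sub_le _ _
    have h5 : (L : E →L[ℝ] E') (e - e') = L (e - e') := rfl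
    rw [h5] at h3 h1
    have h6 : (κ : ℝ) * ‖e - e'‖ = (a : ℝ)⁻¹ * ‖e - e'‖ - κ * ‖e - e'‖ := by
      rw [← sub_mul, hak]
    linarith
  · intro h0 ε hε
    set δ : ℝ := min ε r / 2 with hδ
    have hδ0 : 0 < δ := by rw [hδ]; positivity
    have hδε : δ < ε := by
      have := min_le_left ε r
      have h' : 0 < min ε r := lt_min hε hr
      rw [hδ]; linarith
    have hδr : δ < r := by
      have := min_le_right ε r
      have h' : 0 < min ε r := lt_min hε hr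
      rw [hδ]; linarith
    have hlim : ∀ᶠ x in 𝓝 x₀, ‖Ψ x e₀‖ < κ * δ := by
      have h1 : Tendsto (fun x => ‖Ψ x e₀‖) (𝓝 x₀) (𝓝 ‖Ψ x₀ e₀‖) := hΨ.tendsto.norm
      rw [h0, norm_zero] at h1
      exact h1.eventually (gt_mem_nhds (by positivity))
    filter_upwards [hpa, hlim] with x hx hx'
    let R : (L : E →L[ℝ] E').NonlinearRightInverse :=
      { toFun := fun y => L.symm y
        nnnorm := a
        bound' := hsymm
        right_inv' := fun y => L.apply_symm_apply y }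
    have hsurj := (happrox x hx).surjOn_closedBall_of_nonlinearRightInverse R (ε := δ) (b := e₀)
      hδ0.le (closedBall_subset_ball hδr)
    have hmem : (0 : E') ∈ closedBall (Ψ x e₀) (((R.nnnorm : ℝ)⁻¹ - κ) * δ) := by
      rw [mem_closedBall, dist_comm, dist_zero_right]
      have h1 : ((R.nnnorm : ℝ)⁻¹ - κ) = κ := hak
      rw [h1]
      exact hx'.le
    obtain ⟨e, he, he'⟩ := hsurj hmem
    exact ⟨e, closedBall_subset_ball hδε he, he'⟩

end Pool.Agent.Helper14.AS
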