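import Pool.Agent.Helper14.AS.Objs

/-!
# Analytic properties of the two variable theta series: derivative and joint continuity
-/

noncomputable section

namespace Pool.Agent.Helper14.AS

open Complex MeasureTheory Set Filter Topology Metric

/-- One variable bound. -/
def gR (R : ℝ) (n : ℤ) : ℝ := Real.exp (-Real.pi * (3 / 4 * (n : ℝ) ^ 2 - 2 * R * |(n : ℝ)|))

theorem gR_pos (R : ℝ) (n : ℤ) : 0 < gR R n := Real.exp_pos _

theorem summable_gR (R : ℝ) (k : ℕ) : Summable fun n : ℤ => |(n : ℝ)| ^ k * gR R n := by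
  have h := summable_pow_mul_jacobiTheta₂_term_bound R (T := 3 / 4) (by norm_num) k
  refine h.congr fun n => ?_
  rw [gR, Int.cast_abs]

/-- Summable bound for the terms of all three series. -/
def uR (R : ℝ) (k : ℤ × ℤ) : ℝ :=
  ((1 + |(k.1 : ℝ)|) * gR R k.1) * ((1 + |(k.2 : ℝ)|) * gR R k.2)

theorem summable_uR (R : ℝ) : Summable (uR R) := by
  have h : Summable fun n : ℤ => (1 + |(n : ℝ)|) * gR R n := by
    refine ((summable_gR R 0).add (summable_gR R 1)).congr fun n => ?_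
    simp only [pow_zero, pow_one]; ring
  exact h.mul_of_nonneg h (fun n => mul_nonneg (by positivity) (gR_pos R n).le)
    (fun n => mul_nonneg (by positivity) (gR_pos R n).le)

theorem gg_le_uR (R : ℝ) (k : ℤ × ℤ) : gR R k.1 * gR R k.2 ≤ uR R k := by
  unfold uR
  have h1 := gR_pos R k.1
  have h2 := gR_pos R k.2
  have a1 := abs_nonneg (k.1 : ℝ)
  have a2 := abs_nonneg (k.2 : ℝ)
  refine mul_le_mul ?_ ?_ h2.le (by positivity)
  · nlinarith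
  · nlinarith

theorem abs_fst_gg_le_uR (R : ℝ) (k : ℤ × ℤ) :
    |(k.1 : ℝ)| * (gR R k.1 * gR R k.2) ≤ uR R k := by
  unfold uR
  have h1 := gR_pos R k.1
  have h2 := gR_pos R k.2
  have a1 := abs_nonneg (k.1 : ℝ)
  have a2 := abs_nonneg (k.2 : ℝ)
  rw [← mul_assoc]
  refine mul_le_mul ?_ ?_ h2.le (by positivity)
  · nlinarith
  · nlinarith

theorem abs_snd_gg_le_uR (R : ℝ) (k : ℤ × ℤ) :
    |(k.2 : ℝ)| * (gR R k.1 * gR R k.2) ≤ uR R k := by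
  unfold uR
  have h1 := gR_pos R k.1
  have h2 := gR_pos R k.2
  have a1 := abs_nonneg (k.1 : ℝ)
  have a2 := abs_nonneg (k.2 : ℝ)
  have e : |(k.2 : ℝ)| * (gR R k.1 * gR R k.2) = gR R k.1 * (|(k.2 : ℝ)| * gR R k.2) := by ring
  rw [e]
  refine mul_le_mul ?_ ?_ (by positivity) (by positivity)
  · nlinarith
  · nlinarith

theorem W_bounds {t : ℂ × ℂ × ℂ} (ht : t ∈ W) :
    |t.1.im - 1| < 1 / 8 ∧ |t.2.1.im| < 1 / 8 ∧ |t.2.2.im - 1| < 1 / 8 := by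
  have h : ‖t - t0‖ < 1 / 8 := by
    have := mem_ball.1 ht
    rwa [dist_eq_norm] at this
  have h1 : ‖t.1 - I‖ < 1 / 8 := lt_of_le_of_lt (norm_fst_le (t - t0)) h
  have h2' : ‖(t - t0).2‖ < 1 / 8 := lt_of_le_of_lt (norm_snd_le (t - t0)) h
  have h2 : ‖t.2.1 - 0‖ < 1 / 8 := lt_of_le_of_lt (norm_fst_le (t - t0).2) h2'
  have h3 : ‖t.2.2 - I‖ < 1 / 8 := lt_of_le_of_lt (norm_snd_le (t - t0).2) h2'
  refine ⟨?_, ?_, ?_⟩
  · have := lt_of_le_of_lt (abs_im_le_norm (t.1 - I)) h1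
    simpa using this
  · have := lt_of_le_of_lt (abs_im_le_norm (t.2.1 - 0)) h2
    simpa using this
  · have := lt_of_le_of_lt (abs_im_le_norm (t.2.2 - I)) h3
    simpa using this

theorem re_thE (t : ℂ × ℂ × ℂ) (z : ℂ × ℂ) (k : ℤ × ℤ) : (thE t z k).re =
    -Real.pi * (t.1.im * (k.1 : ℝ) ^ 2 + 2 * t.2.1.im * k.1 * k.2 + t.2.2.im * (k.2 : ℝ) ^ 2) -
      2 * Real.pi * (k.1 * z.1.im + k.2 * z.2.im) := by
  have e : thE t z k = ((Real.pi * (k.1 : ℝ) ^ 2 : ℝ) : ℂ) * t.1 * I +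
      ((2 * Real.pi * k.1 * k.2 : ℝ) : ℂ) * t.2.1 * I +
      ((Real.pi * (k.2 : ℝ) ^ 2 : ℝ) : ℂ) * t.2.2 * I +
      ((2 * Real.pi * k.1 : ℝ) : ℂ) * z.1 * I + ((2 * Real.pi * k.2 : ℝ) : ℂ) * z.2 * I := by
    unfold thE
    push_cast
    ring
  rw [e]
  simp only [add_re, mul_I_re, im_ofReal_mul]
  ring

theorem norm_term_le {t : ℂ × ℂ × ℂ} (ht : t ∈ W) {R : ℝ} {z : ℂ × ℂ} (hz : ‖z‖ ≤ R)
    (k : ℤ × ℤ) : ‖cexp (thE t z k)‖ ≤ gR R k.1 * gR R k.2 := by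
  rw [Complex.norm_exp, re_thE, gR, gR, ← Real.exp_add, Real.exp_le_exp]
  obtain ⟨h1, h2, h3⟩ := W_bounds ht
  have hpi := Real.pi_pos
  set m : ℝ := (k.1 : ℝ) with hm
  set n : ℝ := (k.2 : ℝ) with hn
  have z1 : |z.1.im| ≤ R := (abs_im_le_norm _).trans ((norm_fst_le z).trans hz)
  have z2 : |z.2.im| ≤ R := (abs_im_le_norm _).trans ((norm_snd_le z).trans hz)
  have hR : 0 ≤ R := (abs_nonneg _).trans z1
  have e1 : -(R * |m|) ≤ m * z.1.im := by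
    have := neg_abs_le (m * z.1.im)
    rw [abs_mul] at this
    have h := mul_le_mul_of_nonneg_left z1 (abs_nonneg m)
    linarith
  have e2 : -(R * |n|) ≤ n * z.2.im := by
    have := neg_abs_le (n * z.2.im)
    rw [abs_mul] at this
    have h := mul_le_mul_of_nonneg_left z2 (abs_nonneg n)
    linarith
  have q : 3 / 4 * m ^ 2 + 3 / 4 * n ^ 2 ≤
      t.1.im * m ^ 2 + 2 * t.2.1.im * m * n + t.2.2.im * n ^ 2 := by
    rw [abs_lt] at h1 h3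
    have c1 : 7 / 8 * m ^ 2 ≤ t.1.im * m ^ 2 :=
      mul_le_mul_of_nonneg_right (by linarith [h1.1]) (sq_nonneg m)
    have c3 : 7 / 8 * n ^ 2 ≤ t.2.2.im * n ^ 2 :=
      mul_le_mul_of_nonneg_right (by linarith [h3.1]) (sq_nonneg n)
    have c2 : -(1 / 8 * (m ^ 2 + n ^ 2)) ≤ 2 * t.2.1.im * m * n := by
      rw [abs_lt] at h2
      have s1 := sq_nonneg (m + n)
      have s2 := sq_nonneg (m - n)
      have p1 : 0 ≤ (1 / 8 - t.2.1.im) * (m - n) ^ 2 :=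
        mul_nonneg (by linarith [h2.2]) s2
      have p2 : 0 ≤ (1 / 8 + t.2.1.im) * (m + n) ^ 2 :=
        mul_nonneg (by linarith [h2.1]) s1
      nlinarith
    linarith
  have q' := mul_le_mul_of_nonneg_left q hpi.le
  have e1' := mul_le_mul_of_nonneg_left e1 hpi.le
  have e2' := mul_le_mul_of_nonneg_left e2 hpi.le
  nlinarith

/-- Derivative of a term. -/
def tD (t : ℂ × ℂ × ℂ) (z : ℂ × ℂ) (k : ℤ × ℤ) : (ℂ × ℂ) →L[ℂ] ℂ :=
  (2 * Real.pi * I * k.1 * cexp (thE t z k)) • ContinuousLinearMap.fst ℂ ℂ ℂ +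
    (2 * Real.pi * I * k.2 * cexp (thE t z k)) • ContinuousLinearMap.snd ℂ ℂ ℂ

theorem hasFDerivAt_term (t : ℂ × ℂ × ℂ) (z : ℂ × ℂ) (k : ℤ × ℤ) :
    HasFDerivAt (fun z => cexp (thE t z k)) (tD t z k) z := by
  have h : HasFDerivAt (fun z : ℂ × ℂ => thE t z k)
      ((2 * Real.pi * I * k.1 : ℂ) • ContinuousLinearMap.fst ℂ ℂ ℂ +
        (2 * Real.pi * I * k.2 : ℂ) • ContinuousLinearMap.snd ℂ ℂ ℂ) z := by
    have h1 : HasFDerivAt (fun z : ℂ × ℂ => (2 * Real.pi * I * k.1 : ℂ) * z.1)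
        ((2 * Real.pi * I * k.1 : ℂ) • ContinuousLinearMap.fst ℂ ℂ ℂ) z :=
      hasFDerivAt_fst.const_mul _
    have h2 : HasFDerivAt (fun z : ℂ × ℂ => (2 * Real.pi * I * k.2 : ℂ) * z.2)
        ((2 * Real.pi * I * k.2 : ℂ) • ContinuousLinearMap.snd ℂ ℂ ℂ) z :=
      hasFDerivAt_snd.const_mul _
    have h3 := (h1.add h2).const_add
      (Real.pi * I * (t.1 * k.1 ^ 2 + 2 * t.2.1 * k.1 * k.2 + t.2.2 * k.2 ^ 2) : ℂ)
    refine h3.congr_of_eventuallyEq (Eventually.of_forall fun y => ?_)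
    simp only [thE, Pi.add_apply]
    ring
  have h' := h.cexp
  refine h'.congr_fderiv ?_
  unfold tD
  rw [smul_add, smul_smul, smul_smul, mul_comm (cexp _), mul_comm (cexp _)]

theorem norm_two_pi_I (m : ℤ) : ‖(2 * Real.pi * I * m : ℂ)‖ = 2 * Real.pi * |(m : ℝ)| := by
  simp only [norm_mul, Complex.norm_two, norm_I, Complex.norm_of_nonneg Real.pi_pos.le,
    norm_intCast, mul_one]

theorem norm_term1_le {t : ℂ × ℂ × ℂ} (ht : t ∈ W) {R : ℝ} {z : ℂ × ℂ} (hz : ‖z‖ ≤ R)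
    (k : ℤ × ℤ) : ‖2 * Real.pi * I * k.1 * cexp (thE t z k)‖ ≤ 2 * Real.pi * uR R k := by
  rw [norm_mul, norm_two_pi_I]
  have h := norm_term_le ht hz k
  calc 2 * Real.pi * |(k.1 : ℝ)| * ‖cexp (thE t z k)‖
      ≤ 2 * Real.pi * |(k.1 : ℝ)| * (gR R k.1 * gR R k.2) :=
        mul_le_mul_of_nonneg_left h (by positivity)
    _ = 2 * Real.pi * (|(k.1 : ℝ)| * (gR R k.1 * gR R k.2)) := by ring
    _ ≤ 2 * Real.pi * uR R k := mul_le_mul_of_nonneg_left (abs_fst_gg_le_uR R k) (by positivity)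

theorem norm_term2_le {t : ℂ × ℂ × ℂ} (ht : t ∈ W) {R : ℝ} {z : ℂ × ℂ} (hz : ‖z‖ ≤ R)
    (k : ℤ × ℤ) : ‖2 * Real.pi * I * k.2 * cexp (thE t z k)‖ ≤ 2 * Real.pi * uR R k := by
  rw [norm_mul, norm_two_pi_I]
  have h := norm_term_le ht hz k
  calc 2 * Real.pi * |(k.2 : ℝ)| * ‖cexp (thE t z k)‖
      ≤ 2 * Real.pi * |(k.2 : ℝ)| * (gR R k.1 * gR R k.2) :=
        mul_le_mul_of_nonneg_left h (by positivity)
    _ = 2 * Real.pi * (|(k.2 : ℝ)| * (gR R k.1 * gR R k.2)) := by ring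
    _ ≤ 2 * Real.pi * uR R k := mul_le_mul_of_nonneg_left (abs_snd_gg_le_uR R k) (by positivity)

theorem norm_tD_le {t : ℂ × ℂ × ℂ} (ht : t ∈ W) {R : ℝ} {z : ℂ × ℂ} (hz : ‖z‖ ≤ R)
    (k : ℤ × ℤ) : ‖tD t z k‖ ≤ 4 * Real.pi * uR R k := by
  have hns (a : ℂ) (f : (ℂ × ℂ) →L[ℂ] ℂ) : ‖a • f‖ = ‖a‖ * ‖f‖ := norm_smul a f
  unfold tD
  refine (norm_add_le _ _).trans ?_
  rw [hns, hns]
  have h1 := norm_term1_le ht hz k
  have h2 := norm_term2_le ht hz k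
  have f1 : ‖ContinuousLinearMap.fst ℂ ℂ ℂ‖ ≤ 1 := ContinuousLinearMap.norm_fst_le ..
  have f2 : ‖ContinuousLinearMap.snd ℂ ℂ ℂ‖ ≤ 1 := ContinuousLinearMap.norm_snd_le ..
  have a1 := mul_le_of_le_one_right (norm_nonneg (2 * Real.pi * I * k.1 * cexp (thE t z k))) f1
  have a2 := mul_le_of_le_one_right (norm_nonneg (2 * Real.pi * I * k.2 * cexp (thE t z k))) f2
  linarith

theorem summable_term {t : ℂ × ℂ × ℂ} (ht : t ∈ W) (z : ℂ × ℂ) :
    Summable fun k : ℤ × ℤ => cexp (thE t z k) :=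
  (summable_uR ‖z‖).of_norm_bounded fun k => (norm_term_le ht le_rfl k).trans (gg_le_uR _ k)

theorem summable_term1 {t : ℂ × ℂ × ℂ} (ht : t ∈ W) (z : ℂ × ℂ) :
    Summable fun k : ℤ × ℤ => 2 * Real.pi * I * k.1 * cexp (thE t z k) :=
  ((summable_uR ‖z‖).mul_left (2 * Real.pi)).of_norm_bounded fun k => norm_term1_le ht le_rfl k

theorem summable_term2 {t : ℂ × ℂ × ℂ} (ht : t ∈ W) (z : ℂ × ℂ) :
    Summable fun k : ℤ × ℤ => 2 * Real.pi * I * k.2 * cexp (thE t z k) :=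
  ((summable_uR ‖z‖).mul_left (2 * Real.pi)).of_norm_bounded fun k => norm_term2_le ht le_rfl k

theorem tsum_tD {t : ℂ × ℂ × ℂ} (ht : t ∈ W) (z : ℂ × ℂ) : ∑' k, tD t z k = thD t z := by
  have h1 : HasSum (fun k : ℤ × ℤ => (2 * Real.pi * I * k.1 * cexp (thE t z k)) •
      ContinuousLinearMap.fst ℂ ℂ ℂ) (th1 t z • ContinuousLinearMap.fst ℂ ℂ ℂ) :=
    (summable_term1 ht z).hasSum.smul_const _
  have h2 : HasSum (fun k : ℤ × ℤ => (2 * Real.pi * I * k.2 * cexp (thE t z k)) •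
      ContinuousLinearMap.snd ℂ ℂ ℂ) (th2 t z • ContinuousLinearMap.snd ℂ ℂ ℂ) :=
    (summable_term2 ht z).hasSum.smul_const _
  exact (h1.add h2).tsum_eq

theorem hasFDerivAt_th {t : ℂ × ℂ × ℂ} (ht : t ∈ W) (z : ℂ × ℂ) :
    HasFDerivAt (th t) (thD t z) z := by
  have hz : z ∈ ball (0 : ℂ × ℂ) (‖z‖ + 1) := by
    rw [mem_ball_zero_iff]; linarith
  have h := hasFDerivAt_tsum_of_isPreconnected (𝕜 := ℂ)
    (f := fun (k : ℤ × ℤ) (z : ℂ × ℂ) => cexp (thE t z k)) (f' := fun k z => tD t z k)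
    (u := fun k => 4 * Real.pi * uR (‖z‖ + 1) k)
    ((summable_uR (‖z‖ + 1)).mul_left _) isOpen_ball
    (convex_ball (0 : ℂ × ℂ) (‖z‖ + 1)).isPreconnected (fun k y _ => hasFDerivAt_term t y k)
    (fun k y hy => norm_tD_le ht (mem_ball_zero_iff.1 hy).le k) hz (summable_term ht z) hz
  rw [tsum_tD ht] at h
  exact h

theorem continuous_thE (k : ℤ × ℤ) :
    Continuous fun p : (ℂ × ℂ × ℂ) × (ℂ × ℂ) => thE p.1 p.2 k := by
  unfold thE
  fun_prop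

/-- Passing from balls to the whole plane. -/
theorem continuousOn_of_balls {f : (ℂ × ℂ × ℂ) × (ℂ × ℂ) → ℂ}
    (h : ∀ R : ℝ, ContinuousOn f (W ×ˢ ball 0 R)) : ContinuousOn f (W ×ˢ univ) := by
  intro p hp
  have hz : p.2 ∈ ball (0 : ℂ × ℂ) (‖p.2‖ + 1) := by
    rw [mem_ball_zero_iff]; linarith
  have hm : W ×ˢ ball (0 : ℂ × ℂ) (‖p.2‖ + 1) ∈ 𝓝 p :=
    (isOpen_ball.prod isOpen_ball).mem_nhds ⟨hp.1, hz⟩
  exact ((h (‖p.2‖ + 1)).continuousAt hm).continuousWithinAt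

theorem continuousOn_th :
    ContinuousOn (fun p : (ℂ × ℂ × ℂ) × (ℂ × ℂ) => th p.1 p.2) (W ×ˢ univ) := by
  refine continuousOn_of_balls fun R => ?_
  exact continuousOn_tsum (f := fun (k : ℤ × ℤ) (p : (ℂ × ℂ × ℂ) × (ℂ × ℂ)) =>
      cexp (thE p.1 p.2 k)) (fun k => (continuous_thE k).cexp.continuousOn) (summable_uR R)
    fun k p hp => (norm_term_le hp.1 (mem_ball_zero_iff.1 hp.2).le k).trans (gg_le_uR _ k)

theorem continuousOn_th1 :
    ContinuousOn (fun p : (ℂ × ℂ × ℂ) × (ℂ × ℂ) => th1 p.1 p.2) (W ×ˢ univ) := by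
  refine continuousOn_of_balls fun R => ?_
  exact continuousOn_tsum (f := fun (k : ℤ × ℤ) (p : (ℂ × ℂ × ℂ) × (ℂ × ℂ)) =>
      2 * Real.pi * I * k.1 * cexp (thE p.1 p.2 k))
    (fun k => (continuous_const.mul (continuous_thE k).cexp).continuousOn)
    ((summable_uR R).mul_left (2 * Real.pi))
    fun k p hp => norm_term1_le hp.1 (mem_ball_zero_iff.1 hp.2).le k

theorem continuousOn_th2 :
    ContinuousOn (fun p : (ℂ × ℂ × ℂ) × (ℂ × ℂ) => th2 p.1 p.2) (W ×ˢ univ) := by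
  refine continuousOn_of_balls fun R => ?_
  exact continuousOn_tsum (f := fun (k : ℤ × ℤ) (p : (ℂ × ℂ × ℂ) × (ℂ × ℂ)) =>
      2 * Real.pi * I * k.2 * cexp (thE p.1 p.2 k))
    (fun k => (continuous_const.mul (continuous_thE k).cexp).continuousOn)
    ((summable_uR R).mul_left (2 * Real.pi))
    fun k p hp => norm_term2_le hp.1 (mem_ball_zero_iff.1 hp.2).le k

end Pool.Agent.Helper14.AS
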