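import Pool.Agent.Helper14.AS.Objs
import Pool.Agent.Helper21.K1.JT

/-!
# Zeros of the one variable theta function at `τ = i`
-/

noncomputable section

namespace Pool.Agent.Helper14.AS

open Complex MeasureTheory Set Filter Topology

theorem jt_zero_iff (z : ℂ) : jacobiTheta₂ z I = 0 ↔ ∃ m n : ℤ, z = (1 + I) / 2 + m + n * I := by
  rw [Pool.Agent.Helper21.K1.jt_zero_iff' (τ := I) (by simp)]
  constructor
  · rintro ⟨m, n, h⟩
    exact ⟨m, n, by linear_combination h⟩
  · rintro ⟨m, n, h⟩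
    exact ⟨m, n, by linear_combination h⟩

theorem jt_deriv_ne (z : ℂ) (h : jacobiTheta₂ z I = 0) : jacobiTheta₂' z I ≠ 0 :=
  Pool.Agent.Helper21.K1.jt_deriv_ne_zero (by simp) h

theorem kap_neg : kap < 0 := by
  have h1 := Pool.Agent.Helper21.K1.jt_half_lt (t := 1) one_pos
  have h2 := Pool.Agent.Helper21.K1.jt_half_ne (t := 1) one_pos
  rw [Complex.ofReal_one, one_mul] at h1 h2
  have h3 : Real.log ‖jacobiTheta₂ (1 / 2) I‖ < Real.log ‖jacobiTheta₂ 0 I‖ :=
    Real.log_lt_log (norm_pos_iff.2 h2) h1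
  unfold kap
  linarith

end Pool.Agent.Helper14.AS
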