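import Pool.Agent.Helper14.AS.Base
import Pool.Agent.Helper14.AS.ThA
import Pool.Agent.Helper14.AS.ThB
import Pool.Agent.Helper14.AS.ThZ
import Pool.Agent.Helper14.AS.LocInv

/-!
# Common zeros of `G s` and `F s'`
-/

noncomputable section

namespace Pool.Agent.Helper14.AS

open Complex MeasureTheory Set Filter Topology Metric

namespace SepAux

theorem int_of_pm {s s' : ℝ} (hs : s = 1 / 4 ∨ s = -(1 / 4)) (hs' : s' = 1 / 4 ∨ s' = -(1 / 4)) :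
    ∃ a : ℤ, (a : ℝ) = 1 - 2 * s' + 2 * s := by
  rcases hs with rfl | rfl <;> rcases hs' with rfl | rfl
  · exact ⟨1, by norm_num⟩
  · exact ⟨2, by norm_num⟩
  · exact ⟨0, by norm_num⟩
  · exact ⟨1, by norm_num⟩

end SepAux

open SepAux in
theorem pts_zero (s s' : ℝ) (hs : s = 1 / 4 ∨ s = -(1 / 4)) (hs' : s' = 1 / 4 ∨ s' = -(1 / 4))
    (t : ℂ × ℂ × ℂ) (k : Fin 4) :
    G s t (vec t (pts s s' k)) = 0 ∧ F s' t (vec t (pts s s' k)) = 0 := by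
  obtain ⟨a, ha⟩ := int_of_pm hs hs'
  obtain ⟨a', ha'⟩ := int_of_pm hs' hs
  have hac : (a : ℂ) = 1 - 2 * s' + 2 * s := by exact_mod_cast congrArg (fun x : ℝ => (x : ℂ)) ha
  have hac' : (a' : ℂ) = 1 - 2 * s + 2 * s' := by
    exact_mod_cast congrArg (fun x : ℝ => (x : ℂ)) ha'
  have key : ∀ (x : ℂ × ℂ) (a b m n : ℤ), Odd (a * m + b * n) →
      x.1 = (a + m * t.1 + n * t.2.1) / 2 → x.2 = (b + m * t.2.1 + n * t.2.2) / 2 →
      th t x = 0 := by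
    intro x a b m n h h1 h2
    have := th_odd t a b m n h
    rw [← h1, ← h2] at this
    exact this
  rw [vec_eq]
  fin_cases k
  · constructor
    · refine key _ a 1 0 1 (by norm_num) ?_ ?_
      · simp [gp, pts, hac]; ring
      · simp [gp, pts]; ring
    · refine key _ 1 0 (-1) 1 (by norm_num) ?_ ?_
      · simp [fp, pts]; ring
      · simp [fp, pts]; ring
  · constructor
    · refine key _ a 1 2 1 (by use a; ring) ?_ ?_
      · simp [gp, pts, hac]; ring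
      · simp [gp, pts]; ring
    · refine key _ 1 0 1 1 (by norm_num) ?_ ?_
      · simp [fp, pts]; ring
      · simp [fp, pts]; ring
  · constructor
    · refine key _ 1 0 1 1 (by norm_num) ?_ ?_
      · simp [gp, pts]; ring
      · simp [gp, pts]; ring
    · refine key _ a' (-1) 0 1 (by norm_num) ?_ ?_
      · simp [fp, pts, hac']; ring
      · simp [fp, pts]; ring
  · constructor
    · refine key _ 1 2 1 1 (by use 1; norm_num) ?_ ?_
      · simp [gp, pts]; ring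
      · simp [gp, pts]; ring
    · refine key _ a' 1 0 1 (by norm_num) ?_ ?_
      · simp [fp, pts, hac']; ring
      · simp [fp, pts]; ring

namespace SepAux

/-! ### Continuity -/

theorem ca_th (x : ℂ × ℂ) :
    ContinuousAt (fun p : (ℂ × ℂ × ℂ) × (ℂ × ℂ) => th p.1 p.2) (t0, x) :=
  continuousOn_th.continuousAt (prod_mem_nhds W_nhds univ_mem)

theorem ca_th1 (x : ℂ × ℂ) :
    ContinuousAt (fun p : (ℂ × ℂ × ℂ) × (ℂ × ℂ) => th1 p.1 p.2) (t0, x) :=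
  continuousOn_th1.continuousAt (prod_mem_nhds W_nhds univ_mem)

theorem ca_th2 (x : ℂ × ℂ) :
    ContinuousAt (fun p : (ℂ × ℂ × ℂ) × (ℂ × ℂ) => th2 p.1 p.2) (t0, x) :=
  continuousOn_th2.continuousAt (prod_mem_nhds W_nhds univ_mem)

theorem cont_vec : Continuous fun p : (ℂ × ℂ × ℂ) × (Fin 4 → ℝ) => vec p.1 p.2 := by
  simp only [vec_eq]
  fun_prop

theorem cont_gp (s : ℝ) : Continuous fun p : (ℂ × ℂ × ℂ) × (Fin 4 → ℝ) => gp s (vec p.1 p.2) := by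
  have := cont_vec
  unfold gp
  fun_prop

theorem cont_fp (s : ℝ) :
    Continuous fun p : (ℂ × ℂ × ℂ) × (Fin 4 → ℝ) => fp s p.1 (vec p.1 p.2) := by
  have := cont_vec
  unfold fp
  fun_prop

theorem comp_ca {f : (ℂ × ℂ × ℂ) × (ℂ × ℂ) → ℂ} (hf : ∀ x, ContinuousAt f (t0, x))
    {g : (ℂ × ℂ × ℂ) × (Fin 4 → ℝ) → ℂ × ℂ} (hg : Continuous g) (y : Fin 4 → ℝ) :
    ContinuousAt (fun p : (ℂ × ℂ × ℂ) × (Fin 4 → ℝ) => f (p.1, g p)) (t0, y) :=
  ContinuousAt.comp (f := fun p : (ℂ × ℂ × ℂ) × (Fin 4 → ℝ) => (p.1, g p)) (x := (t0, y))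
    (hf _) (continuous_fst.prodMk hg).continuousAt

theorem ca_G (s : ℝ) (y : Fin 4 → ℝ) :
    ContinuousAt (fun p : (ℂ × ℂ × ℂ) × (Fin 4 → ℝ) => G s p.1 (vec p.1 p.2)) (t0, y) :=
  comp_ca ca_th (cont_gp s) y

theorem ca_F (s : ℝ) (y : Fin 4 → ℝ) :
    ContinuousAt (fun p : (ℂ × ℂ × ℂ) × (Fin 4 → ℝ) => F s p.1 (vec p.1 p.2)) (t0, y) :=
  comp_ca ca_th (cont_fp s) y

theorem ca_JJ (s s' : ℝ) (y : Fin 4 → ℝ) :
    ContinuousAt (fun p : (ℂ × ℂ × ℂ) × (Fin 4 → ℝ) => JJ s s' p.1 (vec p.1 p.2)) (t0, y) :=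
  ((comp_ca ca_th1 (cont_gp s) y).mul (comp_ca ca_th2 (cont_fp s') y)).sub
    ((comp_ca ca_th2 (cont_gp s) y).mul (comp_ca ca_th1 (cont_fp s') y))

/-! ### The Jacobian determinant -/

/-- Real and imaginary part of a zero of the one variable theta function. -/
theorem jt_re_im {x y : ℝ} (h : jacobiTheta₂ (x + y * I) I = 0) :
    ∃ m n : ℤ, x = 1 / 2 + m ∧ y = 1 / 2 + n := by
  obtain ⟨m, n, h⟩ := (jt_zero_iff _).1 h
  refine ⟨m, n, ?_, ?_⟩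
  · have := congrArg Complex.re h
    simpa using this
  · have := congrArg Complex.im h
    simpa using this

theorem jt_ne_zero {x y : ℝ} {j : ℤ} (h : 2 * x = 2 * j ∨ 2 * y = 2 * j) :
    jacobiTheta₂ (x + y * I) I ≠ 0 := by
  intro h0
  obtain ⟨m, n, h1, h2⟩ := jt_re_im h0
  rcases h with h | h
  · rw [h1] at h
    have : (1 + 2 * m : ℝ) = 2 * j := by linarith
    have : (1 + 2 * m : ℤ) = 2 * j := by exact_mod_cast this
    omega
  · rw [h2] at h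
    have : (1 + 2 * n : ℝ) = 2 * j := by linarith
    have : (1 + 2 * n : ℤ) = 2 * j := by exact_mod_cast this
    omega

theorem jt_eq_zero {x y : ℝ} {m n : ℤ} (h1 : x = 1 / 2 + m) (h2 : y = 1 / 2 + n) :
    jacobiTheta₂ (x + y * I) I = 0 := by
  rw [jt_zero_iff]
  refine ⟨m, n, ?_⟩
  rw [h1, h2]
  push_cast
  ring

theorem gp_t0 (s : ℝ) (y : Fin 4 → ℝ) : gp s (vec t0 y) =
    (((y 0 + s : ℝ) : ℂ) + (y 2 : ℝ) * I, ((y 1 : ℝ) : ℂ) + (y 3 : ℝ) * I) := by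
  rw [vec_eq]
  ext
  · simp [gp, t0]; ring
  · simp [gp, t0]

theorem fp_t0 (s : ℝ) (y : Fin 4 → ℝ) : fp s t0 (vec t0 y) =
    (((y 0 + s : ℝ) : ℂ) + (y 2 - 1 / 2 : ℝ) * I, ((y 1 - 1 / 2 : ℝ) : ℂ) + (y 3 : ℝ) * I) := by
  rw [vec_eq]
  ext
  · simp [fp, t0]; ring
  · simp [fp, t0]; ring

theorem det_ne_a {z₁ z₂ z₃ z₄ : ℂ} (h1 : jacobiTheta₂ z₁ I ≠ 0) (h2 : jacobiTheta₂ z₂ I = 0)
    (h3 : jacobiTheta₂ z₃ I = 0) (h4 : jacobiTheta₂ z₄ I ≠ 0) :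
    jacobiTheta₂' z₁ I * jacobiTheta₂ z₂ I * (jacobiTheta₂ z₃ I * jacobiTheta₂' z₄ I) -
      jacobiTheta₂ z₁ I * jacobiTheta₂' z₂ I * (jacobiTheta₂' z₃ I * jacobiTheta₂ z₄ I) ≠ 0 := by
  have h2' := jt_deriv_ne _ h2
  have h3' := jt_deriv_ne _ h3
  rw [h2, h3]
  simp only [mul_zero, zero_mul, zero_sub, neg_ne_zero]
  exact mul_ne_zero (mul_ne_zero h1 h2') (mul_ne_zero h3' h4)

theorem det_ne_b {z₁ z₂ z₃ z₄ : ℂ} (h1 : jacobiTheta₂ z₁ I = 0) (h2 : jacobiTheta₂ z₂ I ≠ 0)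
    (h3 : jacobiTheta₂ z₃ I ≠ 0) (h4 : jacobiTheta₂ z₄ I = 0) :
    jacobiTheta₂' z₁ I * jacobiTheta₂ z₂ I * (jacobiTheta₂ z₃ I * jacobiTheta₂' z₄ I) -
      jacobiTheta₂ z₁ I * jacobiTheta₂' z₂ I * (jacobiTheta₂' z₃ I * jacobiTheta₂ z₄ I) ≠ 0 := by
  have h1' := jt_deriv_ne _ h1
  have h4' := jt_deriv_ne _ h4
  rw [h1, h4]
  simp only [mul_zero, zero_mul, sub_zero]
  exact mul_ne_zero (mul_ne_zero h1' h2) (mul_ne_zero h3 h4')

theorem jac0 (s s' : ℝ) (k : Fin 4) : JJ s s' t0 (vec t0 (pts s s' k)) ≠ 0 := by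
  rw [JJ, gp_t0, fp_t0]
  simp only [th1_t0, th2_t0]
  fin_cases k
  · refine det_ne_a (jt_ne_zero (j := 0) (Or.inr ?_)) (jt_eq_zero (m := 0) (n := 0) ?_ ?_)
      (jt_eq_zero (m := 0) (n := -1) ?_ ?_) (jt_ne_zero (j := 0) (Or.inl ?_)) <;>
      simp [pts]
    norm_num
  · refine det_ne_a (jt_ne_zero (j := 1) (Or.inr ?_)) (jt_eq_zero (m := 0) (n := 0) ?_ ?_)
      (jt_eq_zero (m := 0) (n := 0) ?_ ?_) (jt_ne_zero (j := 0) (Or.inl ?_)) <;>
      simp [pts]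
    norm_num
  · refine det_ne_b (jt_eq_zero (m := 0) (n := 0) ?_ ?_) (jt_ne_zero (j := 0) (Or.inl ?_))
      (jt_ne_zero (j := 0) (Or.inr ?_)) (jt_eq_zero (m := -1) (n := 0) ?_ ?_) <;>
      simp [pts]
    norm_num
  · refine det_ne_b (jt_eq_zero (m := 0) (n := 0) ?_ ?_) (jt_ne_zero (j := 1) (Or.inl ?_))
      (jt_ne_zero (j := 0) (Or.inr ?_)) (jt_eq_zero (m := 0) (n := 0) ?_ ?_) <;>
      simp [pts]
    norm_num

end SepAux

open SepAux in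
theorem jac (s s' : ℝ) (hs : s = 1 / 4 ∨ s = -(1 / 4)) (hs' : s' = 1 / 4 ∨ s' = -(1 / 4)) :
    ∀ᶠ t in 𝓝 t0, ∀ k, JJ s s' t (vec t (pts s s' k)) ≠ 0 := by
  rw [eventually_all]
  intro k
  have h : ContinuousAt (fun t : ℂ × ℂ × ℂ => JJ s s' t (vec t (pts s s' k))) t0 :=
    ContinuousAt.comp (f := fun t : ℂ × ℂ × ℂ => (t, pts s s' k)) (x := t0)
      (ca_JJ s s' (pts s s' k)) (Continuous.prodMk_left _).continuousAt
  exact h.eventually_ne (jac0 s s' k)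

namespace SepAux

/-! ### The common zeros at `t0` -/

theorem half_int {a : ℝ} {m : ℤ} (h0 : 0 < a) (h1 : a < 1) {y : ℝ} (hy0 : 0 ≤ y) (hy1 : y ≤ 1)
    (h : y = a + m) : y = a := by
  have h2 : (m : ℝ) < 1 := by linarith
  have h3 : (-1 : ℝ) < m := by linarith
  have h2' : m < 1 := by exact_mod_cast h2
  have h3' : -1 < m := by exact_mod_cast h3
  have : m = 0 := by omega
  rw [h, this]; simp

theorem zero_or_one {m : ℤ} {y : ℝ} (hy0 : 0 ≤ y) (hy1 : y ≤ 1) (h : y = m) : y = 0 ∨ y = 1 := by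
  rw [h] at hy0 hy1
  have h0 : 0 ≤ m := by exact_mod_cast hy0
  have h1 : m ≤ 1 := by exact_mod_cast hy1
  rcases (by omega : m = 0 ∨ m = 1) with h2 | h2
  · left; rw [h, h2]; simp
  · right; rw [h, h2]; simp

theorem common_zero (s s' : ℝ) (hs : s = 1 / 4 ∨ s = -(1 / 4)) (hs' : s' = 1 / 4 ∨ s' = -(1 / 4))
    {y : Fin 4 → ℝ} (hy : y ∈ Icc (0 : Fin 4 → ℝ) 1) (hG : G s t0 (vec t0 y) = 0)
    (hF : F s' t0 (vec t0 y) = 0) : ∃ k, y = pts s s' k := by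
  have hy0 : ∀ i, 0 ≤ y i := fun i => hy.1 i
  have hy1 : ∀ i, y i ≤ 1 := fun i => hy.2 i
  have ha : ∀ {u : ℝ}, (u = 1 / 4 ∨ u = -(1 / 4)) → 0 < 1 / 2 - u ∧ 1 / 2 - u < 1 := by
    rintro u (rfl | rfl) <;> norm_num
  rw [G, gp_t0, th_t0, mul_eq_zero] at hG
  rw [F, fp_t0, th_t0, mul_eq_zero] at hF
  rcases hG with hG | hG
  · obtain ⟨m, n, h1, h2⟩ := jt_re_im hG
    have e0 : y 0 = 1 / 2 - s :=
      half_int (m := m) (ha hs).1 (ha hs).2 (hy0 0) (hy1 0) (by linarith)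
    have e2 : y 2 = 1 / 2 :=
      half_int (m := n) (by norm_num) (by norm_num) (hy0 2) (hy1 2) h2
    rcases hF with hF | hF
    · obtain ⟨m', n', h3, h4⟩ := jt_re_im hF
      rcases zero_or_one (m := 1 + n') (hy0 2) (hy1 2) (by push_cast; linarith) with h | h <;>
        · rw [h] at e2; norm_num at e2
    · obtain ⟨m', n', h3, h4⟩ := jt_re_im hF
      have e3 : y 3 = 1 / 2 :=
        half_int (m := n') (by norm_num) (by norm_num) (hy0 3) (hy1 3) h4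
      rcases zero_or_one (m := 1 + m') (hy0 1) (hy1 1) (by push_cast; linarith) with h | h
      · refine ⟨2, ?_⟩
        ext i
        fin_cases i <;> simp [pts, e0, e2, e3, h]
      · refine ⟨3, ?_⟩
        ext i
        fin_cases i <;> simp [pts, e0, e2, e3, h]
  · obtain ⟨m, n, h1, h2⟩ := jt_re_im hG
    have e1 : y 1 = 1 / 2 :=
      half_int (m := m) (by norm_num) (by norm_num) (hy0 1) (hy1 1) h1
    have e3 : y 3 = 1 / 2 :=
      half_int (m := n) (by norm_num) (by norm_num) (hy0 3) (hy1 3) h2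
    rcases hF with hF | hF
    · obtain ⟨m', n', h3, h4⟩ := jt_re_im hF
      have e0 : y 0 = 1 / 2 - s' :=
        half_int (m := m') (ha hs').1 (ha hs').2 (hy0 0) (hy1 0) (by linarith)
      rcases zero_or_one (m := 1 + n') (hy0 2) (hy1 2) (by push_cast; linarith) with h | h
      · refine ⟨0, ?_⟩
        ext i
        fin_cases i <;> simp [pts, e0, e1, e3, h]
      · refine ⟨1, ?_⟩
        ext i
        fin_cases i <;> simp [pts, e0, e1, e3, h]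
    · obtain ⟨m', n', h3, h4⟩ := jt_re_im hF
      rcases zero_or_one (m := 1 + m') (hy0 1) (hy1 1) (by push_cast; linarith) with h | h <;>
        · rw [h] at e1; norm_num at e1

/-! ### The derivative in real coordinates -/

/-- The coordinate `y i` as a complex valued linear form. -/
def ef (i : Fin 4) : (Fin 4 → ℝ) →L[ℝ] ℂ :=
  ofRealCLM.comp (ContinuousLinearMap.proj (R := ℝ) (φ := fun _ : Fin 4 => ℝ) i)

@[simp] theorem ef_apply (i : Fin 4) (y : Fin 4 → ℝ) : ef i y = (y i : ℂ) := rfl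

def v1 (t : ℂ × ℂ × ℂ) : (Fin 4 → ℝ) →L[ℝ] ℂ := ef 0 + t.1 • ef 2 + t.2.1 • ef 3

def v2 (t : ℂ × ℂ × ℂ) : (Fin 4 → ℝ) →L[ℝ] ℂ := ef 1 + t.2.1 • ef 2 + t.2.2 • ef 3

theorem vec_eq' (t : ℂ × ℂ × ℂ) (y : Fin 4 → ℝ) : vec t y = (v1 t y, v2 t y) := by
  rw [vec_eq]
  ext
  · simp [v1, mul_comm]
  · simp [v2, mul_comm]

theorem cont_v1 : Continuous v1 := by unfold v1; fun_prop

theorem cont_v2 : Continuous v2 := by unfold v2; fun_prop

/-- The derivative of `y ↦ th t (x + vec t y)`. -/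
def D1 (t : ℂ × ℂ × ℂ) (x : ℂ × ℂ) : (Fin 4 → ℝ) →L[ℝ] ℂ := th1 t x • v1 t + th2 t x • v2 t

theorem hasFDerivAt_D1 {t : ℂ × ℂ × ℂ} (ht : t ∈ W) {q : (Fin 4 → ℝ) → ℂ × ℂ} {c : ℂ × ℂ}
    (hq : ∀ y, q y = vec t y + c) (y : Fin 4 → ℝ) :
    HasFDerivAt (fun y => th t (q y)) (D1 t (q y)) y := by
  have h1 : HasFDerivAt q ((v1 t).prod (v2 t)) y := by
    have : q = fun y => ((v1 t).prod (v2 t)) y + c := by
      funext y
      rw [hq, vec_eq']
      rfl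
    rw [this]
    exact ((v1 t).prod (v2 t)).hasFDerivAt.add_const c
  have h2 := ((hasFDerivAt_th ht (q y)).restrictScalars ℝ).comp y h1
  have he : D1 t (q y) = ((thD t (q y)).restrictScalars ℝ).comp ((v1 t).prod (v2 t)) := by
    ext v
    simp [D1, thD]
  rw [he]
  exact h2

theorem gp_add (s : ℝ) (t : ℂ × ℂ × ℂ) (y : Fin 4 → ℝ) : gp s (vec t y) = vec t y + ((s : ℂ), 0) := by
  ext <;> simp [gp]

theorem fp_add (s : ℝ) (t : ℂ × ℂ × ℂ) (y : Fin 4 → ℝ) :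
    fp s t (vec t y) = vec t y + ((s : ℂ) - t.1 / 2, - t.2.1 / 2 - 1 / 2) := by
  ext
  · simp [fp]; ring
  · simp [fp]; ring

theorem ca_D1 {g : (ℂ × ℂ × ℂ) × (Fin 4 → ℝ) → ℂ × ℂ} (hg : Continuous g) (y : Fin 4 → ℝ) :
    ContinuousAt (fun p : (ℂ × ℂ × ℂ) × (Fin 4 → ℝ) => D1 p.1 (g p)) (t0, y) :=
  ((comp_ca ca_th1 hg y).smul (cont_v1.comp continuous_fst).continuousAt).add
    ((comp_ca ca_th2 hg y).smul (cont_v2.comp continuous_fst).continuousAt)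

/-- The derivative of `y ↦ (G s t (vec t y), F s' t (vec t y))`. -/
def DD (s s' : ℝ) (t : ℂ × ℂ × ℂ) (y : Fin 4 → ℝ) : (Fin 4 → ℝ) →L[ℝ] (ℂ × ℂ) :=
  (D1 t (gp s (vec t y))).prod (D1 t (fp s' t (vec t y)))

theorem hasFDerivAt_DD (s s' : ℝ) {t : ℂ × ℂ × ℂ} (ht : t ∈ W) (y : Fin 4 → ℝ) :
    HasFDerivAt (fun y => (G s t (vec t y), F s' t (vec t y))) (DD s s' t y) y :=
  (hasFDerivAt_D1 ht (gp_add s t) y).prodMk (hasFDerivAt_D1 ht (fp_add s' t) y)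

theorem ca_DD (s s' : ℝ) (y : Fin 4 → ℝ) :
    ContinuousAt (fun p : (ℂ × ℂ × ℂ) × (Fin 4 → ℝ) => DD s s' p.1 p.2) (t0, y) := by
  have h1 := ca_D1 (cont_gp s) y
  have h2 := ca_D1 (cont_fp s') y
  have h3 := h1.prodMk h2
  exact ContinuousAt.comp (g := fun q : ((Fin 4 → ℝ) →L[ℝ] ℂ) × ((Fin 4 → ℝ) →L[ℝ] ℂ) =>
    q.1.prod q.2) (ContinuousLinearMap.prodₗᵢ ℝ).continuous.continuousAt h3

theorem vec_t0_inj {y : Fin 4 → ℝ} (h1 : v1 t0 y = 0) (h2 : v2 t0 y = 0) : y = 0 := by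
  have a := congrArg Complex.re h1
  have b := congrArg Complex.im h1
  have c := congrArg Complex.re h2
  have d := congrArg Complex.im h2
  simp [v1, v2, t0] at a b c d
  ext i
  fin_cases i <;> simp [a, b, c, d]

theorem DD_inj (s s' : ℝ) (k : Fin 4) : Function.Injective (DD s s' t0 (pts s s' k)) := by
  rw [injective_iff_map_eq_zero]
  intro v hv
  have hJ := jac0 s s' k
  rw [JJ] at hJ
  set a := th1 t0 (gp s (vec t0 (pts s s' k)))
  set b := th2 t0 (gp s (vec t0 (pts s s' k)))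
  set c := th1 t0 (fp s' t0 (vec t0 (pts s s' k)))
  set d := th2 t0 (fp s' t0 (vec t0 (pts s s' k)))
  have e1 : a * v1 t0 v + b * v2 t0 v = 0 := congrArg Prod.fst hv
  have e2 : c * v1 t0 v + d * v2 t0 v = 0 := congrArg Prod.snd hv
  have f1 : (a * d - b * c) * v1 t0 v = 0 := by linear_combination d * e1 - b * e2
  have f2 : (a * d - b * c) * v2 t0 v = 0 := by linear_combination a * e2 - c * e1
  exact vec_t0_inj ((mul_eq_zero.1 f1).resolve_left hJ) ((mul_eq_zero.1 f2).resolve_left hJ)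

theorem exists_equiv (s s' : ℝ) (k : Fin 4) : ∃ L : (Fin 4 → ℝ) ≃L[ℝ] (ℂ × ℂ), DD s s' t0 (pts s s' k) = L := by
  have hf : Module.finrank ℝ (Fin 4 → ℝ) = Module.finrank ℝ (ℂ × ℂ) := by
    simp [Module.finrank_prod]
  refine ⟨(LinearMap.linearEquivOfInjective (DD s s' t0 (pts s s' k)).toLinearMap
    (DD_inj s s' k) hf).toContinuousLinearEquiv, ?_⟩
  ext v
  · simp
  · simp

/-- Near the point `pts s s' k`. -/
theorem sep_near (s s' : ℝ) (hs : s = 1 / 4 ∨ s = -(1 / 4)) (hs' : s' = 1 / 4 ∨ s' = -(1 / 4))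
    (k : Fin 4) : ∃ c > 0, ∃ r > 0, ∀ᶠ t in 𝓝 t0, ∀ y ∈ ball (pts s s' k) r,
      G s t (vec t y) = 0 → c * ‖y - pts s s' k‖ ≤ ‖F s' t (vec t y)‖ := by
  obtain ⟨L, hL⟩ := exists_equiv s s' k
  obtain ⟨c, hc, r, hr, h, -⟩ := locinv
    (Ψ := fun t y => (G s t (vec t y), F s' t (vec t y))) (D := DD s s') (x₀ := t0)
    (e₀ := pts s s' k) (by
      filter_upwards [prod_mem_nhds W_nhds univ_mem] with p hp
      exact hasFDerivAt_DD s s' hp.1 p.2) (ca_DD s s' _) (by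
      have h1 := (ca_G s (pts s s' k)).prodMk (ca_F s' (pts s s' k))
      exact ContinuousAt.comp (f := fun t : ℂ × ℂ × ℂ => (t, pts s s' k)) (x := t0) h1
        (Continuous.prodMk_left _).continuousAt) L hL
  refine ⟨c, hc, r, hr, ?_⟩
  filter_upwards [h] with t ht y hy hG
  have h1 := ht y hy _ (mem_ball_self hr)
  obtain ⟨z1, z2⟩ := pts_zero s s' hs hs' t k
  simp only [z1, z2, hG] at h1
  refine h1.trans (le_of_eq ?_)
  simp [Prod.norm_def]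

end SepAux

open SepAux in
theorem sep (s s' : ℝ) (hs : s = 1 / 4 ∨ s = -(1 / 4)) (hs' : s' = 1 / 4 ∨ s' = -(1 / 4)) :
    ∃ c > 0, ∀ᶠ t in 𝓝 t0, ∀ y ∈ Icc (0 : Fin 4 → ℝ) 1, G s t (vec t y) = 0 →
      ∃ k, c * ‖y - pts s s' k‖ ≤ ‖F s' t (vec t y)‖ := by
  refine IsCompact.induction_on (p := fun U : Set (Fin 4 → ℝ) => ∃ c > 0, ∀ᶠ t in 𝓝 t0,
    ∀ y ∈ U, G s t (vec t y) = 0 → ∃ k, c * ‖y - pts s s' k‖ ≤ ‖F s' t (vec t y)‖)
    (isCompact_Icc (a := (0 : Fin 4 → ℝ)) (b := 1)) ?_ ?_ ?_ ?_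
  · exact ⟨1, one_pos, Eventually.of_forall fun t y hy => hy.elim⟩
  · rintro U V hUV ⟨c, hc, h⟩
    exact ⟨c, hc, h.mono fun t ht y hy => ht y (hUV hy)⟩
  · rintro U V ⟨c, hc, h⟩ ⟨c', hc', h'⟩
    refine ⟨min c c', lt_min hc hc', ?_⟩
    filter_upwards [h, h'] with t ht ht' y hy hG
    rcases hy with hy | hy
    · obtain ⟨k, hk⟩ := ht y hy hG
      exact ⟨k, le_trans (mul_le_mul_of_nonneg_right (min_le_left _ _) (norm_nonneg _)) hk⟩
    · obtain ⟨k, hk⟩ := ht' y hy hG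
      exact ⟨k, le_trans (mul_le_mul_of_nonneg_right (min_le_right _ _) (norm_nonneg _)) hk⟩
  · intro y hy
    by_cases hG : G s t0 (vec t0 y) = 0
    · by_cases hF : F s' t0 (vec t0 y) = 0
      · obtain ⟨k, rfl⟩ := common_zero s s' hs hs' hy hG hF
        obtain ⟨c, hc, r, hr, h⟩ := sep_near s s' hs hs' k
        refine ⟨_, mem_nhdsWithin_of_mem_nhds (ball_mem_nhds _ hr), c, hc, ?_⟩
        filter_upwards [h] with t ht z hz hz'
        exact ⟨k, ht z hz hz'⟩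
      · have h1 : ∀ᶠ p : (ℂ × ℂ × ℂ) × (Fin 4 → ℝ) in 𝓝 (t0, y),
            ‖F s' t0 (vec t0 y)‖ / 2 < ‖F s' p.1 (vec p.1 p.2)‖ := by
          have h0 : 0 < ‖F s' t0 (vec t0 y)‖ := norm_pos_iff.2 hF
          exact (ca_F s' y).norm.eventually_const_lt (by simpa using h0)
        have h0 : 0 < ‖F s' t0 (vec t0 y)‖ := norm_pos_iff.2 hF
        rw [nhds_prod_eq] at h1
        obtain ⟨pa, hpa, pb, hpb, h2⟩ := eventually_prod_iff.1 h1
        have hM : 0 < ‖y - pts s s' 0‖ + 1 := by positivity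
        refine ⟨{z | pb z} ∩ ball y 1, mem_nhdsWithin_of_mem_nhds
          (inter_mem hpb (ball_mem_nhds _ one_pos)),
          ‖F s' t0 (vec t0 y)‖ / 2 / (‖y - pts s s' 0‖ + 1), by positivity, ?_⟩
        filter_upwards [hpa] with t ht z hz hz'
        refine ⟨0, ?_⟩
        have h3 := h2 ht hz.1
        have h4 : ‖z - pts s s' 0‖ ≤ ‖y - pts s s' 0‖ + 1 := by
          have h5 : ‖z - y‖ < 1 := by
            have := hz.2
            rwa [mem_ball, dist_eq_norm] at this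
          calc ‖z - pts s s' 0‖ = ‖(z - y) + (y - pts s s' 0)‖ := by congr 1; abel
            _ ≤ ‖z - y‖ + ‖y - pts s s' 0‖ := norm_add_le _ _
            _ ≤ ‖y - pts s s' 0‖ + 1 := by linarith
        calc ‖F s' t0 (vec t0 y)‖ / 2 / (‖y - pts s s' 0‖ + 1) * ‖z - pts s s' 0‖
            ≤ ‖F s' t0 (vec t0 y)‖ / 2 / (‖y - pts s s' 0‖ + 1) * (‖y - pts s s' 0‖ + 1) :=
              mul_le_mul_of_nonneg_left h4 (by positivity)
          _ = ‖F s' t0 (vec t0 y)‖ / 2 := by field_simp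
          _ ≤ ‖F s' t (vec t z)‖ := h3.le
    · have h1 : ∀ᶠ p : (ℂ × ℂ × ℂ) × (Fin 4 → ℝ) in 𝓝 (t0, y), G s p.1 (vec p.1 p.2) ≠ 0 :=
        (ca_G s y).eventually_ne hG
      rw [nhds_prod_eq] at h1
      obtain ⟨pa, hpa, pb, hpb, h2⟩ := eventually_prod_iff.1 h1
      refine ⟨{z | pb z}, mem_nhdsWithin_of_mem_nhds hpb, 1, one_pos, ?_⟩
      filter_upwards [hpa] with t ht z hz hz'
      exact absurd hz' (h2 ht hz)

end Pool.Agent.Helper14.AS
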