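import Pool.Agent.Helper14.AS.ThA
import Pool.Agent.Helper14.AS.ThB
import Pool.Agent.Helper14.AS.ThZ
import Pool.Agent.Helper14.AS.Sep

/-!
# The curves and functions form a cycle: validity of the terms (module CYC)
-/

noncomputable section

namespace Pool.Agent.Helper14.AS

open Complex MeasureTheory Set Filter Topology Metric

attribute [local irreducible] th th1 th2

/-! ### real coordinates -/

theorem cyc_vec (t : ℂ × ℂ × ℂ) (y : Fin 4 → ℝ) :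
    vec t y = (y 0 + y 2 * t.1 + y 3 * t.2.1, y 1 + y 2 * t.2.1 + y 3 * t.2.2) := by
  simp [vec, bt, Fin.sum_univ_four, Prod.ext_iff]

theorem cyc_vec_add (t : ℂ × ℂ × ℂ) (y y' : Fin 4 → ℝ) : vec t (y + y') = vec t y + vec t y' := by
  simp only [vec, Pi.add_apply, add_smul, Finset.sum_add_distrib]

theorem cyc_vec_sub (t : ℂ × ℂ × ℂ) (y y' : Fin 4 → ℝ) : vec t (y - y') = vec t y - vec t y' := by
  simp only [vec, Pi.sub_apply, sub_smul, Finset.sum_sub_distrib]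

theorem cyc_W_nhds : W ∈ 𝓝 t0 := Metric.ball_mem_nhds _ (by norm_num)

theorem cyc_W_im {t : ℂ × ℂ × ℂ} (ht : t ∈ W) :
    7 / 8 < t.1.im ∧ |t.2.1.im| < 1 / 8 ∧ 7 / 8 < t.2.2.im := by
  have h : dist t t0 < 1 / 8 := ht
  rw [Prod.dist_eq, Prod.dist_eq, max_lt_iff, max_lt_iff] at h
  obtain ⟨h1, h2, h3⟩ := h
  simp only [t0] at h1 h2 h3
  rw [Complex.dist_eq] at h1 h2 h3
  have e1 := (Complex.abs_im_le_norm (t.1 - I)).trans_lt h1
  have e2 := (Complex.abs_im_le_norm (t.2.1 - 0)).trans_lt h2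
  have e3 := (Complex.abs_im_le_norm (t.2.2 - I)).trans_lt h3
  simp only [Complex.sub_im, Complex.I_im, sub_zero] at e1 e2 e3
  rw [abs_lt] at e1 e3
  refine ⟨by linarith [e1.1], e2, by linarith [e3.1]⟩

theorem cyc_indep {t : ℂ × ℂ × ℂ} (ht : t ∈ W) : LinearIndependent ℝ (bt t) := by
  obtain ⟨ha, hb, hd⟩ := cyc_W_im ht
  rw [Fintype.linearIndependent_iff]
  intro x hx
  have hx' : vec t x = 0 := hx
  rw [cyc_vec, Prod.ext_iff] at hx'
  obtain ⟨h1, h2⟩ := hx'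
  simp only [Prod.fst_zero, Prod.snd_zero] at h1 h2
  have i1 := congrArg Complex.im h1
  have i2 := congrArg Complex.im h2
  have r1 := congrArg Complex.re h1
  have r2 := congrArg Complex.re h2
  simp only [Complex.add_im, Complex.mul_im, Complex.ofReal_im, Complex.ofReal_re, zero_mul,
    add_zero, zero_add, Complex.zero_im] at i1 i2
  simp only [Complex.add_re, Complex.mul_re, Complex.ofReal_im, Complex.ofReal_re, zero_mul,
    sub_zero, Complex.zero_re] at r1 r2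
  have hb' := abs_lt.1 hb
  have hq : x 2 ^ 2 * t.1.im + 2 * (x 2 * x 3 * t.2.1.im) + x 3 ^ 2 * t.2.2.im = 0 := by
    linear_combination x 2 * i1 + x 3 * i2
  have hcross : |x 2 * x 3 * t.2.1.im| ≤ (x 2 ^ 2 + x 3 ^ 2) / 2 * (1 / 8) := by
    rw [abs_mul]
    refine mul_le_mul ?_ hb.le (abs_nonneg _) (by positivity)
    rw [abs_le]
    constructor <;> nlinarith [sq_nonneg (x 2 + x 3), sq_nonneg (x 2 - x 3)]
  have hcross' := (abs_le.1 hcross).1
  have hs : x 2 ^ 2 + x 3 ^ 2 ≤ 0 := by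
    nlinarith [mul_le_mul_of_nonneg_left ha.le (sq_nonneg (x 2)),
      mul_le_mul_of_nonneg_left hd.le (sq_nonneg (x 3))]
  have h2' : x 2 = 0 := by nlinarith [sq_nonneg (x 2), sq_nonneg (x 3)]
  have h3' : x 3 = 0 := by nlinarith [sq_nonneg (x 2), sq_nonneg (x 3)]
  rw [h2', h3'] at r1 r2
  intro i
  fin_cases i
  · simpa using r1
  · simpa using r2
  · exact h2'
  · exact h3'

theorem cyc_vec_inj {t : ℂ × ℂ × ℂ} (ht : t ∈ W) {y y' : Fin 4 → ℝ} (h : vec t y = vec t y') :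
    y = y' := by
  have h1 : vec t (y - y') = 0 := by rw [cyc_vec_sub, h, sub_self]
  have h2 := Fintype.linearIndependent_iff.1 (cyc_indep ht) (y - y') h1
  funext i
  have := h2 i
  simpa [sub_eq_zero] using this

theorem cyc_vec_surj {t : ℂ × ℂ × ℂ} (ht : t ∈ W) (z : ℂ × ℂ) : ∃ y : Fin 4 → ℝ, z = vec t y := by
  have hfin : Fintype.card (Fin 4) = Module.finrank ℝ (ℂ × ℂ) := by
    rw [Module.finrank_prod, Complex.finrank_real_complex]
    simp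
  have hspan := (cyc_indep ht).span_eq_top_of_card_eq_finrank' hfin
  have hz : z ∈ Submodule.span ℝ (range (bt t)) := by rw [hspan]; exact Submodule.mem_top
  obtain ⟨c, hc⟩ := (Submodule.mem_span_range_iff_exists_fun ℝ).1 hz
  exact ⟨c, hc.symm⟩

theorem cyc_mem_lat {t : ℂ × ℂ × ℂ} {v : ℂ × ℂ} :
    v ∈ lat (bt t) ↔ ∃ k : Fin 4 → ℤ, v = vec t (fun i => (k i : ℝ)) := by
  rw [mem_lat_bt]
  constructor
  · rintro ⟨a, b, m, n, rfl⟩
    refine ⟨![a, b, m, n], ?_⟩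
    rw [cyc_vec]
    simp
  · rintro ⟨k, rfl⟩
    refine ⟨k 0, k 1, k 2, k 3, ?_⟩
    rw [cyc_vec]
    simp

/-- reduction to the cell -/
theorem cyc_reduce {t : ℂ × ℂ × ℂ} (ht : t ∈ W) (z : ℂ × ℂ) : ∃ y : Fin 4 → ℝ,
    (∀ i, 0 ≤ y i ∧ y i < 1) ∧ ∃ v ∈ lat (bt t), z = vec t y + v := by
  obtain ⟨y, rfl⟩ := cyc_vec_surj ht z
  refine ⟨fun i => Int.fract (y i), fun i => ⟨Int.fract_nonneg _, Int.fract_lt_one _⟩,
    vec t (fun i => ((⌊y i⌋ : ℤ) : ℝ)), cyc_mem_lat.2 ⟨fun i => ⌊y i⌋, rfl⟩, ?_⟩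
  rw [← cyc_vec_add]
  congr 1
  funext i
  simp [Int.fract_add_floor]

/-- points of the half open cell are determined by their class -/
theorem cyc_class {t : ℂ × ℂ × ℂ} (ht : t ∈ W) {y y' : Fin 4 → ℝ} (hy : ∀ i, 0 ≤ y i ∧ y i < 1)
    (hy' : ∀ i, 0 ≤ y' i ∧ y' i < 1) : vec t y - vec t y' ∈ lat (bt t) ↔ y = y' := by
  constructor
  · intro h
    obtain ⟨k, hk⟩ := cyc_mem_lat.1 h
    rw [← cyc_vec_sub] at hk
    have h1 := cyc_vec_inj ht hk
    funext i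
    have h2 := congrFun h1 i
    simp only [Pi.sub_apply] at h2
    have h3 := hy i
    have h4 := hy' i
    have h5 : ((k i : ℤ) : ℝ) < 1 := by rw [← h2]; linarith [h3.2, h4.1]
    have h6 : (-1 : ℝ) < ((k i : ℤ) : ℝ) := by rw [← h2]; linarith [h3.1, h4.2]
    have h7 : k i < 1 := by exact_mod_cast h5
    have h8 : -1 < k i := by exact_mod_cast h6
    have h9 : k i = 0 := by omega
    rw [h9] at h2
    simp only [Int.cast_zero] at h2
    linarith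
  · rintro rfl
    rw [sub_self]
    exact AddSubgroup.zero_mem _

/-! ### the functions `G`, `F` -/

/-- shift -/
def fpv (s : ℝ) (t : ℂ × ℂ × ℂ) : ℂ × ℂ := ((s : ℂ) - t.1 / 2, -(t.2.1 / 2) - 1 / 2)

theorem cyc_fp (s : ℝ) (t : ℂ × ℂ × ℂ) (z : ℂ × ℂ) : fp s t z = z + fpv s t := by
  simp only [fp, fpv]
  ext <;> simp <;> ring

theorem cyc_gp (s : ℝ) (z : ℂ × ℂ) : gp s z = z + ((s : ℂ), 0) := by
  simp only [gp]
  ext <;> simp

theorem cyc_G_deriv {t : ℂ × ℂ × ℂ} (ht : t ∈ W) (s : ℝ) (z : ℂ × ℂ) :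
    HasFDerivAt (G s t) (thD t (gp s z)) z := by
  have h1 := hasFDerivAt_th ht (gp s z)
  rw [cyc_gp] at h1
  have h2 : HasFDerivAt (fun z : ℂ × ℂ => z + ((s : ℂ), (0 : ℂ)))
      (ContinuousLinearMap.id ℂ (ℂ × ℂ)) z := (hasFDerivAt_id z).add_const _
  have h3 := HasFDerivAt.comp z h1 h2
  rw [ContinuousLinearMap.comp_id] at h3
  rw [cyc_gp]
  have e : G s t = th t ∘ fun z : ℂ × ℂ => z + ((s : ℂ), (0 : ℂ)) := by
    funext w
    simp only [G, Function.comp, cyc_gp]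
  rw [e]
  exact h3

theorem cyc_F_deriv {t : ℂ × ℂ × ℂ} (ht : t ∈ W) (s : ℝ) (z : ℂ × ℂ) :
    HasFDerivAt (F s t) (thD t (fp s t z)) z := by
  have h1 := hasFDerivAt_th ht (fp s t z)
  rw [cyc_fp] at h1
  have h2 : HasFDerivAt (fun z : ℂ × ℂ => z + fpv s t)
      (ContinuousLinearMap.id ℂ (ℂ × ℂ)) z := (hasFDerivAt_id z).add_const _
  have h3 := HasFDerivAt.comp z h1 h2
  rw [ContinuousLinearMap.comp_id] at h3
  rw [cyc_fp]
  have e : F s t = th t ∘ fun z : ℂ × ℂ => z + fpv s t := by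
    funext w
    simp only [F, Function.comp, cyc_fp]
  rw [e]
  exact h3

theorem cyc_slice {f : (ℂ × ℂ × ℂ) → (ℂ × ℂ) → ℂ}
    (hf : ContinuousOn (fun p : (ℂ × ℂ × ℂ) × (ℂ × ℂ) => f p.1 p.2) (W ×ˢ univ))
    {t : ℂ × ℂ × ℂ} (ht : t ∈ W) : Continuous fun z => f t z := by
  rw [← continuousOn_univ]
  have hc : ContinuousOn (fun z : ℂ × ℂ => (t, z)) univ := by fun_prop
  exact hf.comp hc (fun z _ => ⟨ht, mem_univ _⟩)

theorem cyc_thD_cont {t : ℂ × ℂ × ℂ} (ht : t ∈ W) : Continuous fun z => thD t z := by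
  have h1 := cyc_slice continuousOn_th1 ht
  have h2 := cyc_slice continuousOn_th2 ht
  unfold thD
  exact (h1.smul continuous_const).add (h2.smul continuous_const)

theorem cyc_G_C1 {t : ℂ × ℂ × ℂ} (ht : t ∈ W) (s : ℝ) : ContDiff ℂ 1 (G s t) := by
  rw [contDiff_one_iff_hasFDerivAt]
  refine ⟨fun z => thD t (gp s z), ?_, cyc_G_deriv ht s⟩
  have h := cyc_thD_cont ht
  have hg : Continuous fun z : ℂ × ℂ => gp s z := by
    unfold gp
    fun_prop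
  exact h.comp hg

theorem cyc_F_C1 {t : ℂ × ℂ × ℂ} (ht : t ∈ W) (s : ℝ) : ContDiff ℂ 1 (F s t) := by
  rw [contDiff_one_iff_hasFDerivAt]
  refine ⟨fun z => thD t (fp s t z), ?_, cyc_F_deriv ht s⟩
  have h := cyc_thD_cont ht
  have hg : Continuous fun z : ℂ × ℂ => fp s t z := by
    unfold fp
    fun_prop
  exact h.comp hg

/-! ### the curves -/

theorem cyc_curve {t : ℂ × ℂ × ℂ} (ht : t ∈ W) (h0 : th t 0 ≠ 0) (s : ℝ) : IsCurve (Zc s t) := by
  intro p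
  refine ⟨G s t, Eventually.of_forall fun z => (cyc_G_deriv ht s z).differentiableAt, ?_,
    Eventually.of_forall fun z => Iff.rfl⟩
  intro hev
  set q : ℂ × ℂ := (-(s : ℂ), 0) with hq
  let φ : ℂ → ℂ := fun x => G s t (p + x • (q - p))
  have hdiff : Differentiable ℂ φ := by
    intro x
    have h1 : DifferentiableAt ℂ (G s t) (p + x • (q - p)) :=
      (cyc_G_deriv ht s _).differentiableAt
    have h2 : DifferentiableAt ℂ (fun x : ℂ => p + x • (q - p)) x := by fun_prop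
    exact DifferentiableAt.comp (g := G s t) x h1 h2
  have hcont : Tendsto (fun x : ℂ => p + x • (q - p)) (𝓝 0) (𝓝 p) := by
    have : Continuous (fun x : ℂ => p + x • (q - p)) := by fun_prop
    have h := this.tendsto 0
    simpa using h
  have hev2 : ∀ᶠ x in 𝓝 (0 : ℂ), φ x = 0 := hcont.eventually hev
  have han : AnalyticOnNhd ℂ φ univ := fun x _ => hdiff.analyticAt x
  have hz := han.eqOn_zero_of_preconnected_of_eventuallyEq_zero isPreconnected_univ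
    (mem_univ 0) hev2
  have h1 := hz (mem_univ 1)
  apply h0
  have e : φ 1 = th t 0 := by
    simp only [φ, one_smul, add_sub_cancel, G, gp, hq]
    congr 1
    ext <;> simp
  rw [← e, h1]
  rfl

/-! ### local parameters -/

theorem cyc_param {g f : ℂ × ℂ → ℂ} (hg : ContDiff ℂ 1 g) (hf : ContDiff ℂ 1 f) {p : ℂ × ℂ}
    (hgp : g p = 0) (hfp : f p = 0) {g' f' : (ℂ × ℂ) →L[ℂ] ℂ} (hg' : HasFDerivAt g g' p)
    (hf' : HasFDerivAt f f' p) (hdet : ∀ v, g' v = 0 → f' v = 0 → v = 0) :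
    ∃ γ : ℂ → ℂ × ℂ, AnalyticAt ℂ γ 0 ∧ γ 0 = p ∧ (∀ᶠ s in 𝓝 (0 : ℂ), g (γ s) = 0) ∧
      (∀ᶠ s in 𝓝 (0 : ℂ), f (γ s) = s) ∧
      ∀ U ∈ 𝓝 (0 : ℂ), ∀ᶠ z in 𝓝 p, g z = 0 → ∃ s ∈ U, γ s = z := by
  have hinj : Function.Injective (g'.prod f') := by
    rw [injective_iff_map_eq_zero]
    intro v hv
    have hv' : (g' v, f' v) = (0, 0) := hv
    rw [Prod.mk.injEq] at hv'
    exact hdet v hv'.1 hv'.2
  let L0 : (ℂ × ℂ) ≃ₗ[ℂ] (ℂ × ℂ) := LinearEquiv.ofInjectiveEndo (g'.prod f').toLinearMap hinj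
  let L : (ℂ × ℂ) ≃L[ℂ] (ℂ × ℂ) := L0.toContinuousLinearEquiv
  have hL : (L : (ℂ × ℂ) →L[ℂ] (ℂ × ℂ)) = g'.prod f' := by
    refine ContinuousLinearMap.ext fun v => rfl
  let Φ : ℂ × ℂ → ℂ × ℂ := fun z => (g z, f z)
  have hΦ : ContDiffAt ℂ 1 Φ p := (hg.prodMk hf).contDiffAt
  have hΦ' : HasFDerivAt Φ (L : (ℂ × ℂ) →L[ℂ] (ℂ × ℂ)) p := by
    rw [hL]
    exact hg'.prodMk hf'
  have hΦp : Φ p = 0 := by simp only [Φ, hgp, hfp]; rfl
  have hstrict := hΦ.hasStrictFDerivAt' hΦ' one_ne_zero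
  let Ψ : ℂ × ℂ → ℂ × ℂ := hΦ.localInverse hΦ' one_ne_zero
  have hΨ0 : Ψ 0 = p := by
    rw [← hΦp]
    exact hΦ.localInverse_apply_image hΦ' one_ne_zero
  have hΨ : ContDiffAt ℂ 1 Ψ 0 := by
    rw [← hΦp]
    exact hΦ.to_localInverse hΦ' one_ne_zero
  have hright : ∀ᶠ w in 𝓝 (0 : ℂ × ℂ), Φ (Ψ w) = w := by
    rw [← hΦp]
    exact hstrict.eventually_right_inverse
  have hleft : ∀ᶠ z in 𝓝 p, Ψ (Φ z) = z := hstrict.eventually_left_inverse
  have hin : Tendsto (fun s : ℂ => ((0 : ℂ), s)) (𝓝 0) (𝓝 (0 : ℂ × ℂ)) := by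
    have : Continuous (fun s : ℂ => ((0 : ℂ), s)) := by fun_prop
    exact this.tendsto 0
  refine ⟨fun s => Ψ (0, s), ?_, hΨ0, ?_, ?_, ?_⟩
  · have h1 : ContDiffAt ℂ 1 (fun s : ℂ => Ψ (0, s)) 0 := by
      have h2 : ContDiffAt ℂ 1 (fun s : ℂ => ((0 : ℂ), s)) 0 := by fun_prop
      have h3 : ContDiffAt ℂ 1 Ψ ((fun s : ℂ => ((0 : ℂ), s)) 0) := hΨ
      exact h3.comp 0 h2
    have h4 : ∀ᶠ x in 𝓝 (0 : ℂ), ContDiffAt ℂ 1 (fun s : ℂ => Ψ (0, s)) x :=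
      h1.eventually (by simp)
    have h5 : ∀ᶠ x in 𝓝 (0 : ℂ), DifferentiableAt ℂ (fun s : ℂ => Ψ (0, s)) x := by
      filter_upwards [h4] with x hx
      exact hx.differentiableAt one_ne_zero
    exact analyticAt_iff_eventually_differentiableAt.2 h5
  · filter_upwards [hin.eventually hright] with s hs
    exact congrArg Prod.fst hs
  · filter_upwards [hin.eventually hright] with s hs
    exact congrArg Prod.snd hs
  · intro U hU
    have hfc : Tendsto f (𝓝 p) (𝓝 0) := by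
      have := hf.continuous.tendsto p
      rwa [hfp] at this
    filter_upwards [hleft, hfc hU] with z hz hzU hgz
    refine ⟨f z, hzU, ?_⟩
    have : Φ z = (0, f z) := by simp only [Φ, hgz]
    rw [← this]
    exact hz

/-! ### orders -/

theorem cyc_order {v : ℂ → ℂ} (hv : AnalyticAt ℂ v 0) (h : v 0 = 0 → deriv v 0 ≠ 0)
    [Decidable (v 0 = 0)] :
    meromorphicOrderAt v 0 = ((if v 0 = 0 then 1 else 0 : ℤ) : WithTop ℤ) := by
  rw [hv.meromorphicOrderAt_eq]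
  split_ifs with h0
  · rw [hv.analyticOrderAt_eq_one_of_zero_deriv_ne_zero h0 (h h0)]
    rfl
  · rw [hv.analyticOrderAt_eq_zero.2 h0]
    rfl

theorem cyc_thD_apply (t : ℂ × ℂ × ℂ) (z v : ℂ × ℂ) :
    thD t z v = th1 t z * v.1 + th2 t z * v.2 := by
  simp [thD]

theorem cyc_det {t : ℂ × ℂ × ℂ} {s s' : ℝ} {p : ℂ × ℂ} (hJ : JJ s s' t p ≠ 0) (v : ℂ × ℂ)
    (h1 : thD t (gp s p) v = 0) (h2 : thD t (fp s' t p) v = 0) : v = 0 := by
  rw [cyc_thD_apply] at h1 h2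
  have e1 : v.1 * JJ s s' t p = 0 := by
    unfold JJ
    linear_combination th2 t (fp s' t p) * h1 - th2 t (gp s p) * h2
  have e2 : v.2 * JJ s s' t p = 0 := by
    unfold JJ
    linear_combination -th1 t (fp s' t p) * h1 + th1 t (gp s p) * h2
  have e3 := (mul_eq_zero.1 e1).resolve_right hJ
  have e4 := (mul_eq_zero.1 e2).resolve_right hJ
  exact Prod.ext e3 e4

theorem cyc_node {t : ℂ × ℂ × ℂ} (ht : t ∈ W) (s s1 : ℝ) {p : ℂ × ℂ} (hp : G s t p = 0)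
    (hF : F s1 t p = 0) (hJ1 : JJ s s1 t p ≠ 0)
    (hJ : ∀ s2 : ℝ, (s2 = 1 / 4 ∨ s2 = -(1 / 4)) → F s2 t p = 0 → JJ s s2 t p ≠ 0)
    [Decidable (F (1 / 4) t p = 0)] [Decidable (F (-(1 / 4)) t p = 0)] :
    HasOrd (Zc s t) (hh t) p
      ((if F (1 / 4) t p = 0 then 2 else 0) - (if F (-(1 / 4)) t p = 0 then 2 else 0)) := by
  obtain ⟨γ, hγan, hγ0, hγG, hγF, hγU⟩ := cyc_param (cyc_G_C1 ht s) (cyc_F_C1 ht s1) hp hF
    (cyc_G_deriv ht s p) (cyc_F_deriv ht s1 p) (cyc_det hJ1)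
  have hγd : HasDerivAt γ (deriv γ 0) 0 := hγan.differentiableAt.hasDerivAt
  have hcompG : HasDerivAt (G s t ∘ γ) (thD t (gp s p) (deriv γ 0)) 0 := by
    have h1 : HasFDerivAt (G s t) (thD t (gp s p)) (γ 0) := by
      rw [hγ0]
      exact cyc_G_deriv ht s p
    exact h1.comp_hasDerivAt 0 hγd
  have hcompF : ∀ s2 : ℝ, HasDerivAt (F s2 t ∘ γ) (thD t (fp s2 t p) (deriv γ 0)) 0 := by
    intro s2
    have h1 : HasFDerivAt (F s2 t) (thD t (fp s2 t p)) (γ 0) := by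
      rw [hγ0]
      exact cyc_F_deriv ht s2 p
    exact h1.comp_hasDerivAt 0 hγd
  have hG0 : thD t (gp s p) (deriv γ 0) = 0 := by
    have h1 : HasDerivAt (G s t ∘ γ) 0 0 := by
      refine (hasDerivAt_const (0 : ℂ) (0 : ℂ)).congr_of_eventuallyEq ?_
      filter_upwards [hγG] with x hx
      exact hx
    exact hcompG.unique h1
  have hF1 : thD t (fp s1 t p) (deriv γ 0) = 1 := by
    have h1 : HasDerivAt (F s1 t ∘ γ) 1 0 := by
      refine (hasDerivAt_id (0 : ℂ)).congr_of_eventuallyEq ?_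
      filter_upwards [hγF] with x hx
      exact hx
    exact (hcompF s1).unique h1
  have hγ' : deriv γ 0 ≠ 0 := by
    intro h0
    rw [h0, map_zero] at hF1
    exact zero_ne_one hF1
  have hFan : ∀ s2 : ℝ, AnalyticAt ℂ (F s2 t ∘ γ) 0 := by
    intro s2
    rw [analyticAt_iff_eventually_differentiableAt]
    filter_upwards [analyticAt_iff_eventually_differentiableAt.1 hγan] with x hx
    exact DifferentiableAt.comp (g := F s2 t) x (cyc_F_deriv ht s2 _).differentiableAt hx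
  have hord : ∀ s2 : ℝ, (s2 = 1 / 4 ∨ s2 = -(1 / 4)) → ∀ [Decidable (F s2 t p = 0)],
      meromorphicOrderAt (F s2 t ∘ γ) 0 = ((if F s2 t p = 0 then 1 else 0 : ℤ) : WithTop ℤ) := by
    intro s2 hs2 hdec
    have e0 : (F s2 t ∘ γ) 0 = F s2 t p := by simp only [Function.comp, hγ0]
    have hdec2 : Decidable ((F s2 t ∘ γ) 0 = 0) := by rw [e0]; exact hdec
    rw [cyc_order (hFan s2) ?_]
    · simp only [e0]
    · intro h0
      rw [e0] at h0
      rw [(hcompF s2).deriv]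
      intro h1
      exact hγ' (cyc_det (hJ s2 hs2 h0) _ hG0 h1)
  have hcomp : hh t ∘ γ = ((F (1 / 4) t ∘ γ) / (F (-(1 / 4)) t ∘ γ)) ^ 2 := by
    funext x
    simp only [hh, Function.comp, Pi.pow_apply, Pi.div_apply]
  have hm1 := (hFan (1 / 4)).meromorphicAt
  have hm2 := (hFan (-(1 / 4))).meromorphicAt
  refine Or.inr ⟨γ, hγan, hγ0, hγ', hγG, hγU, ?_, ?_⟩
  · rw [hcomp]
    exact (hm1.div hm2).pow 2
  · rw [hcomp, meromorphicOrderAt_pow (hm1.div hm2), meromorphicOrderAt_div hm1 hm2,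
      hord (1 / 4) (Or.inl rfl), hord (-(1 / 4)) (Or.inr rfl)]
    split_ifs <;> rfl

/-! ### translations -/

theorem cyc_translate {Z : Set (ℂ × ℂ)} {f : ℂ × ℂ → ℂ} {p v : ℂ × ℂ} {m : ℤ}
    (hZ : ∀ z, z + v ∈ Z ↔ z ∈ Z) (hf : ∀ z, f (z + v) = f z) (h : HasOrd Z f p m) :
    HasOrd Z f (p + v) m := by
  have htend : Tendsto (fun z : ℂ × ℂ => z - v) (𝓝 (p + v)) (𝓝 p) := by
    have hc : Continuous fun z : ℂ × ℂ => z - v := by fun_prop
    have := hc.tendsto (p + v)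
    simpa using this
  rcases h with ⟨hm, hfp, hd⟩ | ⟨γ, h1, h2, h3, h4, h5, h6, h7⟩
  · refine Or.inl ⟨hm, by rwa [hf], ?_⟩
    filter_upwards [htend.eventually hd] with z hz
    have e : f = f ∘ fun z => z - v := by
      funext w
      have := hf (w - v)
      rw [sub_add_cancel] at this
      exact this
    rw [e]
    have h2 : DifferentiableAt ℂ (fun z : ℂ × ℂ => z - v) z := by fun_prop
    exact DifferentiableAt.comp (g := f) z hz h2
  · refine Or.inr ⟨fun x => γ x + v, h1.add analyticAt_const, by simp only [h2], ?_, ?_, ?_, ?_, ?_⟩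
    · rwa [deriv_add_const]
    · filter_upwards [h4] with x hx
      exact (hZ _).2 hx
    · intro U hU
      filter_upwards [htend.eventually (h5 U hU)] with z hz hzZ
      have : z - v ∈ Z := by
        rw [← hZ, sub_add_cancel]
        exact hzZ
      obtain ⟨x, hx, hx2⟩ := hz this
      exact ⟨x, hx, by rw [hx2, sub_add_cancel]⟩
    · have e : (f ∘ fun x => γ x + v) = f ∘ γ := by
        funext x
        exact hf _
      rwa [e]
    · have e : (f ∘ fun x => γ x + v) = f ∘ γ := by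
        funext x
        exact hf _
      rwa [e]

/-! ### the orders of `hh` -/

/-- the conditions on `t` -/
structure CycGood (t : ℂ × ℂ × ℂ) : Prop where
  hW : t ∈ W
  th0 : th t 0 ≠ 0
  jac : ∀ s s' : ℝ, (s = 1 / 4 ∨ s = -(1 / 4)) → (s' = 1 / 4 ∨ s' = -(1 / 4)) →
    ∀ k, JJ s s' t (vec t (pts s s' k)) ≠ 0
  sep : ∀ s s' : ℝ, (s = 1 / 4 ∨ s = -(1 / 4)) → (s' = 1 / 4 ∨ s' = -(1 / 4)) →
    ∃ c > 0, ∀ y ∈ Icc (0 : Fin 4 → ℝ) 1, G s t (vec t y) = 0 →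
      ∃ k, c * ‖y - pts s s' k‖ ≤ ‖F s' t (vec t y)‖

theorem CycGood.zero_iff {t : ℂ × ℂ × ℂ} (h : CycGood t) {s s' : ℝ}
    (hs : s = 1 / 4 ∨ s = -(1 / 4)) (hs' : s' = 1 / 4 ∨ s' = -(1 / 4)) {y : Fin 4 → ℝ}
    (hy : ∀ i, 0 ≤ y i ∧ y i < 1) (hG : G s t (vec t y) = 0) :
    F s' t (vec t y) = 0 ↔ (y = pts s s' 0 ∨ y = pts s s' 2) := by
  constructor
  · intro hF
    obtain ⟨c, hc, hsep⟩ := h.sep s s' hs hs'
    obtain ⟨k, hk⟩ := hsep y ⟨fun i => (hy i).1, fun i => (hy i).2.le⟩ hG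
    rw [hF, norm_zero] at hk
    have h1 : ‖y - pts s s' k‖ ≤ 0 := by
      by_contra hcon
      push Not at hcon
      have := mul_pos hc hcon
      linarith
    have h2 : y = pts s s' k := by
      have := norm_le_zero_iff.1 h1
      exact sub_eq_zero.1 this
    fin_cases k
    · exact Or.inl h2
    · exfalso
      have := (hy 2).2
      rw [h2] at this
      simp [pts] at this
    · exact Or.inr h2
    · exfalso
      have := (hy 1).2
      rw [h2] at this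
      simp [pts] at this
  · rintro (rfl | rfl)
    · exact (pts_zero s s' hs hs' t 0).2
    · exact (pts_zero s s' hs hs' t 2).2

theorem CycGood.mem_iff {t : ℂ × ℂ × ℂ} (h : CycGood t) (s : ℝ) {s' : ℝ}
    (hs' : s' = 1 / 4 ∨ s' = -(1 / 4)) {y : Fin 4 → ℝ} (hy : ∀ i, 0 ≤ y i ∧ y i < 1) :
    vec t y - AA s' t ∈ lat (bt t) ↔ y = pts s s' 0 := by
  have e : AA s' t = vec t (pts s s' 0) := rfl
  rw [e]
  refine cyc_class h.hW hy ?_
  intro i
  rcases hs' with rfl | rfl <;> fin_cases i <;> simp [pts] <;> norm_num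

theorem CycGood.oo_eq {t : ℂ × ℂ × ℂ} (h : CycGood t) {s : ℝ}
    (hs : s = 1 / 4 ∨ s = -(1 / 4)) {y : Fin 4 → ℝ}
    (hy : ∀ i, 0 ≤ y i ∧ y i < 1) (hG : G s t (vec t y) = 0)
    [Decidable (F (1 / 4) t (vec t y) = 0)] [Decidable (F (-(1 / 4)) t (vec t y) = 0)] :
    oo t (vec t y) = (if F (1 / 4) t (vec t y) = 0 then 2 else 0) -
      (if F (-(1 / 4)) t (vec t y) = 0 then 2 else 0) := by
  have h1 : (1 / 4 : ℝ) = 1 / 4 ∨ (1 / 4 : ℝ) = -(1 / 4) := Or.inl rfl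
  have h2 : (-(1 / 4) : ℝ) = 1 / 4 ∨ (-(1 / 4) : ℝ) = -(1 / 4) := Or.inr rfl
  have a1 := h.zero_iff hs h1 hy hG
  have a2 := h.zero_iff hs h2 hy hG
  have b1 := h.mem_iff s h1 hy
  have b2 := h.mem_iff s h2 hy
  have c1 : pts s (1 / 4) 2 = pts s (-(1 / 4)) 2 := by simp [pts]
  have hne : ∀ s' : ℝ, pts s s' 0 ≠ pts s (-(1 / 4)) 2 := by
    intro s' h0
    have := congrFun h0 2
    simp [pts] at this
  have hne2 : pts s (1 / 4) 0 ≠ pts s (-(1 / 4)) 0 := by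
    intro h0
    have := congrFun h0 0
    simp [pts] at this
    norm_num at this
  rw [c1] at a1
  unfold oo
  by_cases e1 : y = pts s (1 / 4) 0
  · have e2 : y ≠ pts s (-(1 / 4)) 0 := by rw [e1]; exact hne2
    have e3 : y ≠ pts s (-(1 / 4)) 2 := by rw [e1]; exact hne _
    rw [if_pos (b1.2 e1), if_neg (fun hh => e2 (b2.1 hh)), if_pos (a1.2 (Or.inl e1)),
      if_neg (fun hh => (a2.1 hh).elim e2 e3)]
  · by_cases e2 : y = pts s (-(1 / 4)) 0
    · have e3 : y ≠ pts s (-(1 / 4)) 2 := by rw [e2]; exact hne _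
      rw [if_neg (fun hh => e1 (b1.1 hh)), if_pos (b2.2 e2),
        if_neg (fun hh => (a1.1 hh).elim e1 e3), if_pos (a2.2 (Or.inl e2))]
    · by_cases e3 : y = pts s (-(1 / 4)) 2
      · rw [if_neg (fun hh => e1 (b1.1 hh)), if_neg (fun hh => e2 (b2.1 hh)),
          if_pos (a1.2 (Or.inr e3)), if_pos (a2.2 (Or.inr e3))]
        rfl
      · rw [if_neg (fun hh => e1 (b1.1 hh)), if_neg (fun hh => e2 (b2.1 hh)),
          if_neg (fun hh => (a1.1 hh).elim e1 e3), if_neg (fun hh => (a2.1 hh).elim e2 e3)]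

theorem cyc_Z_add (t : ℂ × ℂ × ℂ) (s : ℝ) (z v : ℂ × ℂ) (hv : v ∈ lat (bt t)) :
    z + v ∈ Zc s t ↔ z ∈ Zc s t := by
  have h := th_add_lat t (gp s z) v hv
  have e : gp s (z + v) = gp s z + v := by
    rw [cyc_gp, cyc_gp]
    abel
  change G s t (z + v) = 0 ↔ G s t z = 0
  unfold G
  rw [e]
  exact h

theorem cyc_oo_add (t : ℂ × ℂ × ℂ) (z v : ℂ × ℂ) (hv : v ∈ lat (bt t)) :
    oo t (z + v) = oo t z := by
  have h1 : ∀ a, z + v - a ∈ lat (bt t) ↔ z - a ∈ lat (bt t) := by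
    intro a
    have e : z + v - a = z - a + v := by abel
    rw [e]
    exact AddSubgroup.add_mem_cancel_right _ hv
  have e1 := h1 (AA (1 / 4) t)
  have e2 := h1 (AA (-(1 / 4)) t)
  unfold oo
  by_cases c1 : z - AA (1 / 4) t ∈ lat (bt t) <;> by_cases c2 : z - AA (-(1 / 4)) t ∈ lat (bt t)
  · rw [if_pos c1, if_pos c2, if_pos (e1.2 c1), if_pos (e2.2 c2)]
  · rw [if_pos c1, if_neg c2, if_pos (e1.2 c1), if_neg (fun hh => c2 (e2.1 hh))]
  · rw [if_neg c1, if_pos c2, if_neg (fun hh => c1 (e1.1 hh)), if_pos (e2.2 c2)]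
  · rw [if_neg c1, if_neg c2, if_neg (fun hh => c1 (e1.1 hh)), if_neg (fun hh => c2 (e2.1 hh))]

theorem CycGood.hasOrd {t : ℂ × ℂ × ℂ} (h : CycGood t) {s : ℝ}
    (hs : s = 1 / 4 ∨ s = -(1 / 4)) (z : ℂ × ℂ) (hz : z ∈ Zc s t) :
    HasOrd (Zc s t) (hh t) z (oo t z) := by
  classical
  obtain ⟨y, hy, v, hv, rfl⟩ := cyc_reduce h.hW z
  have hG : G s t (vec t y) = 0 := (cyc_Z_add t s _ v hv).1 hz
  refine cyc_translate (fun z => cyc_Z_add t s z v hv) (fun z => hh_add_lat t z v hv) ?_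
  rw [cyc_oo_add t _ v hv, h.oo_eq hs hy hG]
  have h1 : (1 / 4 : ℝ) = 1 / 4 ∨ (1 / 4 : ℝ) = -(1 / 4) := Or.inl rfl
  have h2 : (-(1 / 4) : ℝ) = 1 / 4 ∨ (-(1 / 4) : ℝ) = -(1 / 4) := Or.inr rfl
  have hJJ : ∀ s2 : ℝ, (s2 = 1 / 4 ∨ s2 = -(1 / 4)) → F s2 t (vec t y) = 0 →
      JJ s s2 t (vec t y) ≠ 0 := by
    intro s2 hs2 hF
    rcases (h.zero_iff hs hs2 hy hG).1 hF with rfl | rfl
    · exact h.jac s s2 hs hs2 0
    · exact h.jac s s2 hs hs2 2
  by_cases e1 : F (1 / 4) t (vec t y) = 0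
  · exact cyc_node h.hW s (1 / 4) hG e1 (hJJ _ h1 e1) hJJ
  · by_cases e2 : F (-(1 / 4)) t (vec t y) = 0
    · exact cyc_node h.hW s (-(1 / 4)) hG e2 (hJJ _ h2 e2) hJJ
    · rw [if_neg e1, if_neg e2]
      refine Or.inl ⟨by norm_num, ?_, ?_⟩
      · exact pow_ne_zero 2 (div_ne_zero e1 e2)
      · have hc : ∀ᶠ z in 𝓝 (vec t y), F (-(1 / 4)) t z ≠ 0 :=
          (cyc_F_C1 h.hW (-(1 / 4))).continuous.continuousAt.eventually_ne e2
        filter_upwards [hc] with z hz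
        have d1 := (cyc_F_deriv h.hW (1 / 4) z).differentiableAt
        have d2 := (cyc_F_deriv h.hW (-(1 / 4)) z).differentiableAt
        have d3 : DifferentiableAt ℂ
            (fun z => (F (1 / 4) t z * (F (-(1 / 4)) t z)⁻¹) ^ 2) z := (d1.mul (d2.inv hz)).pow 2
        have e : hh t = fun z => (F (1 / 4) t z * (F (-(1 / 4)) t z)⁻¹) ^ 2 := by
          funext w
          rw [hh, div_eq_mul_inv]
        rw [e]
        exact d3

theorem cyc_good : ∀ᶠ t in 𝓝 t0, CycGood t := by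
  have h0 : ∀ᶠ t in 𝓝 t0, th t 0 ≠ 0 := by
    have hc : ContinuousAt (fun t => th t (0 : ℂ × ℂ)) t0 := by
      have h1 : ContinuousAt (fun p : (ℂ × ℂ × ℂ) × (ℂ × ℂ) => th p.1 p.2) (t0, 0) :=
        continuousOn_th.continuousAt (prod_mem_nhds cyc_W_nhds univ_mem)
      have h2 : ContinuousAt (fun t : ℂ × ℂ × ℂ => (t, (0 : ℂ × ℂ))) t0 := by fun_prop
      exact ContinuousAt.comp (f := fun t : ℂ × ℂ × ℂ => (t, (0 : ℂ × ℂ)))
        (g := fun p : (ℂ × ℂ × ℂ) × (ℂ × ℂ) => th p.1 p.2) h1 h2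
    refine hc.eventually_ne ?_
    rw [th_t0]
    have h3 : jacobiTheta₂ 0 I ≠ 0 := by
      intro h4
      obtain ⟨m, n, h5⟩ := (jt_zero_iff 0).1 h4
      have h6 := congrArg Complex.re h5
      simp at h6
      have h7 : (2 : ℝ) * m = -1 := by linarith
      have h8 : (2 : ℤ) * m = -1 := by exact_mod_cast h7
      omega
    exact mul_ne_zero h3 h3
  have q1 : (1 / 4 : ℝ) = 1 / 4 ∨ (1 / 4 : ℝ) = -(1 / 4) := Or.inl rfl
  have q2 : (-(1 / 4) : ℝ) = 1 / 4 ∨ (-(1 / 4) : ℝ) = -(1 / 4) := Or.inr rfl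
  have hj : ∀ s s' : ℝ, (s = 1 / 4 ∨ s = -(1 / 4)) → (s' = 1 / 4 ∨ s' = -(1 / 4)) →
      ∀ᶠ t in 𝓝 t0, ∀ k, JJ s s' t (vec t (pts s s' k)) ≠ 0 := jac
  have hse : ∀ s s' : ℝ, (s = 1 / 4 ∨ s = -(1 / 4)) → (s' = 1 / 4 ∨ s' = -(1 / 4)) →
      ∀ᶠ t in 𝓝 t0, ∃ c > 0, ∀ y ∈ Icc (0 : Fin 4 → ℝ) 1, G s t (vec t y) = 0 →
      ∃ k, c * ‖y - pts s s' k‖ ≤ ‖F s' t (vec t y)‖ := by
    intro s s' hs hs'
    obtain ⟨c, hc, h⟩ := sep s s' hs hs'
    filter_upwards [h] with t ht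
    exact ⟨c, hc, ht⟩
  filter_upwards [cyc_W_nhds, h0, hj _ _ q1 q1, hj _ _ q1 q2, hj _ _ q2 q1, hj _ _ q2 q2,
    hse _ _ q1 q1, hse _ _ q1 q2, hse _ _ q2 q1, hse _ _ q2 q2] with t a1 a2 a3 a4 a5 a6 a7 a8 a9 a10
  refine ⟨a1, a2, ?_, ?_⟩
  · rintro s s' (rfl | rfl) (rfl | rfl)
    · exact a3
    · exact a4
    · exact a5
    · exact a6
  · rintro s s' (rfl | rfl) (rfl | rfl)
    · exact a7
    · exact a8
    · exact a9
    · exact a10

theorem valid_TT : ∀ᶠ t in 𝓝 t0, ∀ (n : ℤ) (s : ℝ), (s = 1 / 4 ∨ s = -(1 / 4)) →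
    (TT n s t).Valid (lat (bt t)) := by
  filter_upwards [cyc_good] with t h n s hs
  have hmem : ∀ i, bt t i ∈ lat (bt t) := fun i => AddSubgroup.subset_closure (mem_range_self i)
  refine ⟨cyc_indep h.hW, hmem, cyc_curve h.hW h.th0 s, fun i z => cyc_Z_add t s z _ (hmem i),
    fun i z => hh_add_lat t z _ (hmem i), fun z hz => h.hasOrd hs z hz, ?_⟩
  intro z hz
  change oo t z = 0
  have key : ∀ s' : ℝ, (s' = 1 / 4 ∨ s' = -(1 / 4)) → z - AA s' t ∉ lat (bt t) := by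
    intro s' hs' hm
    apply hz
    have h1 : AA s' t ∈ Zc s t := (pts_zero s s' hs hs' t 0).1
    have h2 := (cyc_Z_add t s (AA s' t) _ hm).2 h1
    rw [add_sub_cancel] at h2
    exact h2
  unfold oo
  rw [if_neg (key _ (Or.inl rfl)), if_neg (key _ (Or.inr rfl)), sub_self]

end Pool.Agent.Helper14.AS
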