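import Mathlib

/-!
# `K₁` of an abelian surface and the real regulator: definitions

An abelian surface is `A = ℂ² / Λ`, where `Λ = lat b` is the group spanned by four vectors `b i` of
`ℂ²` that are linearly independent over `ℝ`, and `Λ` has a Riemann form.

`H³_M(A, ℚ(2)) = CH²(A, 1) ⊗ ℚ` is the group of formal sums `∑ n_k (Y_k, f_k)` of compact algebraic
curves `Y_k` with a map to `A` and rational functions `f_k` on `Y_k` such that the sum of the images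
in `A` of the divisors `n_k div f_k` is zero, modulo tame symbols, tensored with `ℚ`.  Here we use
curves of the form `Y_k = Z_k / Λ_k → A` where `Λ_k` is a sublattice of `Λ` and `Z_k ⊂ ℂ²` is a
`Λ_k`-periodic analytic curve.
-/

noncomputable section

namespace Pool.Agent.Helper14.AS

open Complex MeasureTheory Set Filter Topology

/-- The linear form `l₁ z₁ + l₂ z₂`. -/
def lin (l z : ℂ × ℂ) : ℂ := l.1 * z.1 + l.2 * z.2

/-- The half open parallelepiped `{∑ x_i b_i : 0 ≤ x_i < 1}`. -/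
def cell (b : Fin 4 → ℂ × ℂ) : Set (ℂ × ℂ) :=
  {z | ∃ x : Fin 4 → ℝ, (∀ i, x i ∈ Ico (0 : ℝ) 1) ∧ z = ∑ i, x i • b i}

/-- The group `∑ ℤ b_i`. -/
def lat (b : Fin 4 → ℂ × ℂ) : AddSubgroup (ℂ × ℂ) := AddSubgroup.closure (range b)

/-- `Z` is a closed analytic curve in `ℂ²` (or empty): near every point it is the zero set of a
holomorphic function that does not vanish identically. -/
def IsCurve (Z : Set (ℂ × ℂ)) : Prop :=
  ∀ p : ℂ × ℂ, ∃ g : ℂ × ℂ → ℂ, (∀ᶠ z in 𝓝 p, DifferentiableAt ℂ g z) ∧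
    (¬ ∀ᶠ z in 𝓝 p, g z = 0) ∧ ∀ᶠ z in 𝓝 p, (z ∈ Z ↔ g z = 0)

/-- The multiplicity at the point `p` of the curve `Z` of the divisor of the function `f` on `Z` is
`m`: either `m = 0` and `f` is holomorphic and nonzero near `p` (on `ℂ²`), or `Z` is smooth at `p`
and, in terms of a local parameter `s` of `Z` at `p`, the order of `f` at `s = 0` is `m`. -/
def HasOrd (Z : Set (ℂ × ℂ)) (f : ℂ × ℂ → ℂ) (p : ℂ × ℂ) (m : ℤ) : Prop :=
  (m = 0 ∧ f p ≠ 0 ∧ ∀ᶠ z in 𝓝 p, DifferentiableAt ℂ f z) ∨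
  ∃ γ : ℂ → ℂ × ℂ, AnalyticAt ℂ γ 0 ∧ γ 0 = p ∧ deriv γ 0 ≠ 0 ∧
    (∀ᶠ s in 𝓝 (0 : ℂ), γ s ∈ Z) ∧
    (∀ U ∈ 𝓝 (0 : ℂ), ∀ᶠ z in 𝓝 p, z ∈ Z → ∃ s ∈ U, γ s = z) ∧
    MeromorphicAt (f ∘ γ) 0 ∧ meromorphicOrderAt (f ∘ γ) 0 = (m : WithTop ℤ)

/-- A term `n (Z, f)`: an integer `n`, a basis `b` of a lattice, a curve `Z` and a function `f` on
it; `o z` is the multiplicity of `z` in the divisor of `f`. -/
structure Term where
  n : ℤ
  b : Fin 4 → ℂ × ℂ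
  Z : Set (ℂ × ℂ)
  f : ℂ × ℂ → ℂ
  o : ℂ × ℂ → ℤ

/-- The conditions on a term: `b` spans a lattice contained in `Λ`, `Z` is an analytic curve, `Z`
and `f` are periodic with respect to this lattice, and `o` is the divisor of `f`. -/
structure Term.Valid (Λ : AddSubgroup (ℂ × ℂ)) (T : Term) : Prop where
  indep : LinearIndependent ℝ T.b
  mem : ∀ i, T.b i ∈ Λ
  curve : IsCurve T.Z
  Z_periodic : ∀ i z, z + T.b i ∈ T.Z ↔ z ∈ T.Z
  f_periodic : ∀ i z, T.f (z + T.b i) = T.f z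
  ord : ∀ z ∈ T.Z, HasOrd T.Z T.f z (T.o z)
  ord_zero : ∀ z ∉ T.Z, T.o z = 0

/-- Formal finite sums `∑ n_k (Z_k, f_k)`. -/
abbrev Chain := List Term

/-- The multiplicity of the point `p` of `ℂ² / Λ` in the image of the divisor of `f`. -/
def Term.mult (Λ : AddSubgroup (ℂ × ℂ)) (T : Term) (p : ℂ × ℂ) : ℤ :=
  ∑ᶠ z ∈ {z | z ∈ cell T.b ∧ z - p ∈ Λ}, T.o z

/-- `ξ = ∑ n_k (Z_k, f_k)` defines an element of `H³_M(ℂ² / Λ, ℚ(2))`: the sum of the images in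
`ℂ² / Λ` of the divisors `n_k div f_k` is zero. -/
structure IsCycle (Λ : AddSubgroup (ℂ × ℂ)) (ξ : Chain) : Prop where
  valid : ∀ T ∈ ξ, T.Valid Λ
  bdry : ∀ p : ℂ × ℂ, (ξ.map fun T => T.n * T.mult Λ p).sum = 0

/-- The integral of `log |f| (i/2) dl ∧ dl̄` over the compact curve `Z / lat b`, for the linear form
`l`: the integral over `w ∈ ℂ` of the sum of `log |f z|` over the `z` in `Z` and in the fundamental
domain `cell b` with `l z = w`. -/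
def Term.reg (l : ℂ × ℂ) (T : Term) : ℝ :=
  ∫ w : ℂ, ∑ᶠ z ∈ {z | z ∈ T.Z ∧ z ∈ cell T.b ∧ lin l z = w}, Real.log ‖T.f z‖

/-- The value of the real regulator of `ξ` at the form `(i/2) dl ∧ dl̄`. -/
def Chain.reg (l : ℂ × ℂ) (ξ : Chain) : ℝ := (ξ.map fun T => (T.n : ℝ) * T.reg l).sum

/-- Four linear forms `z₁`, `z₂`, `z₁ + z₂`, `z₁ + i z₂`; the corresponding forms
`(i/2) dl ∧ dl̄` are a basis of the translation invariant real `(1,1)`-forms. -/
def frm : Fin 4 → ℂ × ℂ := ![(1, 0), (0, 1), (1, 1), (1, I)]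

/-- `E` is a Riemann form for the lattice spanned by `b`. -/
structure IsRiemannForm (b : Fin 4 → ℂ × ℂ) (E : (ℂ × ℂ) →ₗ[ℝ] (ℂ × ℂ) →ₗ[ℝ] ℝ) : Prop where
  alt : ∀ z, E z z = 0
  int : ∀ i j, ∃ k : ℤ, E (b i) (b j) = k
  mul_I : ∀ z w, E (I • z) (I • w) = E z w
  pos : ∀ z, z ≠ 0 → 0 < E z (I • z)

end Pool.Agent.Helper14.AS
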