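import Pool.Agent.Helper14.AS.Sep

/-!
# Pointwise convergence of the sums over the fibres
-/

noncomputable section

namespace Pool.Agent.Helper14.AS

open Complex MeasureTheory Set Filter Topology Metric

namespace HurAux

open Classical in
/-- Sums over a finite set moving continuously. -/
theorem tendsto_finsum {X Y : Type*} [TopologicalSpace X] [TopologicalSpace Y] [T2Space Y]
    {A : X → Set Y} {φ : X → Y → ℝ} {x₀ : X} (B : Finset Y) (hB : A x₀ = B)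
    (ha : ∀ y ∈ B, ∃ U ∈ 𝓝 y, ∀ V ∈ 𝓝 y, ∀ᶠ x in 𝓝 x₀, ∃ y' ∈ V, A x ∩ U = {y'})
    (hb : ∀ V : Set Y, IsOpen V → (∀ y ∈ B, y ∈ V) → ∀ᶠ x in 𝓝 x₀, A x ⊆ V)
    (hc : ∀ y ∈ B, ContinuousAt (fun q : X × Y => φ q.1 q.2) (x₀, y)) :
    Tendsto (fun x => ∑ᶠ y ∈ A x, φ x y) (𝓝 x₀) (𝓝 (∑ᶠ y ∈ A x₀, φ x₀ y)) := by
  obtain ⟨D, hD1, hD2⟩ := (Finset.finite_toSet B).t2_separation
  choose! U hU hUV using ha
  let g : X → Y → Y := fun x y => if h : ∃ y', A x ∩ U y = {y'} then h.choose else y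
  have hg : ∀ y ∈ B, ∀ᶠ x in 𝓝 x₀, A x ∩ U y = {g x y} := by
    intro y hy
    filter_upwards [hUV y hy univ univ_mem] with x hx
    obtain ⟨y', -, hy'⟩ := hx
    have h : ∃ y', A x ∩ U y = {y'} := ⟨y', hy'⟩
    simp only [g, dif_pos h]
    exact h.choose_spec
  have hgt : ∀ y ∈ B, Tendsto (fun x => g x y) (𝓝 x₀) (𝓝 y) := by
    intro y hy V hV
    have h0 : ∀ᶠ x in 𝓝 x₀, g x y ∈ V := by
      filter_upwards [hUV y hy V hV, hg y hy] with x hx hx'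
      obtain ⟨y', h1, h2⟩ := hx
      rw [h2] at hx'
      have : y' = g x y := singleton_injective hx'
      rw [← this]; exact h1
    exact h0
  have hmem : ∀ᶠ x in 𝓝 x₀, ∀ y ∈ B, A x ∩ U y = {g x y} ∧ g x y ∈ D y := by
    rw [Filter.eventually_all_finset]
    intro y hy
    exact (hg y hy).and ((hgt y hy) ((hD1 y).2.mem_nhds (hD1 y).1))
  have hsub := hb (⋃ y ∈ B, interior (U y)) (isOpen_biUnion fun y _ => isOpen_interior) (by
    intro y hy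
    exact mem_biUnion hy (mem_interior_iff_mem_nhds.2 (hU y hy)))
  have heq : ∀ᶠ x in 𝓝 x₀, ∑ᶠ y ∈ A x, φ x y = ∑ y ∈ B, φ x (g x y) := by
    filter_upwards [hmem, hsub] with x h1 h2
    have hA : A x = ((B.image (g x) : Finset Y) : Set Y) := by
      ext z
      simp only [Finset.coe_image, mem_image, Finset.mem_coe]
      constructor
      · intro hz
        obtain ⟨y, hy, hzy⟩ := mem_iUnion₂.1 (h2 hz)
        refine ⟨y, hy, ?_⟩
        have : z ∈ A x ∩ U y := ⟨hz, interior_subset hzy⟩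
        rw [(h1 y hy).1] at this
        exact this.symm
      · rintro ⟨y, hy, rfl⟩
        have : g x y ∈ A x ∩ U y := by rw [(h1 y hy).1]; rfl
        exact this.1
    rw [hA, finsum_mem_coe_finset, Finset.sum_image]
    intro y hy y' hy' h
    by_contra hne
    have h3 := hD2 hy hy' hne
    exact disjoint_left.1 h3 (h1 y hy).2 (by rw [show g x y = g x y' from h]; exact (h1 y' hy').2)
  have hlim : ∑ᶠ y ∈ A x₀, φ x₀ y = ∑ y ∈ B, φ x₀ y := by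
    rw [hB, finsum_mem_coe_finset]
  rw [hlim]
  refine Tendsto.congr' (heq.mono fun x hx => hx.symm) ?_
  refine tendsto_finsetSum _ fun y hy => ?_
  exact (hc y hy).tendsto.comp (tendsto_id.prodMk_nhds (hgt y hy))

theorem ae_re_ne (c d : ℂ) (hd : d ≠ 0) (r : ℝ) : ∀ᵐ w : ℂ, ((w - c) / d).re ≠ r := by
  let L : ℂ →ₗ[ℝ] ℝ := Complex.reLm ∘ₗ (LinearMap.mulLeft ℝ d⁻¹)
  have hL : ∀ w, L w = (w / d).re := by
    intro w
    simp only [L, LinearMap.comp_apply, LinearMap.mulLeft_apply, Complex.reLm_coe]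
    rw [div_eq_inv_mul]
  have hne : LinearMap.ker L ≠ ⊤ := by
    intro h
    have : d ∈ LinearMap.ker L := by rw [h]; trivial
    rw [LinearMap.mem_ker, hL, div_self hd] at this
    simp at this
  have h0 := Measure.addHaar_submodule (volume : Measure ℂ) (LinearMap.ker L) hne
  have h1 : {w : ℂ | ¬ ((w - c) / d).re ≠ r} =
      (fun w => w + -(c + d * r)) ⁻¹' (LinearMap.ker L : Set ℂ) := by
    ext w
    simp only [mem_ofPred_eq, not_not, mem_preimage, SetLike.mem_coe, LinearMap.mem_ker, hL]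
    have : (w + -(c + d * r)) / d = (w - c) / d - r := by field_simp; ring
    rw [this]
    simp only [sub_re, ofReal_re, sub_eq_zero]
  rw [ae_iff, h1, measure_preimage_add_right]
  exact h0

theorem ae_im_ne (c d : ℂ) (hd : d ≠ 0) (r : ℝ) : ∀ᵐ w : ℂ, ((w - c) / d).im ≠ r := by
  have h := ae_re_ne c (d * I) (mul_ne_zero hd I_ne_zero) r
  filter_upwards [h] with w hw
  intro h1
  apply hw
  rw [← h1, ← div_div, div_I]
  simp

/-! ### The fibre in real coordinates -/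

/-- The fibre over `w` in real coordinates. -/
def AY (s : ℝ) (w : ℂ) (p : (ℂ × ℂ × ℂ) × (ℂ × ℂ)) : Set (Fin 4 → ℝ) :=
  {y | (∀ i, y i ∈ Ico (0 : ℝ) 1) ∧ G s p.1 (vec p.1 y) = 0 ∧ lin p.2 (vec p.1 y) = w}

theorem SS_eq (s : ℝ) {p : (ℂ × ℂ × ℂ) × (ℂ × ℂ)} (hp : p.1 ∈ W) (w : ℂ) :
    SS s p w = ∑ᶠ y ∈ AY s w p, Real.log ‖hh p.1 (vec p.1 y)‖ := by
  have h : {z | z ∈ Zc s p.1 ∧ z ∈ cell (bt p.1) ∧ lin p.2 z = w} = vec p.1 '' AY s w p := by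
    ext z
    constructor
    · rintro ⟨z1, z2, z3⟩
      obtain ⟨y, hy, rfl⟩ := (mem_cell_iff _ _).1 z2
      exact ⟨y, ⟨hy, z1, z3⟩, rfl⟩
    · rintro ⟨y, ⟨hy, z1, z3⟩, rfl⟩
      exact ⟨z1, (mem_cell_iff _ _).2 ⟨y, hy, rfl⟩, z3⟩
  rw [SS, h, finsum_mem_image ((vec_injective hp).injOn)]

/-- The map whose zeros are the points of the fibre. -/
def Ps (s : ℝ) (w : ℂ) (p : (ℂ × ℂ × ℂ) × (ℂ × ℂ)) (y : Fin 4 → ℝ) : ℂ × ℂ :=
  (G s p.1 (vec p.1 y), lin p.2 (vec p.1 y) - w)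

def DP (s : ℝ) (p : (ℂ × ℂ × ℂ) × (ℂ × ℂ)) (y : Fin 4 → ℝ) : (Fin 4 → ℝ) →L[ℝ] (ℂ × ℂ) :=
  (SepAux.D1 p.1 (gp s (vec p.1 y))).prod (p.2.1 • SepAux.v1 p.1 + p.2.2 • SepAux.v2 p.1)

theorem hasFDerivAt_Ps (s : ℝ) (w : ℂ) {p : (ℂ × ℂ × ℂ) × (ℂ × ℂ)} (hp : p.1 ∈ W)
    (y : Fin 4 → ℝ) : HasFDerivAt (Ps s w p) (DP s p y) y := by
  have h1 := SepAux.hasFDerivAt_D1 hp (SepAux.gp_add s p.1) y
  have h2 : HasFDerivAt (fun y => lin p.2 (vec p.1 y) - w)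
      (p.2.1 • SepAux.v1 p.1 + p.2.2 • SepAux.v2 p.1) y := by
    have h3 : (fun y => lin p.2 (vec p.1 y) - w) =
        fun y => (p.2.1 • SepAux.v1 p.1 + p.2.2 • SepAux.v2 p.1) y - w := by
      funext y
      rw [SepAux.vec_eq', lin]
      simp
    rw [h3]
    exact (ContinuousLinearMap.hasFDerivAt _).sub_const w
  exact h1.prodMk h2

theorem ca_shift {E : Type*} [TopologicalSpace E] {f : (ℂ × ℂ × ℂ) × (Fin 4 → ℝ) → E}
    {l : ℂ × ℂ} {y : Fin 4 → ℝ} (hf : ContinuousAt f (t0, y)) :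
    ContinuousAt (fun q : ((ℂ × ℂ × ℂ) × (ℂ × ℂ)) × (Fin 4 → ℝ) => f (q.1.1, q.2))
      ((t0, l), y) :=
  ContinuousAt.comp (f := fun q : ((ℂ × ℂ × ℂ) × (ℂ × ℂ)) × (Fin 4 → ℝ) => (q.1.1, q.2))
    (x := ((t0, l), y)) hf (by fun_prop)

theorem ca_Ps (s : ℝ) (w : ℂ) (l : ℂ × ℂ) (y : Fin 4 → ℝ) :
    ContinuousAt (fun q : ((ℂ × ℂ × ℂ) × (ℂ × ℂ)) × (Fin 4 → ℝ) => Ps s w q.1 q.2)
      ((t0, l), y) := by
  have h1 := ca_shift (l := l) (SepAux.ca_G s y)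
  have h2 : Continuous fun q : ((ℂ × ℂ × ℂ) × (ℂ × ℂ)) × (Fin 4 → ℝ) =>
      lin q.1.2 (vec q.1.1 q.2) - w := by
    have h3 : Continuous fun q : ((ℂ × ℂ × ℂ) × (ℂ × ℂ)) × (Fin 4 → ℝ) =>
        (q.1.2, vec q.1.1 q.2) :=
      (by fun_prop : Continuous fun q : ((ℂ × ℂ × ℂ) × (ℂ × ℂ)) × (Fin 4 → ℝ) => q.1.2).prodMk
        (continuous_vec.comp (by fun_prop :
          Continuous fun q : ((ℂ × ℂ × ℂ) × (ℂ × ℂ)) × (Fin 4 → ℝ) => (q.1.1, q.2)))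
    exact (continuous_lin.comp h3).sub continuous_const
  exact h1.prodMk h2.continuousAt

theorem ca_DP (s : ℝ) (l : ℂ × ℂ) (y : Fin 4 → ℝ) :
    ContinuousAt (fun q : ((ℂ × ℂ × ℂ) × (ℂ × ℂ)) × (Fin 4 → ℝ) => DP s q.1 q.2)
      ((t0, l), y) := by
  have h1 := ca_shift (l := l) (SepAux.ca_D1 (SepAux.cont_gp s) y)
  have c1 := SepAux.cont_v1
  have c2 := SepAux.cont_v2
  have h2 : Continuous fun q : ((ℂ × ℂ × ℂ) × (ℂ × ℂ)) × (Fin 4 → ℝ) =>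
      q.1.2.1 • SepAux.v1 q.1.1 + q.1.2.2 • SepAux.v2 q.1.1 := by
    fun_prop
  have h3 := h1.prodMk h2.continuousAt
  exact ContinuousAt.comp (g := fun q : ((Fin 4 → ℝ) →L[ℝ] ℂ) × ((Fin 4 → ℝ) →L[ℝ] ℂ) =>
    q.1.prod q.2) (ContinuousLinearMap.prodₗᵢ ℝ).continuous.continuousAt h3

theorem DP_equiv {s : ℝ} {l : ℂ × ℂ} {y : Fin 4 → ℝ}
    (h : th1 t0 (gp s (vec t0 y)) * l.2 - th2 t0 (gp s (vec t0 y)) * l.1 ≠ 0) :
    ∃ L : (Fin 4 → ℝ) ≃L[ℝ] (ℂ × ℂ), DP s (t0, l) y = L := by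
  have hinj : Function.Injective (DP s (t0, l) y) := by
    rw [injective_iff_map_eq_zero]
    intro v hv
    set a := th1 t0 (gp s (vec t0 y))
    set b := th2 t0 (gp s (vec t0 y))
    have e1 : a * SepAux.v1 t0 v + b * SepAux.v2 t0 v = 0 := congrArg Prod.fst hv
    have e2 : l.1 * SepAux.v1 t0 v + l.2 * SepAux.v2 t0 v = 0 := congrArg Prod.snd hv
    have f1 : (a * l.2 - b * l.1) * SepAux.v1 t0 v = 0 := by linear_combination l.2 * e1 - b * e2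
    have f2 : (a * l.2 - b * l.1) * SepAux.v2 t0 v = 0 := by linear_combination a * e2 - l.1 * e1
    exact SepAux.vec_t0_inj ((mul_eq_zero.1 f1).resolve_left h)
      ((mul_eq_zero.1 f2).resolve_left h)
  have hf : Module.finrank ℝ (Fin 4 → ℝ) = Module.finrank ℝ (ℂ × ℂ) := by
    simp [Module.finrank_prod]
  refine ⟨(LinearMap.linearEquivOfInjective (DP s (t0, l) y).toLinearMap hinj
    hf).toContinuousLinearEquiv, ?_⟩
  ext v
  · simp
  · simp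

/-- The points of the closed cube on the curve at `t0`. -/
theorem curve_t0 {s : ℝ} (hs : s = 1 / 4 ∨ s = -(1 / 4)) {y : Fin 4 → ℝ}
    (hy : y ∈ Icc (0 : Fin 4 → ℝ) 1) (hG : G s t0 (vec t0 y) = 0) :
    (y 0 = 1 / 2 - s ∧ y 2 = 1 / 2) ∨ (y 1 = 1 / 2 ∧ y 3 = 1 / 2) := by
  have hy0 : ∀ i, 0 ≤ y i := fun i => hy.1 i
  have hy1 : ∀ i, y i ≤ 1 := fun i => hy.2 i
  have ha : 0 < 1 / 2 - s ∧ 1 / 2 - s < 1 := by
    rcases hs with rfl | rfl <;> norm_num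
  rw [G, SepAux.gp_t0, th_t0, mul_eq_zero] at hG
  rcases hG with hG | hG
  · obtain ⟨m, n, h1, h2⟩ := SepAux.jt_re_im hG
    left
    exact ⟨SepAux.half_int (m := m) ha.1 ha.2 (hy0 0) (hy1 0) (by linarith),
      SepAux.half_int (m := n) (by norm_num) (by norm_num) (hy0 2) (hy1 2) h2⟩
  · obtain ⟨m, n, h1, h2⟩ := SepAux.jt_re_im hG
    right
    exact ⟨SepAux.half_int (m := m) (by norm_num) (by norm_num) (hy0 1) (hy1 1) h1,
      SepAux.half_int (m := n) (by norm_num) (by norm_num) (hy0 3) (hy1 3) h2⟩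

theorem lin_t0 (l : ℂ × ℂ) (y : Fin 4 → ℝ) :
    lin l (vec t0 y) = l.1 * (y 0 + y 2 * I) + l.2 * (y 1 + y 3 * I) := by
  rw [vec_eq]; simp [lin, t0]

/-- The two candidate points. -/
def P1 (s : ℝ) (l : ℂ × ℂ) (w : ℂ) : Fin 4 → ℝ :=
  ![1 / 2 - s, ((w - l.1 * ((1 / 2 - s : ℝ) + 1 / 2 * I)) / l.2).re, 1 / 2,
    ((w - l.1 * ((1 / 2 - s : ℝ) + 1 / 2 * I)) / l.2).im]

def P2 (l : ℂ × ℂ) (w : ℂ) : Fin 4 → ℝ :=
  ![((w - l.2 * (1 / 2 + 1 / 2 * I)) / l.1).re, 1 / 2,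
    ((w - l.2 * (1 / 2 + 1 / 2 * I)) / l.1).im, 1 / 2]

/-- `w` is good. -/
def Good (s : ℝ) (l : ℂ × ℂ) (w : ℂ) : Prop :=
  (∀ i, P1 s l w i ≠ 0 ∧ P1 s l w i ≠ 1) ∧ (∀ i, P2 l w i ≠ 0 ∧ P2 l w i ≠ 1) ∧
    P1 s l w ≠ P2 l w

theorem ae_good {s : ℝ} (hs : s = 1 / 4 ∨ s = -(1 / 4)) {l : ℂ × ℂ} (h1 : l.1 ≠ 0)
    (h2 : l.2 ≠ 0) : ∀ᵐ w, Good s l w := by
  have a0 := ae_re_ne (l.1 * ((1 / 2 - s : ℝ) + 1 / 2 * I)) l.2 h2 0
  have a1 := ae_re_ne (l.1 * ((1 / 2 - s : ℝ) + 1 / 2 * I)) l.2 h2 1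
  have a2 := ae_im_ne (l.1 * ((1 / 2 - s : ℝ) + 1 / 2 * I)) l.2 h2 0
  have a3 := ae_im_ne (l.1 * ((1 / 2 - s : ℝ) + 1 / 2 * I)) l.2 h2 1
  have a4 := ae_re_ne (l.1 * ((1 / 2 - s : ℝ) + 1 / 2 * I)) l.2 h2 (1 / 2)
  have b0 := ae_re_ne (l.2 * (1 / 2 + 1 / 2 * I)) l.1 h1 0
  have b1 := ae_re_ne (l.2 * (1 / 2 + 1 / 2 * I)) l.1 h1 1
  have b2 := ae_im_ne (l.2 * (1 / 2 + 1 / 2 * I)) l.1 h1 0
  have b3 := ae_im_ne (l.2 * (1 / 2 + 1 / 2 * I)) l.1 h1 1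
  have hc : (1 / 2 - s ≠ 0) ∧ (1 / 2 - s ≠ 1) := by
    rcases hs with rfl | rfl <;> norm_num
  filter_upwards [a0, a1, a2, a3, a4, b0, b1, b2, b3] with w a0 a1 a2 a3 a4 b0 b1 b2 b3
  refine ⟨?_, ?_, ?_⟩
  · intro i
    fin_cases i
    · exact hc
    · exact ⟨a0, a1⟩
    · simp [P1]
    · exact ⟨a2, a3⟩
  · intro i
    fin_cases i
    · exact ⟨b0, b1⟩
    · simp [P2]
    · exact ⟨b2, b3⟩
    · simp [P2]
  · intro h
    have := congrFun h 1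
    exact a4 this

theorem eq_P {s : ℝ} (hs : s = 1 / 4 ∨ s = -(1 / 4)) {l : ℂ × ℂ} (h1 : l.1 ≠ 0)
    (h2 : l.2 ≠ 0) {w : ℂ} {y : Fin 4 → ℝ} (hy : y ∈ Icc (0 : Fin 4 → ℝ) 1)
    (h0 : Ps s w (t0, l) y = 0) :
    (y 0 = 1 / 2 - s ∧ y 2 = 1 / 2 ∧ y = P1 s l w) ∨
      (y 1 = 1 / 2 ∧ y 3 = 1 / 2 ∧ y = P2 l w) := by
  have hG : G s t0 (vec t0 y) = 0 := congrArg Prod.fst h0
  have hl : lin l (vec t0 y) - w = 0 := congrArg Prod.snd h0
  rw [lin_t0] at hl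
  rcases curve_t0 hs hy hG with ⟨e0, e2⟩ | ⟨e1, e3⟩
  · left
    refine ⟨e0, e2, ?_⟩
    have key : (w - l.1 * ((1 / 2 - s : ℝ) + 1 / 2 * I)) / l.2 = y 1 + y 3 * I := by
      rw [div_eq_iff h2, ← sub_eq_zero]
      rw [e0, e2] at hl
      push_cast at hl ⊢
      linear_combination -hl
    ext i
    fin_cases i
    · exact e0
    · show y 1 = ((w - l.1 * ((1 / 2 - s : ℝ) + 1 / 2 * I)) / l.2).re
      rw [key]; simp
    · exact e2
    · show y 3 = ((w - l.1 * ((1 / 2 - s : ℝ) + 1 / 2 * I)) / l.2).im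
      rw [key]; simp
  · right
    refine ⟨e1, e3, ?_⟩
    have key : (w - l.2 * (1 / 2 + 1 / 2 * I)) / l.1 = y 0 + y 2 * I := by
      rw [div_eq_iff h1, ← sub_eq_zero]
      rw [e1, e3] at hl
      push_cast at hl ⊢
      linear_combination -hl
    ext i
    fin_cases i
    · show y 0 = ((w - l.2 * (1 / 2 + 1 / 2 * I)) / l.1).re
      rw [key]; simp
    · exact e1
    · show y 2 = ((w - l.2 * (1 / 2 + 1 / 2 * I)) / l.1).im
      rw [key]; simp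
    · exact e3

/-- For good `w` all points of the fibre in the closed cube are in the open cube, and the
determinant does not vanish there. -/
theorem good_point {s : ℝ} (hs : s = 1 / 4 ∨ s = -(1 / 4)) {l : ℂ × ℂ} (h1 : l.1 ≠ 0)
    (h2 : l.2 ≠ 0) {w : ℂ} (hw : Good s l w) {y : Fin 4 → ℝ} (hy : y ∈ Icc (0 : Fin 4 → ℝ) 1)
    (h0 : Ps s w (t0, l) y = 0) : (∀ i, 0 < y i ∧ y i < 1) ∧
      th1 t0 (gp s (vec t0 y)) * l.2 - th2 t0 (gp s (vec t0 y)) * l.1 ≠ 0 := by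
  have hy0 : ∀ i, 0 ≤ y i := fun i => hy.1 i
  have hy1 : ∀ i, y i ≤ 1 := fun i => hy.2 i
  have hcase := eq_P hs h1 h2 hy h0
  constructor
  · intro i
    have hi : y i ≠ 0 ∧ y i ≠ 1 := by
      rcases hcase with ⟨-, -, h⟩ | ⟨-, -, h⟩
      · rw [h]; exact hw.1 i
      · rw [h]; exact hw.2.1 i
    exact ⟨lt_of_le_of_ne (hy0 i) hi.1.symm, lt_of_le_of_ne (hy1 i) hi.2⟩
  · rw [SepAux.gp_t0, th1_t0, th2_t0]
    rcases hcase with ⟨e0, e2, h⟩ | ⟨e1, e3, h⟩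
    · have z1 : jacobiTheta₂ (((y 0 + s : ℝ) : ℂ) + (y 2 : ℝ) * I) I = 0 :=
        SepAux.jt_eq_zero (m := 0) (n := 0) (by rw [e0]; simp) (by rw [e2]; simp)
      have z2 : jacobiTheta₂ (((y 1 : ℝ) : ℂ) + (y 3 : ℝ) * I) I ≠ 0 := by
        intro hz
        obtain ⟨m, n, g1, g2⟩ := SepAux.jt_re_im hz
        have e1 : y 1 = 1 / 2 :=
          SepAux.half_int (m := m) (by norm_num) (by norm_num) (hy0 1) (hy1 1) g1
        have e3 : y 3 = 1 / 2 :=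
          SepAux.half_int (m := n) (by norm_num) (by norm_num) (hy0 3) (hy1 3) g2
        have h0' : lin l (vec t0 y) - w = 0 := congrArg Prod.snd h0
        rw [lin_t0] at h0'
        apply hw.2.2
        rw [← h]
        have key : (w - l.2 * (1 / 2 + 1 / 2 * I)) / l.1 = y 0 + y 2 * I := by
          rw [div_eq_iff h1, ← sub_eq_zero]
          rw [e1, e3] at h0'
          push_cast at h0' ⊢
          linear_combination -h0'
        ext i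
        fin_cases i
        · show y 0 = ((w - l.2 * (1 / 2 + 1 / 2 * I)) / l.1).re
          rw [key]; simp
        · exact e1
        · show y 2 = ((w - l.2 * (1 / 2 + 1 / 2 * I)) / l.1).im
          rw [key]; simp
        · exact e3
      have z1' := jt_deriv_ne _ z1
      simp only [z1, zero_mul, sub_zero]
      exact mul_ne_zero (mul_ne_zero z1' z2) h2
    · have z2 : jacobiTheta₂ (((y 1 : ℝ) : ℂ) + (y 3 : ℝ) * I) I = 0 :=
        SepAux.jt_eq_zero (m := 0) (n := 0) (by rw [e1]; simp) (by rw [e3]; simp)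
      have z1 : jacobiTheta₂ (((y 0 + s : ℝ) : ℂ) + (y 2 : ℝ) * I) I ≠ 0 := by
        intro hz
        obtain ⟨m, n, g1, g2⟩ := SepAux.jt_re_im hz
        have ha : 0 < 1 / 2 - s ∧ 1 / 2 - s < 1 := by
          rcases hs with rfl | rfl <;> norm_num
        have e0 : y 0 = 1 / 2 - s :=
          SepAux.half_int (m := m) ha.1 ha.2 (hy0 0) (hy1 0) (by linarith)
        have e2 : y 2 = 1 / 2 :=
          SepAux.half_int (m := n) (by norm_num) (by norm_num) (hy0 2) (hy1 2) g2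
        have h0' : lin l (vec t0 y) - w = 0 := congrArg Prod.snd h0
        rw [lin_t0] at h0'
        apply hw.2.2
        rw [← h]
        have key : (w - l.1 * ((1 / 2 - s : ℝ) + 1 / 2 * I)) / l.2 = y 1 + y 3 * I := by
          rw [div_eq_iff h2, ← sub_eq_zero]
          rw [e0, e2] at h0'
          push_cast at h0' ⊢
          linear_combination -h0'
        ext i
        fin_cases i
        · exact e0.symm
        · show ((w - l.1 * ((1 / 2 - s : ℝ) + 1 / 2 * I)) / l.2).re = y 1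
          rw [key]; simp
        · exact e2.symm
        · show ((w - l.1 * ((1 / 2 - s : ℝ) + 1 / 2 * I)) / l.2).im = y 3
          rw [key]; simp
      have z2' := jt_deriv_ne _ z2
      simp only [z2, mul_zero, zero_mul, zero_sub, neg_ne_zero]
      exact mul_ne_zero (mul_ne_zero z1 z2') h1

theorem pts_boundary (s s' : ℝ) (k : Fin 4) : ∃ i, pts s s' k i = 0 ∨ pts s s' k i = 1 := by
  fin_cases k
  · exact ⟨2, Or.inl (by simp [pts])⟩
  · exact ⟨2, Or.inr (by simp [pts])⟩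
  · exact ⟨1, Or.inl (by simp [pts])⟩
  · exact ⟨1, Or.inr (by simp [pts])⟩

theorem F_ne {s s' : ℝ} (hs : s = 1 / 4 ∨ s = -(1 / 4)) (hs' : s' = 1 / 4 ∨ s' = -(1 / 4))
    {y : Fin 4 → ℝ} (hy : ∀ i, 0 < y i ∧ y i < 1) (hG : G s t0 (vec t0 y) = 0) :
    F s' t0 (vec t0 y) ≠ 0 := by
  intro hF
  obtain ⟨k, hk⟩ := SepAux.common_zero s s' hs hs'
    ⟨fun i => (hy i).1.le, fun i => (hy i).2.le⟩ hG hF
  obtain ⟨i, hi⟩ := pts_boundary s s' k
  rw [← hk] at hi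
  rcases hi with hi | hi
  · exact (hy i).1.ne' hi
  · exact (hy i).2.ne hi

end HurAux

open HurAux in
theorem hur (s : ℝ) (hs : s = 1 / 4 ∨ s = -(1 / 4)) {l : ℂ × ℂ} (h1 : l.1 ≠ 0) (h2 : l.2 ≠ 0) :
    ∀ᵐ w, Tendsto (fun p => SS s p w) (𝓝 (t0, l)) (𝓝 (SS s (t0, l) w)) := by
  classical
  filter_upwards [ae_good hs h1 h2] with w hw
  have hW : ∀ᶠ p : (ℂ × ℂ × ℂ) × (ℂ × ℂ) in 𝓝 (t0, l), p.1 ∈ W :=
    (continuous_fst.tendsto _) W_nhds
  have ht0 : t0 ∈ W := mem_of_mem_nhds W_nhds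
  have hzero : ∀ y ∈ Icc (0 : Fin 4 → ℝ) 1, Ps s w (t0, l) y = 0 → y ∈ AY s w (t0, l) := by
    intro y hy h0
    obtain ⟨g1, -⟩ := good_point hs h1 h2 hw hy h0
    exact ⟨fun i => ⟨(g1 i).1.le, (g1 i).2⟩, congrArg Prod.fst h0,
      sub_eq_zero.1 (congrArg Prod.snd h0)⟩
  have hAY : ∀ (p : (ℂ × ℂ × ℂ) × (ℂ × ℂ)) (y : Fin 4 → ℝ), y ∈ AY s w p →
      y ∈ Icc (0 : Fin 4 → ℝ) 1 ∧ Ps s w p y = 0 := by
    rintro p y ⟨a1, a2, a3⟩
    refine ⟨⟨fun i => (a1 i).1, fun i => (a1 i).2.le⟩, ?_⟩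
    rw [Ps, a2, a3, sub_self]; rfl
  have hfin : (AY s w (t0, l)).Finite := by
    refine Set.Finite.subset (Set.toFinite {P1 s l w, P2 l w}) ?_
    intro y hy
    obtain ⟨a1, a2⟩ := hAY _ y hy
    rcases eq_P hs h1 h2 a1 a2 with ⟨-, -, h⟩ | ⟨-, -, h⟩
    · left; exact h
    · right; exact h
  have hlim := tendsto_finsum (A := AY s w) (x₀ := (t0, l))
    (φ := fun p y => Real.log ‖hh p.1 (vec p.1 y)‖) hfin.toFinset (by simp) ?_ ?_ ?_
  · rw [← SS_eq s (p := (t0, l)) ht0 w] at hlim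
    refine hlim.congr' ?_
    filter_upwards [hW] with p hp
    exact (SS_eq s hp w).symm
  · intro y hy
    rw [Set.Finite.mem_toFinset] at hy
    obtain ⟨a1, a2⟩ := hAY _ y hy
    obtain ⟨g1, g2⟩ := good_point hs h1 h2 hw a1 a2
    obtain ⟨L, hL⟩ := DP_equiv g2
    obtain ⟨c, hc, r, hr, hinj, hex⟩ := locinv (Ψ := Ps s w) (D := DP s) (x₀ := (t0, l))
      (e₀ := y) (by
        have : ∀ᶠ q : ((ℂ × ℂ × ℂ) × (ℂ × ℂ)) × (Fin 4 → ℝ) in 𝓝 ((t0, l), y), q.1.1 ∈ W := by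
          have hcont : Continuous fun q : ((ℂ × ℂ × ℂ) × (ℂ × ℂ)) × (Fin 4 → ℝ) => q.1.1 := by
            fun_prop
          exact (hcont.tendsto _) W_nhds
        filter_upwards [this] with q hq
        exact hasFDerivAt_Ps s w hq q.2) (ca_DP s l y) (by
        exact ContinuousAt.comp (f := fun p : (ℂ × ℂ × ℂ) × (ℂ × ℂ) => (p, y)) (x := (t0, l))
          (ca_Ps s w l y) (Continuous.prodMk_left _).continuousAt) L hL
    have hO : {y : Fin 4 → ℝ | ∀ i, 0 < y i ∧ y i < 1} ∈ 𝓝 y := by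
      have : IsOpen {y : Fin 4 → ℝ | ∀ i, 0 < y i ∧ y i < 1} := by
        have h3 : {y : Fin 4 → ℝ | ∀ i, 0 < y i ∧ y i < 1} =
            Set.pi univ fun _ => Ioo (0 : ℝ) 1 := by
          ext y; simp [Set.mem_pi, mem_Ioo]
        rw [h3]
        exact isOpen_set_pi finite_univ fun _ _ => isOpen_Ioo
      exact this.mem_nhds g1
    obtain ⟨r', hr', hball⟩ := Metric.mem_nhds_iff.1 (inter_mem hO (ball_mem_nhds y hr))
    refine ⟨ball y r', ball_mem_nhds _ hr', ?_⟩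
    intro V hV
    obtain ⟨ε, hε, hεV⟩ := Metric.mem_nhds_iff.1 (inter_mem hV (ball_mem_nhds y hr'))
    filter_upwards [hinj, hex a2 ε hε] with p q1 q2
    obtain ⟨y', hy', hy'0⟩ := q2
    have b1 := hεV hy'
    have b2 := hball b1.2
    have hmem : y' ∈ AY s w p := by
      refine ⟨fun i => ⟨(b2.1 i).1.le, (b2.1 i).2⟩, congrArg Prod.fst hy'0,
        sub_eq_zero.1 (congrArg Prod.snd hy'0)⟩
    refine ⟨y', b1.1, ?_⟩
    ext z
    simp only [mem_inter_iff, mem_singleton_iff]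
    constructor
    · rintro ⟨z1, z2⟩
      have z0 := (hAY p z z1).2
      have := q1 z (hball z2).2 y' b2.2
      rw [z0, hy'0, sub_self, norm_zero] at this
      have h3 : ‖z - y'‖ ≤ 0 := by
        by_contra hlt
        push Not at hlt
        have := mul_pos hc hlt
        linarith
      exact sub_eq_zero.1 (norm_le_zero_iff.1 h3)
    · rintro rfl
      exact ⟨hmem, b1.2⟩
  · intro V hV hBV
    have hK : IsCompact (Icc (0 : Fin 4 → ℝ) 1 \ V) := isCompact_Icc.diff hV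
    have := hK.eventually_forall_of_forall_eventually (x₀ := (t0, l))
      (P := fun p y => Ps s w p y ≠ 0) (by
        intro y hy
        have h0 : Ps s w (t0, l) y ≠ 0 := by
          intro h0
          have := hzero y hy.1 h0
          exact hy.2 (hBV y ((Set.Finite.mem_toFinset _).2 this))
        exact (ca_Ps s w l y).eventually_ne h0)
    filter_upwards [this] with p hp y hy
    obtain ⟨a1, a2⟩ := hAY p y hy
    by_contra hyV
    exact hp y ⟨a1, hyV⟩ a2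
  · intro y hy
    rw [Set.Finite.mem_toFinset] at hy
    obtain ⟨a1, a2⟩ := hAY _ y hy
    obtain ⟨g1, -⟩ := good_point hs h1 h2 hw a1 a2
    have f1 := F_ne (s' := 1 / 4) hs (Or.inl rfl) g1 hy.2.1
    have f2 := F_ne (s' := -(1 / 4)) hs (Or.inr rfl) g1 hy.2.1
    have c1 := ca_shift (l := l) (SepAux.ca_F (1 / 4) y)
    have c2 := ca_shift (l := l) (SepAux.ca_F (-(1 / 4)) y)
    have c3 := ((c1.div c2 f2).pow 2).norm
    refine c3.log ?_
    exact norm_ne_zero_iff.2 (pow_ne_zero 2 (div_ne_zero f1 f2))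

end Pool.Agent.Helper14.AS
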