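import Mathlib

/-! ### LOGDCT: dominated convergence with moving logarithmic singularities (helper38) -/

noncomputable section

namespace Pool.Agent.Helper14.AS

open Complex MeasureTheory Set Filter Topology Metric

theorem logdct_int0 (r : ℝ) :
    IntegrableOn (fun u : ℂ => |Real.log ‖u‖|) (ball (0 : ℂ) r) volume := by
  have h := (integrableOn_fun_norm_addHaar (E := ℂ) (F := ℝ) volume
    (f := fun y => |Real.log y|) (r := r)).2 ?_
  · exact h
  rw [Complex.finrank_real_complex]
  have hc : Continuous fun y : ℝ => |y * Real.log y| := Real.continuous_mul_log.abs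
  have h1 : IntegrableOn (fun y : ℝ => |y * Real.log y|) (Ioo 0 r) volume :=
    (hc.locallyIntegrable.integrableOn_isCompact isCompact_Icc).mono_set Ioo_subset_Icc_self
  refine h1.congr_fun ?_ measurableSet_Ioo
  intro y hy
  simp only [smul_eq_mul]
  rw [abs_mul, abs_of_pos hy.1]
  norm_num

/-- the cut-off logarithm -/
def logdctH (K r m : ℝ) (u : ℂ) : ℝ :=
  (ball (0 : ℂ) r).indicator (fun u => max (K * |Real.log ‖u‖| - m) 0) u

theorem logdctH_nonneg (K r m : ℝ) (u : ℂ) : 0 ≤ logdctH K r m u := by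
  unfold logdctH
  exact indicator_nonneg (fun _ _ => le_max_right _ _) _

theorem logdctH_int (K r m : ℝ) (hK : 0 ≤ K) (hm : 0 ≤ m) : Integrable (logdctH K r m) volume := by
  unfold logdctH
  rw [integrable_indicator_iff measurableSet_ball]
  have h := (logdct_int0 r).const_mul K
  refine Integrable.mono h ?_ (Filter.Eventually.of_forall fun u => ?_)
  · have : Measurable fun u : ℂ => max (K * |Real.log ‖u‖| - m) 0 := by fun_prop
    exact this.aestronglyMeasurable
  · have h0 : 0 ≤ K * |Real.log ‖u‖| := mul_nonneg hK (abs_nonneg _)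
    rw [Real.norm_of_nonneg (le_max_right _ _), Real.norm_of_nonneg h0]
    exact max_le (by linarith) h0

theorem logdctH_tendsto (K r : ℝ) (hK : 0 ≤ K) :
    Tendsto (fun m : ℕ => ∫ u, logdctH K r m u) atTop (𝓝 0) := by
  have h := tendsto_integral_of_dominated_convergence (μ := (volume : Measure ℂ))
    (F := fun m : ℕ => logdctH K r m) (f := fun _ => (0 : ℝ)) (logdctH K r 0)
    (fun m => (logdctH_int K r m hK (Nat.cast_nonneg m)).aestronglyMeasurable)
    (logdctH_int K r 0 hK le_rfl) ?_ ?_
  · simpa using h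
  · intro m
    refine Filter.Eventually.of_forall fun u => ?_
    rw [Real.norm_of_nonneg (logdctH_nonneg _ _ _ _)]
    unfold logdctH
    refine indicator_le_indicator ?_
    refine max_le_max ?_ le_rfl
    have : (0 : ℝ) ≤ m := Nat.cast_nonneg m
    linarith
  · refine Filter.Eventually.of_forall fun u => ?_
    refine tendsto_const_nhds.congr' ?_
    obtain ⟨N, hN⟩ := exists_nat_ge (K * |Real.log ‖u‖|)
    filter_upwards [eventually_ge_atTop N] with m hm
    unfold logdctH
    have : (N : ℝ) ≤ m := by exact_mod_cast hm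
    by_cases hu : u ∈ ball (0 : ℂ) r
    · rw [indicator_of_mem hu, max_eq_right (by linarith)]
    · rw [indicator_of_notMem hu]

/-- truncation -/
def logdctC (M s : ℝ) : ℝ := max (-M) (min s M)

theorem logdctC_cont (M : ℝ) : Continuous (logdctC M) := by
  unfold logdctC
  fun_prop

theorem logdctC_abs (M s : ℝ) (hM : 0 ≤ M) : |logdctC M s| ≤ M := by
  unfold logdctC
  rw [abs_le]
  exact ⟨le_max_left _ _, max_le (by linarith) (min_le_right _ _)⟩

theorem logdctC_zero (M : ℝ) (hM : 0 ≤ M) : logdctC M 0 = 0 := by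
  unfold logdctC
  rw [min_eq_left hM, max_eq_right (by linarith)]

theorem logdctC_sub (M s : ℝ) (hM : 0 ≤ M) : |s - logdctC M s| ≤ max (|s| - M) 0 := by
  unfold logdctC
  rcases le_total s M with h | h
  · rw [min_eq_left h]
    rcases le_total (-M) s with h1 | h1
    · rw [max_eq_right h1]
      simp
    · rw [max_eq_left h1]
      refine le_trans ?_ (le_max_left _ _)
      rw [abs_of_nonpos (by linarith : s - -M ≤ 0), abs_of_nonpos (by linarith : s ≤ 0)]
      linarith
  · rw [min_eq_right h, max_eq_right (by linarith)]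
    refine le_trans ?_ (le_max_left _ _)
    rw [abs_of_nonneg (by linarith : 0 ≤ s - M), abs_of_nonneg (by linarith : 0 ≤ s)]

/-- the pointwise bound for the truncation error -/
theorem logdct_point {ι : Type*} [Fintype ι] {K R A m s : ℝ} (hK : 0 ≤ K) (hm : 0 ≤ m)
    {a : ι → ℂ} (hA : ∀ k, ‖a k‖ ≤ A) {w : ℂ}
    (hs : |s| ≤ (closedBall (0 : ℂ) R).indicator
      (fun w => K * (1 + ∑ k, |Real.log ‖w - a k‖|)) w) :
    |s - logdctC (K + (Fintype.card ι + 1) * m) s| ≤
      ∑ k, logdctH K (R + A + 1) m (w - a k) := by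
  have hM : 0 ≤ K + (Fintype.card ι + 1) * m := by positivity
  refine (logdctC_sub _ s hM).trans ?_
  have hsum : 0 ≤ ∑ k, logdctH K (R + A + 1) m (w - a k) :=
    Finset.sum_nonneg fun k _ => logdctH_nonneg _ _ _ _
  refine max_le ?_ hsum
  by_cases hw : w ∈ closedBall (0 : ℂ) R
  · rw [indicator_of_mem hw] at hs
    have h1 : ∀ k, K * |Real.log ‖w - a k‖| - m ≤ logdctH K (R + A + 1) m (w - a k) := by
      intro k
      unfold logdctH
      have : w - a k ∈ ball (0 : ℂ) (R + A + 1) := by
        rw [mem_ball_zero_iff]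
        rw [mem_closedBall_zero_iff] at hw
        calc ‖w - a k‖ ≤ ‖w‖ + ‖a k‖ := norm_sub_le _ _
          _ < R + A + 1 := by linarith [hA k]
      rw [indicator_of_mem this]
      exact le_max_left _ _
    have h2 := Finset.sum_le_sum fun k (_ : k ∈ Finset.univ) => h1 k
    rw [Finset.sum_sub_distrib, ← Finset.mul_sum, Finset.sum_const, nsmul_eq_mul,
      Finset.card_univ] at h2
    nlinarith
  · rw [indicator_of_notMem hw] at hs
    linarith

/-- integrability and the truncation error -/
theorem logdct_err {ι : Type*} [Fintype ι] {K R A : ℝ} (hK : 0 ≤ K)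
    {a : ι → ℂ} (hA : ∀ k, ‖a k‖ ≤ A) {S : ℂ → ℝ} (hS : AEStronglyMeasurable S volume)
    (hs : ∀ᵐ w, |S w| ≤ (closedBall (0 : ℂ) R).indicator
      (fun w => K * (1 + ∑ k, |Real.log ‖w - a k‖|)) w) :
    Integrable S volume ∧ ∀ m : ℝ, 0 ≤ m →
      |(∫ w, S w) - ∫ w, logdctC (K + (Fintype.card ι + 1) * m) (S w)| ≤
        Fintype.card ι * ∫ u, logdctH K (R + A + 1) m u := by
  have hind : ∀ M : ℝ, Integrable ((closedBall (0 : ℂ) R).indicator fun _ => M) volume := by
    intro M
    rw [integrable_indicator_iff measurableSet_closedBall]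
    exact integrableOn_const (measure_closedBall_lt_top.ne)
  have hsumint : ∀ m : ℝ, 0 ≤ m →
      Integrable (fun w => ∑ k, logdctH K (R + A + 1) m (w - a k)) volume := by
    intro m hm
    refine integrable_finsetSum _ fun k _ => ?_
    exact (logdctH_int K _ m hK hm).comp_sub_right (a k)
  have hpt : ∀ m : ℝ, 0 ≤ m → ∀ᵐ w, |S w - logdctC (K + (Fintype.card ι + 1) * m) (S w)| ≤
      ∑ k, logdctH K (R + A + 1) m (w - a k) := by
    intro m hm
    filter_upwards [hs] with w hw
    exact logdct_point hK hm hA hw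
  have hcm : ∀ m : ℝ, 0 ≤ m →
      Integrable (fun w => logdctC (K + (Fintype.card ι + 1) * m) (S w)) volume := by
    intro m hm
    have hM : 0 ≤ K + (Fintype.card ι + 1) * m := by positivity
    refine (hind (K + (Fintype.card ι + 1) * m)).mono'
      ((logdctC_cont _).comp_aestronglyMeasurable hS) ?_
    filter_upwards [hs] with w hw
    rw [Real.norm_eq_abs]
    by_cases h : w ∈ closedBall (0 : ℂ) R
    · rw [indicator_of_mem h]
      exact logdctC_abs _ _ hM
    · rw [indicator_of_notMem h] at hw ⊢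
      have : S w = 0 := abs_eq_zero.1 (le_antisymm hw (abs_nonneg _))
      rw [this, logdctC_zero _ hM, abs_zero]
  have hdiff : ∀ m : ℝ, 0 ≤ m →
      Integrable (fun w => S w - logdctC (K + (Fintype.card ι + 1) * m) (S w)) volume := by
    intro m hm
    refine (hsumint m hm).mono' (hS.sub (hcm m hm).aestronglyMeasurable) ?_
    filter_upwards [hpt m hm] with w hw
    exact hw
  have hint : Integrable S volume := by
    have := (hdiff 0 le_rfl).add (hcm 0 le_rfl)
    refine this.congr (Filter.Eventually.of_forall fun w => ?_)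
    simp
  refine ⟨hint, fun m hm => ?_⟩
  rw [← integral_sub hint (hcm m hm)]
  refine (abs_integral_le_integral_abs).trans ?_
  refine (integral_mono_ae (hdiff m hm).abs (hsumint m hm) (hpt m hm)).trans ?_
  rw [integral_finsetSum _ fun k _ => (logdctH_int K _ m hK hm).comp_sub_right (a k)]
  have : ∀ k, ∫ w, logdctH K (R + A + 1) m (w - a k) = ∫ u, logdctH K (R + A + 1) m u :=
    fun k => integral_sub_right_eq_self (logdctH K (R + A + 1) m) (a k)
  simp only [this, Finset.sum_const, nsmul_eq_mul, Finset.card_univ, le_refl]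

theorem log_dct {X ι : Type*} [Fintype ι] {L : Filter X} [L.IsCountablyGenerated] [L.NeBot]
    {S : X → ℂ → ℝ} {S0 : ℂ → ℝ} {a : ι → X → ℂ} {a0 : ι → ℂ}
    (ha : ∀ k, Tendsto (a k) L (𝓝 (a0 k))) {C R : ℝ}
    (hb : ∀ᶠ x in L, ∀ w, (∀ k, w ≠ a k x) → |S x w| ≤
      (closedBall (0 : ℂ) R).indicator (fun w => C * (1 + ∑ k, |Real.log ‖w - a k x‖|)) w)
    (hm : ∀ᶠ x in L, AEStronglyMeasurable (S x) volume)
    (hp : ∀ᵐ w, Tendsto (fun x => S x w) L (𝓝 (S0 w))) :
    Tendsto (fun x => ∫ w, S x w) L (𝓝 (∫ w, S0 w)) ∧ Integrable S0 ∧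
      ∀ᶠ x in L, Integrable (S x) := by
  set K : ℝ := max C 0 with hKdef
  have hK : 0 ≤ K := le_max_right _ _
  set A : ℝ := (∑ k, ‖a0 k‖) + 1 with hAdef
  -- bounds on the positions
  have hA : ∀ᶠ x in L, ∀ k, ‖a k x‖ ≤ A := by
    rw [eventually_all]
    intro k
    have h1 : ‖a0 k‖ < A := by
      have := Finset.single_le_sum (f := fun k => ‖a0 k‖) (fun k _ => norm_nonneg _)
        (Finset.mem_univ k)
      linarith
    filter_upwards [(ha k).norm.eventually_lt_const h1] with x hx using hx.le
  have hA0 : ∀ k, ‖a0 k‖ ≤ A := by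
    intro k
    have := Finset.single_le_sum (f := fun k => ‖a0 k‖) (fun k _ => norm_nonneg _)
      (Finset.mem_univ k)
    linarith
  -- the bound with `K`
  have hb' : ∀ᶠ x in L, ∀ w, (∀ k, w ≠ a k x) → |S x w| ≤
      (closedBall (0 : ℂ) R).indicator (fun w => K * (1 + ∑ k, |Real.log ‖w - a k x‖|)) w := by
    filter_upwards [hb] with x hx w hw
    refine (hx w hw).trans (indicator_le_indicator ?_)
    refine mul_le_mul_of_nonneg_right (le_max_left _ _) ?_
    have := Finset.sum_nonneg fun k (_ : k ∈ (Finset.univ : Finset ι)) =>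
      abs_nonneg (Real.log ‖w - a k x‖)
    linarith
  have hne : ∀ c : ι → ℂ, ∀ᵐ w : ℂ, ∀ k, w ≠ c k := by
    intro c
    rw [ae_all_iff]
    intro k
    rw [ae_iff]
    simp
  have hba : ∀ᶠ x in L, ∀ᵐ w, |S x w| ≤
      (closedBall (0 : ℂ) R).indicator (fun w => K * (1 + ∑ k, |Real.log ‖w - a k x‖|)) w := by
    filter_upwards [hb'] with x hx
    filter_upwards [hne fun k => a k x] with w hw using hx w hw
  -- the limit
  have hS0m : AEStronglyMeasurable S0 volume := by
    obtain ⟨u, hu⟩ := exists_seq_tendsto L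
    obtain ⟨N, hN⟩ := eventually_atTop.1 (hu.eventually hm)
    refine aestronglyMeasurable_of_tendsto_ae atTop (f := fun n => S (u (n + N)))
      (fun n => hN _ (Nat.le_add_left _ _)) ?_
    filter_upwards [hp] with w hw
    exact (hw.comp hu).comp (tendsto_add_atTop_nat N)
  have hb0 : ∀ᵐ w, |S0 w| ≤
      (closedBall (0 : ℂ) R).indicator (fun w => K * (1 + ∑ k, |Real.log ‖w - a0 k‖|)) w := by
    filter_upwards [hp, hne a0] with w hw hwn
    have h1 : Tendsto (fun x => |S x w|) L (𝓝 |S0 w|) := hw.abs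
    have h2 : Tendsto (fun x => (closedBall (0 : ℂ) R).indicator
        (fun w => K * (1 + ∑ k, |Real.log ‖w - a k x‖|)) w) L
        (𝓝 ((closedBall (0 : ℂ) R).indicator
          (fun w => K * (1 + ∑ k, |Real.log ‖w - a0 k‖|)) w)) := by
      by_cases h : w ∈ closedBall (0 : ℂ) R
      · simp only [indicator_of_mem h]
        refine Tendsto.const_mul _ (Tendsto.const_add _ (tendsto_finsetSum _ fun k _ => ?_))
        refine Tendsto.abs (Tendsto.log (tendsto_const_nhds.sub (ha k)).norm ?_)
        rw [norm_ne_zero_iff, sub_ne_zero]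
        exact hwn k
      · simp only [indicator_of_notMem h]
        exact tendsto_const_nhds
    refine le_of_tendsto_of_tendsto h1 h2 ?_
    have h3 : ∀ᶠ x in L, ∀ k, w ≠ a k x := by
      rw [eventually_all]
      intro k
      filter_upwards [(ha k).eventually_ne (hwn k).symm] with x hx using hx.symm
    filter_upwards [hb', h3] with x hx hx3 using hx w hx3
  obtain ⟨hI0, hE0⟩ := logdct_err hK hA0 hS0m hb0
  refine ⟨?_, hI0, ?_⟩
  · rw [Metric.tendsto_nhds]
    intro ε hε
    have hlim : Tendsto (fun m : ℕ => (Fintype.card ι : ℝ) *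
        ∫ u, logdctH K (R + A + 1) m u) atTop (𝓝 0) := by
      simpa using (logdctH_tendsto K (R + A + 1) hK).const_mul (Fintype.card ι : ℝ)
    obtain ⟨m, hmε⟩ := (hlim.eventually_lt_const (by positivity : (0 : ℝ) < ε / 3)).exists
    have hm0 : (0 : ℝ) ≤ m := Nat.cast_nonneg m
    set M : ℝ := K + (Fintype.card ι + 1) * m with hMdef
    have hM : 0 ≤ M := by positivity
    have hdct : Tendsto (fun x => ∫ w, logdctC M (S x w)) L (𝓝 (∫ w, logdctC M (S0 w))) := by
      refine tendsto_integral_filter_of_dominated_convergence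
        ((closedBall (0 : ℂ) R).indicator fun _ => M) ?_ ?_ ?_ ?_
      · filter_upwards [hm] with x hx
        exact (logdctC_cont M).comp_aestronglyMeasurable hx
      · filter_upwards [hba] with x hx
        filter_upwards [hx] with w hw
        rw [Real.norm_eq_abs]
        by_cases h : w ∈ closedBall (0 : ℂ) R
        · rw [indicator_of_mem h]
          exact logdctC_abs _ _ hM
        · rw [indicator_of_notMem h] at hw ⊢
          have : S x w = 0 := abs_eq_zero.1 (le_antisymm hw (abs_nonneg _))
          rw [this, logdctC_zero _ hM, abs_zero]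
      · rw [integrable_indicator_iff measurableSet_closedBall]
        exact integrableOn_const (measure_closedBall_lt_top.ne)
      · filter_upwards [hp] with w hw
        exact ((logdctC_cont M).tendsto _).comp hw
    have h1 := Metric.tendsto_nhds.1 hdct (ε / 3) (by positivity)
    filter_upwards [h1, hba, hm, hA] with x hx1 hx2 hx3 hx4
    have hx := (logdct_err hK hx4 hx3 hx2).2 m hm0
    have h0 := hE0 m hm0
    rw [Real.dist_eq] at hx1 ⊢
    have e1 : (∫ w, S x w) - ∫ w, S0 w =
        ((∫ w, S x w) - ∫ w, logdctC M (S x w)) +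
        ((∫ w, logdctC M (S x w)) - ∫ w, logdctC M (S0 w)) +
        -((∫ w, S0 w) - ∫ w, logdctC M (S0 w)) := by ring
    rw [e1]
    refine (abs_add_three _ _ _).trans_lt ?_
    rw [abs_neg]
    linarith
  · filter_upwards [hba, hm, hA] with x hx2 hx3 hx4
    exact (logdct_err hK hx4 hx3 hx2).1

end Pool.Agent.Helper14.AS
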