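import Pool.Agent.Helper14.AS.Objs

/-!
# Measurability of sums over finite fibres of sigma-compact sets
-/

noncomputable section

namespace Pool.Agent.Helper14.AS

open Complex MeasureTheory Set Filter Topology Metric

/-- A sigma-compact set intersected with an open set is sigma-compact. -/
theorem isSigmaCompact_inter_open {E : Type*} [PseudoMetricSpace E] {B O : Set E}
    (hB : IsSigmaCompact B) (hO : IsOpen O) : IsSigmaCompact (B ∩ O) := by
  obtain ⟨F, hFc, -, hFU, -⟩ := hO.exists_iUnion_isClosed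
  obtain ⟨K, hKc, hKU⟩ := hB
  have : B ∩ O = ⋃ p : ℕ × ℕ, K p.1 ∩ F p.2 := by
    rw [← hKU, ← hFU]
    ext z
    simp only [mem_inter_iff, mem_iUnion, Prod.exists]
    constructor
    · rintro ⟨⟨i, hi⟩, ⟨j, hj⟩⟩
      exact ⟨i, j, hi, hj⟩
    · rintro ⟨i, j, hi, hj⟩
      exact ⟨⟨i, hi⟩, ⟨j, hj⟩⟩
  rw [this]
  exact isSigmaCompact_iUnion_of_isCompact _ fun p => (hKc p.1).inter_right (hFc p.2)

/-- The supremum over fibres of a nonnegative function, continuous on a sigma-compact set, is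
measurable. -/
theorem measurable_sup_fibre {E : Type*} [PseudoMetricSpace E] {B O : Set E}
    (hB : IsSigmaCompact B) (hO : IsOpen O) {q : E → ℂ} (hq : Continuous q)
    {φ : E → ENNReal} (hφ : ContinuousOn φ B) :
    Measurable fun w => ⨆ z : E, ⨆ _ : (z ∈ B ∧ q z = w) ∧ z ∈ O, φ z := by
  apply measurable_of_Ioi
  intro c
  obtain ⟨V, hV, hVB⟩ := (continuousOn_iff'.1 hφ) (Ioi c) isOpen_Ioi
  have key : (fun w => ⨆ z : E, ⨆ _ : (z ∈ B ∧ q z = w) ∧ z ∈ O, φ z) ⁻¹' Ioi c =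
      q '' (B ∩ (V ∩ O)) := by
    ext w
    simp only [mem_preimage, mem_Ioi, lt_iSup_iff, mem_image]
    constructor
    · rintro ⟨z, ⟨⟨hzB, hzw⟩, hzO⟩, hc⟩
      refine ⟨z, ⟨hzB, ?_, hzO⟩, hzw⟩
      have : z ∈ φ ⁻¹' Ioi c ∩ B := ⟨hc, hzB⟩
      rw [hVB] at this
      exact this.1
    · rintro ⟨z, ⟨hzB, hzV, hzO⟩, hzw⟩
      refine ⟨z, ⟨⟨hzB, hzw⟩, hzO⟩, ?_⟩
      have : z ∈ V ∩ B := ⟨hzV, hzB⟩
      rw [← hVB] at this
      exact this.1
  rw [key]
  obtain ⟨K, hKc, hKU⟩ := (isSigmaCompact_inter_open hB (hV.inter hO)).image hq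
  rw [← hKU]
  exact MeasurableSet.iUnion fun n => (hKc n).measurableSet

/-- A finite sum over a finite set is a supremum over finite disjoint families of basic open
sets. -/
theorem sum_eq_iSup {E : Type*} [TopologicalSpace E] [T2Space E] {U : ℕ → Set E}
    (hU : TopologicalSpace.IsTopologicalBasis (range U)) (A : Set E) (hA : A.Finite) (φ : E → ENNReal) :
    ∑ z ∈ hA.toFinset, φ z = ⨆ s : Finset ℕ, ⨆ _ : (s : Set ℕ).PairwiseDisjoint U,
      ∑ j ∈ s, ⨆ z : E, ⨆ _ : z ∈ A ∧ z ∈ U j, φ z := by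
  classical
  apply le_antisymm
  · obtain ⟨V, hV, hVd⟩ := hA.t2_separation
    have hex : ∀ z : E, ∃ j : ℕ, z ∈ A → z ∈ U j ∧ U j ⊆ V z := by
      intro z
      obtain ⟨u, ⟨j, rfl⟩, hzu, huV⟩ := hU.exists_subset_of_mem_open (hV z).1 (hV z).2
      exact ⟨j, fun _ => ⟨hzu, huV⟩⟩
    choose j hj using hex
    have hinj : ∀ z ∈ A, ∀ z' ∈ A, j z = j z' → z = z' := by
      intro z hz z' hz' h
      by_contra hne
      have h1 := hVd hz hz' hne
      have h2 : z ∈ U (j z) := (hj z hz).1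
      exact Set.disjoint_left.1 h1 ((hj z hz).2 h2) ((hj z' hz').2 (h ▸ h2))
    have hdisj : ((hA.toFinset.image j : Finset ℕ) : Set ℕ).PairwiseDisjoint U := by
      intro a ha b hb hab
      rw [Finset.coe_image, mem_image] at ha hb
      obtain ⟨z, hz, rfl⟩ := ha
      obtain ⟨z', hz', rfl⟩ := hb
      have hz1 : z ∈ A := by simpa using hz
      have hz2 : z' ∈ A := by simpa using hz'
      have hne : z ≠ z' := fun h => hab (by rw [h])
      exact (hVd hz1 hz2 hne).mono (hj z hz1).2 (hj z' hz2).2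
    refine le_trans ?_ (le_iSup₂ (hA.toFinset.image j) hdisj)
    rw [Finset.sum_image]
    · apply Finset.sum_le_sum
      intro z hz
      have hz1 : z ∈ A := by simpa using hz
      exact le_iSup₂ (f := fun (z' : E) (_ : z' ∈ A ∧ z' ∈ U (j z)) => φ z') z
        ⟨hz1, (hj z hz1).1⟩
    · intro z hz z' hz' h
      exact hinj z (by simpa using hz) z' (by simpa using hz') h
  · apply iSup₂_le
    intro s hs
    have h1 : ∀ j ∈ s, (⨆ z : E, ⨆ _ : z ∈ A ∧ z ∈ U j, φ z) ≤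
        ∑ z ∈ hA.toFinset.filter (fun z => z ∈ U j), φ z := by
      intro j _
      apply iSup₂_le
      intro z hz
      apply Finset.single_le_sum (f := φ) (fun _ _ => bot_le)
      simp [hz.1, hz.2]
    refine le_trans (Finset.sum_le_sum h1) ?_
    rw [← Finset.sum_biUnion]
    · apply Finset.sum_le_sum_of_subset
      intro z hz
      rw [Finset.mem_biUnion] at hz
      obtain ⟨j, _, hz⟩ := hz
      exact (Finset.mem_filter.1 hz).1
    · intro a ha b hb hab
      rw [Function.onFun, Finset.disjoint_left]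
      intro z hz hz'
      exact Set.disjoint_left.1 (hs ha hb hab) (Finset.mem_filter.1 hz).2
        (Finset.mem_filter.1 hz').2

theorem meas_fibre_ennreal {B : Set (ℂ × ℂ)} (hB : IsSigmaCompact B) {q : ℂ × ℂ → ℂ}
    (hq : Continuous q) {φ : ℂ × ℂ → ENNReal} (hφ : ContinuousOn φ B)
    (hf : ∀ w, {z | z ∈ B ∧ q z = w}.Finite) :
    Measurable fun w => ∑ z ∈ (hf w).toFinset, φ z := by
  obtain ⟨b, hbc, -, hb⟩ := TopologicalSpace.exists_countable_basis (ℂ × ℂ)
  have hbne : b.Nonempty := by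
    by_contra h
    rw [not_nonempty_iff_eq_empty] at h
    have := hb.sUnion_eq
    rw [h, sUnion_empty] at this
    exact absurd (mem_univ (0 : ℂ × ℂ)) (this ▸ notMem_empty _)
  obtain ⟨U, hU⟩ := hbc.exists_eq_range hbne
  rw [hU] at hb
  have : (fun w => ∑ z ∈ (hf w).toFinset, φ z) = fun w =>
      ⨆ s : Finset ℕ, ⨆ _ : (s : Set ℕ).PairwiseDisjoint U,
      ∑ j ∈ s, ⨆ z : ℂ × ℂ, ⨆ _ : (z ∈ B ∧ q z = w) ∧ z ∈ U j, φ z := by
    ext w
    exact sum_eq_iSup hb _ (hf w) φ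
  rw [this]
  refine Measurable.iSup fun s => Measurable.iSup fun _ => ?_
  refine Finset.measurable_sum _ fun j _ => ?_
  exact measurable_sup_fibre hB (hb.isOpen (mem_range_self j)) hq hφ

theorem meas_fibre {B : Set (ℂ × ℂ)} (hB : IsSigmaCompact B) {q : ℂ × ℂ → ℂ} (hq : Continuous q)
    {ψ : ℂ × ℂ → ℝ} (hψ : ContinuousOn ψ B) (hf : ∀ w, {z | z ∈ B ∧ q z = w}.Finite) :
    Measurable fun w => ∑ᶠ z ∈ {z | z ∈ B ∧ q z = w}, ψ z := by
  have h1 := meas_fibre_ennreal hB hq (φ := fun z => ENNReal.ofReal (ψ z))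
    (ENNReal.continuous_ofReal.comp_continuousOn hψ) hf
  have h2 := meas_fibre_ennreal hB hq (φ := fun z => ENNReal.ofReal (-ψ z))
    (ENNReal.continuous_ofReal.comp_continuousOn hψ.neg) hf
  have : (fun w => ∑ᶠ z ∈ {z | z ∈ B ∧ q z = w}, ψ z) = fun w =>
      (∑ z ∈ (hf w).toFinset, ENNReal.ofReal (ψ z)).toReal -
      (∑ z ∈ (hf w).toFinset, ENNReal.ofReal (-ψ z)).toReal := by
    ext w
    rw [finsum_mem_eq_finite_toFinset_sum _ (hf w), ENNReal.toReal_sum, ENNReal.toReal_sum,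
      ← Finset.sum_sub_distrib]
    · refine Finset.sum_congr rfl fun z _ => ?_
      rw [ENNReal.toReal_ofReal', ENNReal.toReal_ofReal']
      exact (max_zero_sub_max_neg_zero_eq_self _).symm
    · intro z _; exact ENNReal.ofReal_ne_top
    · intro z _; exact ENNReal.ofReal_ne_top
  rw [this]
  exact h1.ennreal_toReal.sub h2.ennreal_toReal

end Pool.Agent.Helper14.AS
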