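import Pool.Agent.Helper14.AS.Base
import Pool.Agent.Helper14.AS.ThA
import Pool.Agent.Helper14.AS.Sep
import Pool.Agent.Helper14.AS.Count
import Pool.Agent.Helper14.AS.Hur
import Pool.Agent.Helper14.AS.Meas
import Pool.Agent.Helper14.AS.LogDct

/-! # Bound for the sums over fibres and convergence of the regulators -/

noncomputable section

namespace Pool.Agent.Helper14.AS

open Complex MeasureTheory Set Filter Topology Metric

theorem dom_continuousAt_th {t : ℂ × ℂ × ℂ} (ht : t ∈ W) (z : ℂ × ℂ) :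
    ContinuousAt (fun p : (ℂ × ℂ × ℂ) × (ℂ × ℂ) => th p.1 p.2) (t, z) :=
  continuousOn_th.continuousAt (prod_mem_nhds (isOpen_ball.mem_nhds ht) univ_mem)

theorem dom_continuous_th {t : ℂ × ℂ × ℂ} (ht : t ∈ W) : Continuous (th t) :=
  continuous_iff_continuousAt.2 fun z =>
    (dom_continuousAt_th ht z).comp (f := fun z => (t, z)) (by fun_prop)

theorem dom_continuous_G {t : ℂ × ℂ × ℂ} (ht : t ∈ W) (s : ℝ) : Continuous (G s t) := by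
  have : Continuous fun z => gp s z := by unfold gp; fun_prop
  exact (dom_continuous_th ht).comp this

theorem dom_continuous_F {t : ℂ × ℂ × ℂ} (ht : t ∈ W) (s : ℝ) : Continuous (F s t) := by
  have : Continuous fun z => fp s t z := by unfold fp; fun_prop
  exact (dom_continuous_th ht).comp this

theorem dom_continuousAt_F {t : ℂ × ℂ × ℂ} (ht : t ∈ W) (s : ℝ) (z : ℂ × ℂ) :
    ContinuousAt (fun p : (ℂ × ℂ × ℂ) × (ℂ × ℂ) => F s p.1 p.2) (t, z) := by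
  have h : Continuous fun p : (ℂ × ℂ × ℂ) × (ℂ × ℂ) => (p.1, fp s p.1 p.2) := by
    unfold fp; fun_prop
  exact ContinuousAt.comp (f := fun p : (ℂ × ℂ × ℂ) × (ℂ × ℂ) => (p.1, fp s p.1 p.2))
    (x := (t, z)) (dom_continuousAt_th ht (fp s t z)) h.continuousAt

/-- a uniform bound for `F` on the closed cell. -/
theorem dom_F_bound (s : ℝ) : ∃ M : ℝ, 0 < M ∧ ∀ᶠ t in 𝓝 t0, ∀ y ∈ Icc (0 : Fin 4 → ℝ) 1,
    ‖F s t (vec t y)‖ ≤ M := by
  have hK : IsCompact (closedBall t0 (1 / 16) ×ˢ Icc (0 : Fin 4 → ℝ) 1) :=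
    (isCompact_closedBall _ _).prod isCompact_Icc
  have hc : ContinuousOn (fun q : (ℂ × ℂ × ℂ) × (Fin 4 → ℝ) => F s q.1 (vec q.1 q.2))
      (closedBall t0 (1 / 16) ×ˢ Icc (0 : Fin 4 → ℝ) 1) := by
    intro q hq
    have hW : q.1 ∈ W := by
      have := hq.1
      rw [mem_closedBall] at this
      rw [W, mem_ball]; linarith
    have h2 : Continuous fun q : (ℂ × ℂ × ℂ) × (Fin 4 → ℝ) => (q.1, vec q.1 q.2) :=
      continuous_fst.prodMk continuous_vec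
    have := ContinuousAt.comp (f := fun q : (ℂ × ℂ × ℂ) × (Fin 4 → ℝ) => (q.1, vec q.1 q.2))
      (x := q) (dom_continuousAt_F hW s (vec q.1 q.2)) h2.continuousAt
    exact this.continuousWithinAt
  obtain ⟨M, hM⟩ := hK.exists_bound_of_continuousOn hc
  refine ⟨|M| + 1, by positivity, ?_⟩
  filter_upwards [closedBall_mem_nhds t0 (show (0 : ℝ) < 1 / 16 by norm_num)] with t ht y hy
  exact (hM (t, y) ⟨ht, hy⟩).trans (by linarith [le_abs_self M])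

/-- Lipschitz bound for `lin l ∘ vec t`. -/
theorem dom_lin_vec_bound (l : ℂ × ℂ) : ∃ M : ℝ, 0 < M ∧
    ∀ᶠ p : (ℂ × ℂ × ℂ) × (ℂ × ℂ) in 𝓝 (t0, l), ∀ y : Fin 4 → ℝ,
      ‖lin p.2 (vec p.1 y)‖ ≤ M * ‖y‖ := by
  refine ⟨(‖l‖ + 1) * 8, by positivity, ?_⟩
  have h1 : ∀ᶠ p : (ℂ × ℂ × ℂ) × (ℂ × ℂ) in 𝓝 (t0, l), p.1 ∈ W :=
    (continuous_fst.tendsto _) W_nhds
  have h2 : ∀ᶠ p : (ℂ × ℂ × ℂ) × (ℂ × ℂ) in 𝓝 (t0, l), p.2 ∈ ball l 1 :=
    (continuous_snd.tendsto _) (ball_mem_nhds _ one_pos)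
  filter_upwards [h1, h2] with p hp1 hp2 y
  have hl : ‖p.2‖ ≤ ‖l‖ + 1 := by
    have := norm_sub_norm_le p.2 l
    rw [mem_ball, dist_eq_norm] at hp2
    linarith
  have hy : ∀ i, |y i| ≤ ‖y‖ := fun i => norm_le_pi_norm y i
  rw [W, mem_ball, dist_eq_norm] at hp1
  have ht : ∀ q : ℂ × ℂ × ℂ, ‖q - t0‖ < 1 / 8 → ‖q.1‖ ≤ 2 ∧ ‖q.2.1‖ ≤ 1 ∧ ‖q.2.2‖ ≤ 2 := by
    intro q hq
    have e1 : ‖q.1 - I‖ ≤ ‖q - t0‖ := by
      have := norm_fst_le (q - t0); simpa [t0] using this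
    have e2 : ‖q.2.1 - 0‖ ≤ ‖q - t0‖ := by
      have := (norm_fst_le (q - t0).2).trans (norm_snd_le (q - t0)); simpa [t0] using this
    have e3 : ‖q.2.2 - I‖ ≤ ‖q - t0‖ := by
      have := (norm_snd_le (q - t0).2).trans (norm_snd_le (q - t0)); simpa [t0] using this
    have hI : ‖I‖ = 1 := Complex.norm_I
    refine ⟨?_, ?_, ?_⟩
    · have := norm_sub_norm_le q.1 I; linarith
    · rw [sub_zero] at e2; linarith
    · have := norm_sub_norm_le q.2.2 I; linarith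
  obtain ⟨a1, a2, a3⟩ := ht p.1 hp1
  have hn : 0 ≤ ‖y‖ := norm_nonneg _
  have b1 : ‖(vec p.1 y).1‖ ≤ 4 * ‖y‖ := by
    rw [vec_eq]
    calc ‖(y 0 : ℂ) + y 2 * p.1.1 + y 3 * p.1.2.1‖
        ≤ ‖(y 0 : ℂ)‖ + ‖(y 2 : ℂ) * p.1.1‖ + ‖(y 3 : ℂ) * p.1.2.1‖ :=
          (norm_add_le _ _).trans (by gcongr; exact norm_add_le _ _)
      _ ≤ ‖y‖ + ‖y‖ * 2 + ‖y‖ * 1 := by
          rw [norm_mul, norm_mul, norm_real, norm_real, norm_real]
          have := hy 0; have := hy 2; have := hy 3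
          simp only [Real.norm_eq_abs]
          gcongr
      _ = 4 * ‖y‖ := by ring
  have b2 : ‖(vec p.1 y).2‖ ≤ 4 * ‖y‖ := by
    rw [vec_eq]
    calc ‖(y 1 : ℂ) + y 2 * p.1.2.1 + y 3 * p.1.2.2‖
        ≤ ‖(y 1 : ℂ)‖ + ‖(y 2 : ℂ) * p.1.2.1‖ + ‖(y 3 : ℂ) * p.1.2.2‖ :=
          (norm_add_le _ _).trans (by gcongr; exact norm_add_le _ _)
      _ ≤ ‖y‖ + ‖y‖ * 1 + ‖y‖ * 2 := by
          rw [norm_mul, norm_mul, norm_real, norm_real, norm_real]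
          have := hy 1; have := hy 2; have := hy 3
          simp only [Real.norm_eq_abs]
          gcongr
      _ = 4 * ‖y‖ := by ring
  have c1 : ‖p.2.1‖ ≤ ‖l‖ + 1 := (norm_fst_le p.2).trans hl
  have c2 : ‖p.2.2‖ ≤ ‖l‖ + 1 := (norm_snd_le p.2).trans hl
  calc ‖lin p.2 (vec p.1 y)‖ ≤ ‖p.2.1 * (vec p.1 y).1‖ + ‖p.2.2 * (vec p.1 y).2‖ := norm_add_le _ _
    _ ≤ (‖l‖ + 1) * (4 * ‖y‖) + (‖l‖ + 1) * (4 * ‖y‖) := by
        rw [norm_mul, norm_mul]; gcongr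
    _ = (‖l‖ + 1) * 8 * ‖y‖ := by ring


def dom_sg (b : Bool) : ℝ := if b then 1 / 4 else -(1 / 4)

theorem dom_sg_mem (b : Bool) : dom_sg b = 1 / 4 ∨ dom_sg b = -(1 / 4) := by
  cases b <;> simp [dom_sg]

/-- The moving singularities. -/
def dom_a (s : ℝ) (k : Bool × Fin 4) (p : (ℂ × ℂ × ℂ) × (ℂ × ℂ)) : ℂ :=
  lin p.2 (vec p.1 (pts s (dom_sg k.1) k.2))

theorem dom_F_log (s : ℝ) (hs : s = 1 / 4 ∨ s = -(1 / 4)) (b : Bool) (l : ℂ × ℂ) :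
    ∃ K : ℝ, 0 ≤ K ∧ ∀ᶠ p : (ℂ × ℂ × ℂ) × (ℂ × ℂ) in 𝓝 (t0, l), ∀ y : Fin 4 → ℝ,
      (∀ i, y i ∈ Ico (0 : ℝ) 1) → G s p.1 (vec p.1 y) = 0 →
      (∀ k, lin p.2 (vec p.1 y) ≠ dom_a s (b, k) p) → F (dom_sg b) p.1 (vec p.1 y) ≠ 0 →
      |Real.log ‖F (dom_sg b) p.1 (vec p.1 y)‖| ≤
        K + ∑ k : Fin 4, |Real.log ‖lin p.2 (vec p.1 y) - dom_a s (b, k) p‖| := by
  obtain ⟨M, hM0, hM⟩ := dom_F_bound (dom_sg b)
  obtain ⟨M', hM'0, hM'⟩ := dom_lin_vec_bound l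
  obtain ⟨c, hc0, hc⟩ := sep s (dom_sg b) hs (dom_sg_mem b)
  refine ⟨|Real.log M| + |Real.log c| + |Real.log M'|, by positivity, ?_⟩
  have e1 : ∀ᶠ p : (ℂ × ℂ × ℂ) × (ℂ × ℂ) in 𝓝 (t0, l), ∀ y ∈ Icc (0 : Fin 4 → ℝ) 1,
      ‖F (dom_sg b) p.1 (vec p.1 y)‖ ≤ M := (continuous_fst.tendsto (t0, l)).eventually hM
  have e2 : ∀ᶠ p : (ℂ × ℂ × ℂ) × (ℂ × ℂ) in 𝓝 (t0, l), ∀ y ∈ Icc (0 : Fin 4 → ℝ) 1,
      G s p.1 (vec p.1 y) = 0 → ∃ k, c * ‖y - pts s (dom_sg b) k‖ ≤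
        ‖F (dom_sg b) p.1 (vec p.1 y)‖ := (continuous_fst.tendsto (t0, l)).eventually hc
  filter_upwards [e1, e2, hM'] with p h1 h2 h3 y hy hG hw hF
  have hy' : y ∈ Icc (0 : Fin 4 → ℝ) 1 := ⟨fun i => (hy i).1, fun i => (hy i).2.le⟩
  obtain ⟨k, hk⟩ := h2 y hy' hG
  have hFpos : 0 < ‖F (dom_sg b) p.1 (vec p.1 y)‖ := norm_pos_iff.2 hF
  have hne : y ≠ pts s (dom_sg b) k := by
    intro h; apply hw k; rw [dom_a, ← h]
  have hd : 0 < ‖y - pts s (dom_sg b) k‖ := norm_pos_iff.2 (sub_ne_zero.2 hne)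
  have hwd : 0 < ‖lin p.2 (vec p.1 y) - dom_a s (b, k) p‖ :=
    norm_pos_iff.2 (sub_ne_zero.2 (hw k))
  have h4 : ‖lin p.2 (vec p.1 y) - dom_a s (b, k) p‖ ≤ M' * ‖y - pts s (dom_sg b) k‖ := by
    have := h3 (y - pts s (dom_sg b) k)
    rwa [vec_sub, lin_sub] at this
  have up : Real.log ‖F (dom_sg b) p.1 (vec p.1 y)‖ ≤ Real.log M :=
    Real.log_le_log hFpos (h1 y hy')
  have lo : Real.log c + Real.log ‖y - pts s (dom_sg b) k‖ ≤
      Real.log ‖F (dom_sg b) p.1 (vec p.1 y)‖ := by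
    rw [← Real.log_mul hc0.ne' hd.ne']
    exact Real.log_le_log (by positivity) hk
  have lo2 : Real.log ‖lin p.2 (vec p.1 y) - dom_a s (b, k) p‖ ≤
      Real.log M' + Real.log ‖y - pts s (dom_sg b) k‖ := by
    rw [← Real.log_mul hM'0.ne' hd.ne']
    exact Real.log_le_log hwd h4
  have hk2 : |Real.log ‖lin p.2 (vec p.1 y) - dom_a s (b, k) p‖| ≤
      ∑ k : Fin 4, |Real.log ‖lin p.2 (vec p.1 y) - dom_a s (b, k) p‖| :=
    Finset.single_le_sum (f := fun k : Fin 4 =>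
      |Real.log ‖lin p.2 (vec p.1 y) - dom_a s (b, k) p‖|) (fun _ _ => abs_nonneg _)
      (Finset.mem_univ k)
  have n1 := le_abs_self (Real.log M)
  have n2 := neg_abs_le (Real.log c)
  have n3 := le_abs_self (Real.log M')
  have n4 := neg_abs_le (Real.log ‖lin p.2 (vec p.1 y) - dom_a s (b, k) p‖)
  have n5 := abs_nonneg (Real.log c)
  have n6 := abs_nonneg (Real.log M')
  have n7 := abs_nonneg (Real.log M)
  have n8 := abs_nonneg (Real.log ‖lin p.2 (vec p.1 y) - dom_a s (b, k) p‖)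
  rw [abs_le]
  constructor
  · linarith
  · linarith

theorem dom_log_hh (t : ℂ × ℂ × ℂ) (z : ℂ × ℂ) :
    |Real.log ‖hh t z‖| ≤ 2 * ((if F (dom_sg true) t z = 0 then 0 else
      |Real.log ‖F (dom_sg true) t z‖|) + (if F (dom_sg false) t z = 0 then 0 else
      |Real.log ‖F (dom_sg false) t z‖|)) := by
  have e1 : dom_sg true = 1 / 4 := by simp [dom_sg]
  have e2 : dom_sg false = -(1 / 4) := by simp [dom_sg]
  rw [e1, e2, hh]
  by_cases h1 : F (1 / 4) t z = 0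
  · rw [h1]; simp
    split_ifs <;> positivity
  by_cases h2 : F (-(1 / 4)) t z = 0
  · rw [h2]; simp
    split_ifs <;> positivity
  rw [if_neg h1, if_neg h2, norm_pow, Real.log_pow, norm_div,
    Real.log_div (norm_ne_zero_iff.2 h1) (norm_ne_zero_iff.2 h2), abs_mul]
  simp only [Nat.cast_ofNat, abs_two]
  gcongr
  exact abs_sub _ _

theorem dom_term (s : ℝ) (hs : s = 1 / 4 ∨ s = -(1 / 4)) (l : ℂ × ℂ) :
    ∃ K : ℝ, 0 ≤ K ∧ ∀ᶠ p : (ℂ × ℂ × ℂ) × (ℂ × ℂ) in 𝓝 (t0, l), ∀ z,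
      z ∈ Zc s p.1 → z ∈ cell (bt p.1) → (∀ k, lin p.2 z ≠ dom_a s k p) →
      |Real.log ‖hh p.1 z‖| ≤ K * (1 + ∑ k, |Real.log ‖lin p.2 z - dom_a s k p‖|) := by
  obtain ⟨K1, hK1, h1⟩ := dom_F_log s hs true l
  obtain ⟨K2, hK2, h2⟩ := dom_F_log s hs false l
  refine ⟨2 * (K1 + K2 + 1), by positivity, ?_⟩
  filter_upwards [h1, h2] with p h1 h2 z hz hzc hw
  obtain ⟨y, hy, rfl⟩ := (mem_cell_iff _ _).1 hzc
  refine (dom_log_hh _ _).trans ?_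
  have key : ∀ (b : Bool) (K : ℝ), 0 ≤ K → (∀ y : Fin 4 → ℝ,
      (∀ i, y i ∈ Ico (0 : ℝ) 1) → G s p.1 (vec p.1 y) = 0 →
      (∀ k, lin p.2 (vec p.1 y) ≠ dom_a s (b, k) p) → F (dom_sg b) p.1 (vec p.1 y) ≠ 0 →
      |Real.log ‖F (dom_sg b) p.1 (vec p.1 y)‖| ≤
        K + ∑ k : Fin 4, |Real.log ‖lin p.2 (vec p.1 y) - dom_a s (b, k) p‖|) →
      (if F (dom_sg b) p.1 (vec p.1 y) = 0 then 0 else
        |Real.log ‖F (dom_sg b) p.1 (vec p.1 y)‖|) ≤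
        K + ∑ k : Fin 4, |Real.log ‖lin p.2 (vec p.1 y) - dom_a s (b, k) p‖| := by
    intro b K hK h
    split_ifs with h0
    · exact add_nonneg hK (Finset.sum_nonneg fun _ _ => abs_nonneg _)
    · exact h y hy hz (fun k => hw (b, k)) h0
  have a1 := key true K1 hK1 h1
  have a2 := key false K2 hK2 h2
  have hsum : ∑ k : Bool × Fin 4, |Real.log ‖lin p.2 (vec p.1 y) - dom_a s k p‖| =
      ∑ k : Fin 4, |Real.log ‖lin p.2 (vec p.1 y) - dom_a s (true, k) p‖| +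
      ∑ k : Fin 4, |Real.log ‖lin p.2 (vec p.1 y) - dom_a s (false, k) p‖| := by
    rw [Fintype.sum_prod_type]; simp
  rw [hsum]
  set A := ∑ k : Fin 4, |Real.log ‖lin p.2 (vec p.1 y) - dom_a s (true, k) p‖| with hA
  set B := ∑ k : Fin 4, |Real.log ‖lin p.2 (vec p.1 y) - dom_a s (false, k) p‖| with hB
  have hA0 : 0 ≤ A := Finset.sum_nonneg fun _ _ => abs_nonneg _
  have hB0 : 0 ≤ B := Finset.sum_nonneg fun _ _ => abs_nonneg _
  nlinarith [mul_nonneg hK1 hA0, mul_nonneg hK1 hB0, mul_nonneg hK2 hA0, mul_nonneg hK2 hB0]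

theorem dom_cell_bound (l : ℂ × ℂ) : ∃ R : ℝ, ∀ᶠ p : (ℂ × ℂ × ℂ) × (ℂ × ℂ) in 𝓝 (t0, l), ∀ z,
      z ∈ cell (bt p.1) → ‖lin p.2 z‖ ≤ R := by
  obtain ⟨M', hM'0, hM'⟩ := dom_lin_vec_bound l
  refine ⟨M', ?_⟩
  filter_upwards [hM'] with p hp z hz
  obtain ⟨y, hy, rfl⟩ := (mem_cell_iff _ _).1 hz
  refine (hp y).trans ?_
  have : ‖y‖ ≤ 1 := (pi_norm_le_iff_of_nonneg zero_le_one).2 fun i => by
    rw [Real.norm_eq_abs, abs_le]; exact ⟨by linarith [(hy i).1], (hy i).2.le⟩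
  nlinarith

theorem dom_bound (s : ℝ) (hs : s = 1 / 4 ∨ s = -(1 / 4)) {l : ℂ × ℂ} (h1 : l.1 ≠ 0)
    (h2 : l.2 ≠ 0) : ∃ C R : ℝ, ∀ᶠ p : (ℂ × ℂ × ℂ) × (ℂ × ℂ) in 𝓝 (t0, l), ∀ w,
      (∀ k, w ≠ dom_a s k p) → |SS s p w| ≤
      (closedBall (0 : ℂ) R).indicator (fun w => C * (1 + ∑ k, |Real.log ‖w - dom_a s k p‖|)) w := by
  obtain ⟨K, hK0, hK⟩ := dom_term s hs l
  obtain ⟨N, hN⟩ := count s hs h1 h2
  obtain ⟨R, hR⟩ := dom_cell_bound l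
  refine ⟨N * K, R, ?_⟩
  filter_upwards [hK, hN, hR] with p hK hN hR w hw
  obtain ⟨hfin, hcard⟩ := hN w
  set A : Set (ℂ × ℂ) := {z | z ∈ Zc s p.1 ∧ z ∈ cell (bt p.1) ∧ lin p.2 z = w} with hA
  by_cases hwR : w ∈ closedBall (0 : ℂ) R
  · rw [indicator_of_mem hwR]
    have e1 : SS s p w = ∑ z ∈ hfin.toFinset, Real.log ‖hh p.1 z‖ := by
      rw [SS, ← hA, finsum_mem_eq_finite_toFinset_sum _ hfin]
    rw [e1]
    refine (Finset.abs_sum_le_sum_abs _ _).trans ?_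
    have e2 : ∀ z ∈ hfin.toFinset, |Real.log ‖hh p.1 z‖| ≤
        K * (1 + ∑ k, |Real.log ‖w - dom_a s k p‖|) := by
      intro z hz
      rw [Set.Finite.mem_toFinset] at hz
      obtain ⟨z1, z2, z3⟩ := hz
      have := hK z z1 z2 (by rw [z3]; exact hw)
      rwa [z3] at this
    refine (Finset.sum_le_card_nsmul _ _ _ e2).trans ?_
    rw [nsmul_eq_mul, ← Set.ncard_eq_toFinset_card _ hfin]
    have : (0 : ℝ) ≤ K * (1 + ∑ k, |Real.log ‖w - dom_a s k p‖|) :=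
      mul_nonneg hK0 (add_nonneg zero_le_one (Finset.sum_nonneg fun _ _ => abs_nonneg _))
    calc (A.ncard : ℝ) * (K * (1 + ∑ k, |Real.log ‖w - dom_a s k p‖|))
        ≤ N * (K * (1 + ∑ k, |Real.log ‖w - dom_a s k p‖|)) := by
          gcongr
      _ = N * K * (1 + ∑ k, |Real.log ‖w - dom_a s k p‖|) := by ring
  · rw [indicator_of_notMem hwR]
    have hemp : A = ∅ := by
      rw [Set.eq_empty_iff_forall_notMem]
      rintro z ⟨z1, z2, z3⟩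
      apply hwR
      rw [mem_closedBall, dist_zero_right, ← z3]
      exact hR z z2
    rw [SS, ← hA, hemp, finsum_mem_empty, abs_zero]


theorem dom_sigma {t : ℂ × ℂ × ℂ} (ht : t ∈ W) (s : ℝ) :
    IsSigmaCompact {z | z ∈ Zc s t ∧ z ∈ cell (bt t) ∧ hh t z ≠ 0} := by
  have hG := dom_continuous_G ht s
  have hF1 := dom_continuous_F ht (1 / 4)
  have hF2 := dom_continuous_F ht (-(1 / 4))
  let Q : ℕ → Set (Fin 4 → ℝ) := fun n => Icc 0 (fun _ => 1 - 1 / ((n : ℝ) + 1))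
  let K : ℕ → Set (ℂ × ℂ) := fun n => vec t '' (Q n) ∩ (Zc s t ∩
    ({z | 1 / ((n : ℝ) + 1) ≤ ‖F (1 / 4) t z‖} ∩ {z | 1 / ((n : ℝ) + 1) ≤ ‖F (-(1 / 4)) t z‖}))
  have hK : ∀ n, IsCompact (K n) := by
    intro n
    refine (isCompact_Icc.image (continuous_vec' t)).inter_right ?_
    refine IsClosed.inter (isClosed_eq hG continuous_const) (IsClosed.inter ?_ ?_)
    · exact isClosed_le continuous_const hF1.norm
    · exact isClosed_le continuous_const hF2.norm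
  have hU : {z | z ∈ Zc s t ∧ z ∈ cell (bt t) ∧ hh t z ≠ 0} = ⋃ n, K n := by
    ext z
    simp only [mem_ofPred_eq, mem_iUnion]
    constructor
    · rintro ⟨z1, z2, z3⟩
      obtain ⟨y, hy, rfl⟩ := (mem_cell_iff _ _).1 z2
      have f1 : F (1 / 4) t (vec t y) ≠ 0 := by
        intro h; apply z3; rw [hh, h]; simp
      have f2 : F (-(1 / 4)) t (vec t y) ≠ 0 := by
        intro h; apply z3; rw [hh, h]; simp
      have g1 : Tendsto (fun n : ℕ => 1 / ((n : ℝ) + 1)) atTop (𝓝 0) :=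
        tendsto_one_div_add_atTop_nhds_zero_nat
      have a1 := g1.eventually (eventually_le_nhds (norm_pos_iff.2 f1))
      have a2 := g1.eventually (eventually_le_nhds (norm_pos_iff.2 f2))
      have a3 : ∀ i, ∀ᶠ n : ℕ in atTop, 1 / ((n : ℝ) + 1) ≤ 1 - y i := fun i =>
        g1.eventually (eventually_le_nhds (by linarith [(hy i).2]))
      obtain ⟨n, n1, n2, n3⟩ := (a1.and (a2.and (eventually_all.2 a3))).exists
      refine ⟨n, ⟨y, ⟨fun i => (hy i).1, fun i => ?_⟩, rfl⟩, z1, n1, n2⟩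
      have := n3 i
      show y i ≤ 1 - 1 / ((n : ℝ) + 1)
      linarith
    · rintro ⟨n, ⟨y, hy, rfl⟩, z1, n1, n2⟩
      have hn : (0 : ℝ) < 1 / ((n : ℝ) + 1) := by positivity
      refine ⟨z1, (mem_cell_iff _ _).2 ⟨y, fun i => ⟨hy.1 i, ?_⟩, rfl⟩, ?_⟩
      · have := hy.2 i
        have h2 : y i ≤ 1 - 1 / ((n : ℝ) + 1) := this
        linarith
      · have f1 : F (1 / 4) t (vec t y) ≠ 0 := norm_pos_iff.1 (hn.trans_le n1)
        have f2 : F (-(1 / 4)) t (vec t y) ≠ 0 := norm_pos_iff.1 (hn.trans_le n2)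
        exact pow_ne_zero 2 (div_ne_zero f1 f2)
  rw [hU]
  exact isSigmaCompact_iUnion_of_isCompact K hK

theorem dom_meas (s : ℝ) (hs : s = 1 / 4 ∨ s = -(1 / 4)) {l : ℂ × ℂ} (h1 : l.1 ≠ 0)
    (h2 : l.2 ≠ 0) : ∀ᶠ p : (ℂ × ℂ × ℂ) × (ℂ × ℂ) in 𝓝 (t0, l), Measurable (SS s p) := by
  obtain ⟨N, hN⟩ := count s hs h1 h2
  have hW : ∀ᶠ p : (ℂ × ℂ × ℂ) × (ℂ × ℂ) in 𝓝 (t0, l), p.1 ∈ W :=
    (continuous_fst.tendsto _) W_nhds
  filter_upwards [hN, hW] with p hN hW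
  have hsub : ∀ w, {z | z ∈ {z | z ∈ Zc s p.1 ∧ z ∈ cell (bt p.1) ∧ hh p.1 z ≠ 0} ∧
      lin p.2 z = w} ⊆ {z | z ∈ Zc s p.1 ∧ z ∈ cell (bt p.1) ∧ lin p.2 z = w} := by
    rintro w z ⟨⟨z1, z2, _⟩, z4⟩
    exact ⟨z1, z2, z4⟩
  have hcont : ContinuousOn (fun z => Real.log ‖hh p.1 z‖)
      {z | z ∈ Zc s p.1 ∧ z ∈ cell (bt p.1) ∧ hh p.1 z ≠ 0} := by
    rintro z ⟨_, _, z3⟩
    have f2 : F (-(1 / 4)) p.1 z ≠ 0 := by
      intro h; apply z3; rw [hh, h]; simp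
    have hc : ContinuousAt (hh p.1) z := by
      unfold hh
      exact ((dom_continuous_F hW _).continuousAt.div (dom_continuous_F hW _).continuousAt f2).pow 2
    exact (hc.norm.log (norm_ne_zero_iff.2 z3)).continuousWithinAt
  have hl : Continuous (lin p.2) := continuous_lin.comp (Continuous.prodMk_right p.2)
  have := meas_fibre (dom_sigma hW s) hl hcont (fun w => (hN w).1.subset (hsub w))
  convert this using 2 with w
  rw [SS]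
  apply finsum_mem_inter_support_eq
  ext z
  simp only [mem_inter_iff, mem_ofPred_eq, Function.mem_support]
  constructor
  · rintro ⟨⟨z1, z2, z3⟩, z4⟩
    refine ⟨⟨⟨z1, z2, ?_⟩, z3⟩, z4⟩
    intro h; rw [h] at z4; simp at z4
  · rintro ⟨⟨⟨z1, z2, _⟩, z3⟩, z4⟩
    exact ⟨⟨z1, z2, z3⟩, z4⟩

theorem dom_a_continuous (s : ℝ) (k : Bool × Fin 4) : Continuous (dom_a s k) := by
  unfold dom_a
  have h : Continuous fun p : (ℂ × ℂ × ℂ) × (ℂ × ℂ) =>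
      (p.2, vec p.1 (pts s (dom_sg k.1) k.2)) :=
    continuous_snd.prodMk (continuous_vec.comp (continuous_fst.prodMk continuous_const))
  exact continuous_lin.comp h

theorem reg_tendsto (s : ℝ) (hs : s = 1 / 4 ∨ s = -(1 / 4)) {l : ℂ × ℂ} (h1 : l.1 ≠ 0)
    (h2 : l.2 ≠ 0) :
    Tendsto (fun p => ∫ w, SS s p w) (𝓝 (t0, l)) (𝓝 (∫ w, SS s (t0, l) w)) ∧
      Integrable (SS s (t0, l)) := by
  obtain ⟨C, R, hb⟩ := dom_bound s hs h1 h2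
  have := log_dct (L := 𝓝 (t0, l)) (S := SS s) (S0 := SS s (t0, l)) (a := dom_a s)
    (a0 := fun k => dom_a s k (t0, l)) (fun k => (dom_a_continuous s k).tendsto _) (C := C)
    (R := R) hb ((dom_meas s hs h1 h2).mono fun p hp => hp.aestronglyMeasurable)
    (hur s hs h1 h2)
  exact ⟨this.1, this.2.1⟩

end Pool.Agent.Helper14.AS
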