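import Pool.Agent.Helper14.AS.EvalCore
import Pool.Agent.Helper14.AS.ThB
import Pool.Agent.Helper14.AS.ThZ

/-!
# The regulator at the product point, final form
-/

set_option autoImplicit false

noncomputable section

namespace Pool.Agent.Helper14.AS

open Complex MeasureTheory Set Filter Topology Metric

theorem eval {l : ℂ × ℂ} (h1 : l.1 ≠ 0) (h2 : l.2 ≠ 0)
    (hi : Integrable (SS (1 / 4) (t0, l))) (hi' : Integrable (SS (-(1 / 4)) (t0, l))) :
    (∫ w, SS (1 / 4) (t0, l) w) - ∫ w, SS (-(1 / 4)) (t0, l) w = kap * ‖l.2‖ ^ 2 :=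
  EvalAux.eval_core th_t0 jt_zero_iff h1 h2 hi hi'

end Pool.Agent.Helper14.AS
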