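import Pool.Agent.Helper14.AS.Objs

/-!
# The regulator at the product point
-/

set_option autoImplicit false
set_option linter.unusedSectionVars false

noncomputable section

namespace Pool.Agent.Helper14.AS

open Complex MeasureTheory Set Filter Topology Metric

namespace EvalAux

/-- the half open unit square -/
def Qs : Set ℂ := {u | (0 ≤ u.re ∧ u.re < 1) ∧ (0 ≤ u.im ∧ u.im < 1)}

theorem mem_cell_t0 (z : ℂ × ℂ) : z ∈ cell (bt t0) ↔ z.1 ∈ Qs ∧ z.2 ∈ Qs := by
  constructor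
  · rintro ⟨x, hx, rfl⟩
    have h0 := hx 0
    have h1 := hx 1
    have h2 := hx 2
    have h3 := hx 3
    simp only [Fin.sum_univ_four, bt, t0, Qs, mem_ofPred_eq]
    simp
    exact ⟨⟨⟨h0.1, h0.2⟩, h2.1, h2.2⟩, ⟨⟨h1.1, h1.2⟩, h3.1, h3.2⟩⟩
  · rintro ⟨⟨⟨a1, a2⟩, a3, a4⟩, ⟨b1, b2⟩, b3, b4⟩
    refine ⟨![z.1.re, z.2.re, z.1.im, z.2.im], ?_, ?_⟩
    · intro i
      fin_cases i
      · exact ⟨a1, a2⟩
      · exact ⟨b1, b2⟩
      · exact ⟨a3, a4⟩
      · exact ⟨b3, b4⟩
    · simp only [Fin.sum_univ_four, bt, t0]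
      refine Prod.ext (Complex.ext ?_ ?_) (Complex.ext ?_ ?_) <;> simp

theorem measurableSet_Qs : MeasurableSet Qs := by
  unfold Qs
  exact ((measurableSet_le measurable_const Complex.measurable_re).inter
    (measurableSet_lt Complex.measurable_re measurable_const)).inter
    ((measurableSet_le measurable_const Complex.measurable_im).inter
    (measurableSet_lt Complex.measurable_im measurable_const))

theorem volume_Qs : volume Qs = 1 := by
  have h := Complex.volume_preserving_equiv_real_prod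
  have h2 : Complex.measurableEquivRealProd ⁻¹' (Ico (0 : ℝ) 1 ×ˢ Ico (0 : ℝ) 1) = Qs := by
    ext u
    simp [Qs, Complex.measurableEquivRealProd, mem_prod]
  rw [← h2, h.measure_preimage]
  · rw [Measure.volume_eq_prod, Measure.prod_prod]; simp
  · exact (measurableSet_Ico.prod measurableSet_Ico).nullMeasurableSet

open Classical in
/-- the area of a similar copy of the square -/
theorem integral_indicator_square {c d : ℂ} (hd : d ≠ 0) (k : ℝ) :
    ∫ w : ℂ, (if (w - c) / d ∈ Qs then k else 0) = k * ‖d‖ ^ 2 := by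
  have hset : {w : ℂ | (w - c) / d ∈ Qs} = (fun w => w - c) ⁻¹' ((fun w => w / d) ⁻¹' Qs) := rfl
  have hm1 : MeasurableSet ((fun w : ℂ => w / d) ⁻¹' Qs) :=
    (measurable_id.div_const d) measurableSet_Qs
  have hm : MeasurableSet {w : ℂ | (w - c) / d ∈ Qs} := by
    rw [hset]; exact (measurable_id.sub_const c) hm1
  have hvol : volume {w : ℂ | (w - c) / d ∈ Qs} = ENNReal.ofReal (‖d‖ ^ 2) := by
    have hset2 : {w : ℂ | (w - c) / d ∈ Qs} =
        (fun w => w + -c) ⁻¹' ((fun w => w / d) ⁻¹' Qs) := by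
      ext w; simp only [mem_preimage, ← sub_eq_add_neg]; rfl
    rw [hset2, measure_preimage_add_right]
    have h3 : (fun w : ℂ => w / d) ⁻¹' Qs = (LinearMap.mulLeft ℝ d) '' Qs := by
      ext w
      simp only [mem_preimage, mem_image, LinearMap.mulLeft_apply]
      constructor
      · intro h; exact ⟨w / d, h, by field_simp⟩
      · rintro ⟨x, hx, rfl⟩
        rwa [mul_div_cancel_left₀ x hd]
    rw [h3, Measure.addHaar_image_linearMap, volume_Qs, mul_one]
    congr 1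
    have h4 : LinearMap.det (LinearMap.mulLeft ℝ d) = Complex.normSq d := by
      rw [← Algebra.norm_complex_apply, Algebra.norm_apply]
      rfl
    rw [h4, Complex.normSq_eq_norm_sq, abs_of_nonneg (by positivity)]
  have h5 : (fun w : ℂ => if (w - c) / d ∈ Qs then k else 0) =
      {w : ℂ | (w - c) / d ∈ Qs}.indicator (fun _ => k) := by
    ext w
    simp only [indicator_apply, mem_ofPred_eq]
  rw [h5, integral_indicator hm, setIntegral_const, smul_eq_mul, mul_comm]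
  congr 1
  rw [measureReal_def, hvol, ENNReal.toReal_ofReal (by positivity)]

/-- the zero of the first factor -/
def aa (s : ℝ) : ℂ := ((1 / 2 - s : ℝ) : ℂ) + I / 2

/-- the zero of the second factor -/
def bb : ℂ := 1 / 2 + I / 2

theorem aa_mem {s : ℝ} (hs : s = 1 / 4 ∨ s = -(1 / 4)) : aa s ∈ Qs := by
  rcases hs with rfl | rfl <;> simp [aa, Qs] <;> norm_num

theorem bb_mem : bb ∈ Qs := by
  simp [bb, Qs]; norm_num

section zeros

variable (hz : ∀ z : ℂ, jacobiTheta₂ z I = 0 ↔ ∃ m n : ℤ, z = (1 + I) / 2 + m + n * I)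

include hz in
theorem zero_aa {s : ℝ} (hs : s = 1 / 4 ∨ s = -(1 / 4)) {u : ℂ} (hu : u ∈ Qs) :
    jacobiTheta₂ (u + s) I = 0 ↔ u = aa s := by
  rw [hz]
  obtain ⟨⟨h1, h2⟩, h3, h4⟩ := hu
  constructor
  · rintro ⟨m, n, h⟩
    have hre := congrArg Complex.re h
    have him := congrArg Complex.im h
    simp at hre him
    have hn : n = 0 := by
      have a1 : (n : ℝ) < 1 := by linarith
      have a2 : (-1 : ℝ) < n := by linarith
      have b1 : n < 1 := by exact_mod_cast a1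
      have b2 : -1 < n := by exact_mod_cast a2
      omega
    have hm : m = 0 := by
      have a1 : (m : ℝ) < 1 := by rcases hs with rfl | rfl <;> linarith
      have a2 : (-1 : ℝ) < m := by rcases hs with rfl | rfl <;> linarith
      have b1 : m < 1 := by exact_mod_cast a1
      have b2 : -1 < m := by exact_mod_cast a2
      omega
    subst hn hm
    apply Complex.ext
    · simp [aa] at hre ⊢; linarith
    · simp [aa] at him ⊢; linarith
  · rintro rfl
    refine ⟨0, 0, ?_⟩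
    simp only [aa]
    push_cast
    ring

include hz in
theorem zero_bb {u : ℂ} (hu : u ∈ Qs) : jacobiTheta₂ u I = 0 ↔ u = bb := by
  rw [hz]
  obtain ⟨⟨h1, h2⟩, h3, h4⟩ := hu
  constructor
  · rintro ⟨m, n, h⟩
    have hre := congrArg Complex.re h
    have him := congrArg Complex.im h
    simp at hre him
    have hn : n = 0 := by
      have a1 : (n : ℝ) < 1 := by linarith
      have a2 : (-1 : ℝ) < n := by linarith
      have b1 : n < 1 := by exact_mod_cast a1
      have b2 : -1 < n := by exact_mod_cast a2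
      omega
    have hm : m = 0 := by
      have a1 : (m : ℝ) < 1 := by linarith
      have a2 : (-1 : ℝ) < m := by linarith
      have b1 : m < 1 := by exact_mod_cast a1
      have b2 : -1 < m := by exact_mod_cast a2
      omega
    subst hn hm
    apply Complex.ext
    · simp [bb] at hre ⊢; linarith
    · simp [bb] at him ⊢; linarith
  · rintro rfl
    refine ⟨0, 0, ?_⟩
    simp only [bb]
    push_cast
    ring

include hz in
theorem zero_shift {u : ℂ} (hu : u ∈ Qs) : jacobiTheta₂ (u - 1 / 2) I = 0 ↔ u = I / 2 := by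
  rw [hz]
  obtain ⟨⟨h1, h2⟩, h3, h4⟩ := hu
  constructor
  · rintro ⟨m, n, h⟩
    have hre := congrArg Complex.re h
    have him := congrArg Complex.im h
    simp at hre him
    have hn : n = 0 := by
      have a1 : (n : ℝ) < 1 := by linarith
      have a2 : (-1 : ℝ) < n := by linarith
      have b1 : n < 1 := by exact_mod_cast a1
      have b2 : -1 < n := by exact_mod_cast a2
      omega
    have hm : m = -1 := by
      have a1 : (m : ℝ) < 0 := by linarith
      have a2 : (-2 : ℝ) < m := by linarith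
      have b1 : m < 0 := by exact_mod_cast a1
      have b2 : -2 < m := by exact_mod_cast a2
      omega
    subst hn hm
    apply Complex.ext
    · simp at hre ⊢; linarith
    · simp at him ⊢; linarith
  · rintro rfl
    refine ⟨-1, 0, ?_⟩
    push_cast
    ring

end zeros

/-- the contribution of the component `z₂ = bb` -/
def g2 (l : ℂ × ℂ) (w : ℂ) : ℝ :=
  open Classical in
  if (w - l.2 * bb) / l.1 ∈ Qs then Real.log ‖hh t0 ((w - l.2 * bb) / l.1, bb)‖ else 0

/-- the value of `log |hh|` on the component `z₁ = aa s` -/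
def ks (s : ℝ) : ℝ :=
  2 * (Real.log ‖jacobiTheta₂ (aa s + 1 / 4 - I / 2) I‖ -
    Real.log ‖jacobiTheta₂ (aa s - 1 / 4 - I / 2) I‖)

section core

variable (hth : ∀ z : ℂ × ℂ, th t0 z = jacobiTheta₂ z.1 I * jacobiTheta₂ z.2 I)
  (hz : ∀ z : ℂ, jacobiTheta₂ z I = 0 ↔ ∃ m n : ℤ, z = (1 + I) / 2 + m + n * I)

include hth in
theorem hh_t0 (z : ℂ × ℂ) : hh t0 z =
    ((jacobiTheta₂ (z.1 + 1 / 4 - I / 2) I * jacobiTheta₂ (z.2 - 1 / 2) I) /
      (jacobiTheta₂ (z.1 - 1 / 4 - I / 2) I * jacobiTheta₂ (z.2 - 1 / 2) I)) ^ 2 := by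
  unfold hh F
  rw [hth, hth]
  simp only [fp, t0]
  have e1 : z.1 + ((1 / 4 : ℝ) : ℂ) - I / 2 = z.1 + 1 / 4 - I / 2 := by push_cast; ring
  have e2 : z.1 + ((-(1 / 4) : ℝ) : ℂ) - I / 2 = z.1 - 1 / 4 - I / 2 := by push_cast; ring
  have e3 : z.2 - 0 / 2 - 1 / 2 = z.2 - 1 / 2 := by ring
  rw [e1, e2, e3]

include hth hz in
theorem log_hh_aa {s : ℝ} {v : ℂ} (hv : v ∈ Qs) (hv' : v ≠ I / 2)
    (h1 : jacobiTheta₂ (aa s + 1 / 4 - I / 2) I ≠ 0)
    (h2 : jacobiTheta₂ (aa s - 1 / 4 - I / 2) I ≠ 0) :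
    Real.log ‖hh t0 (aa s, v)‖ = ks s := by
  have h3 : jacobiTheta₂ (v - 1 / 2) I ≠ 0 := fun h => hv' ((zero_shift hz hv).1 h)
  rw [hh_t0 hth, mul_div_mul_right _ _ h3, norm_pow, Real.log_pow, norm_div,
    Real.log_div (norm_ne_zero_iff.2 h1) (norm_ne_zero_iff.2 h2)]
  unfold ks
  push_cast
  ring

include hth hz in
theorem mem_fibre {s : ℝ} (hs : s = 1 / 4 ∨ s = -(1 / 4)) {l : ℂ × ℂ} (h1 : l.1 ≠ 0)
    (h2 : l.2 ≠ 0) (w : ℂ) (z : ℂ × ℂ) :
    (z ∈ Zc s t0 ∧ z ∈ cell (bt t0) ∧ lin l z = w) ↔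
      ((w - l.1 * aa s) / l.2 ∈ Qs ∧ z = (aa s, (w - l.1 * aa s) / l.2)) ∨
      ((w - l.2 * bb) / l.1 ∈ Qs ∧ z = ((w - l.2 * bb) / l.1, bb)) := by
  have hZ : z ∈ Zc s t0 ↔ jacobiTheta₂ (z.1 + s) I = 0 ∨ jacobiTheta₂ z.2 I = 0 := by
    unfold Zc G gp
    rw [mem_ofPred_eq, hth, mul_eq_zero]
  rw [hZ, mem_cell_t0]
  unfold lin
  constructor
  · rintro ⟨hor, ⟨hq1, hq2⟩, hw⟩
    rcases hor with h | h
    · left
      rw [zero_aa hz hs hq1] at h
      have e : (w - l.1 * aa s) / l.2 = z.2 := by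
        rw [← hw, h]; field_simp; ring
      rw [e]
      exact ⟨hq2, Prod.ext h rfl⟩
    · right
      rw [zero_bb hz hq2] at h
      have e : (w - l.2 * bb) / l.1 = z.1 := by
        rw [← hw, h]; field_simp; ring
      rw [e]
      exact ⟨hq1, Prod.ext rfl h⟩
  · rintro (⟨hq, rfl⟩ | ⟨hq, rfl⟩)
    · refine ⟨Or.inl ((zero_aa hz hs (aa_mem hs)).2 rfl), ⟨aa_mem hs, hq⟩, ?_⟩
      show l.1 * aa s + l.2 * ((w - l.1 * aa s) / l.2) = w
      rw [mul_div_cancel₀ _ h2]; ring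
    · refine ⟨Or.inr ((zero_bb hz bb_mem).2 rfl), ⟨hq, bb_mem⟩, ?_⟩
      show l.1 * ((w - l.2 * bb) / l.1) + l.2 * bb = w
      rw [mul_div_cancel₀ _ h1]; ring

open Classical in
include hth hz in
theorem SS_eq {s : ℝ} (hs : s = 1 / 4 ∨ s = -(1 / 4)) {l : ℂ × ℂ} (h1 : l.1 ≠ 0)
    (h2 : l.2 ≠ 0) (k1 : jacobiTheta₂ (aa s + 1 / 4 - I / 2) I ≠ 0)
    (k2 : jacobiTheta₂ (aa s - 1 / 4 - I / 2) I ≠ 0) {w : ℂ}
    (hw1 : w ≠ l.1 * aa s + l.2 * bb) (hw2 : w ≠ l.1 * aa s + l.2 * (I / 2)) :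
    SS s (t0, l) w = (if (w - l.1 * aa s) / l.2 ∈ Qs then ks s else 0) + g2 l w := by
  have hset : {z | z ∈ Zc s t0 ∧ z ∈ cell (bt t0) ∧ lin l z = w} =
      {z | ((w - l.1 * aa s) / l.2 ∈ Qs ∧ z = (aa s, (w - l.1 * aa s) / l.2)) ∨
      ((w - l.2 * bb) / l.1 ∈ Qs ∧ z = ((w - l.2 * bb) / l.1, bb))} := by
    ext z; exact mem_fibre hth hz hs h1 h2 w z
  have hv' : (w - l.1 * aa s) / l.2 ≠ I / 2 := by
    intro h
    rw [div_eq_iff h2] at h
    apply hw2
    linear_combination h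
  have hne : ((aa s, (w - l.1 * aa s) / l.2) : ℂ × ℂ) ≠ ((w - l.2 * bb) / l.1, bb) := by
    intro h
    have h3 := congrArg Prod.snd h
    simp only at h3
    rw [div_eq_iff h2] at h3
    apply hw1
    linear_combination h3
  unfold SS g2
  simp only
  rw [hset]
  by_cases c1 : (w - l.1 * aa s) / l.2 ∈ Qs
  · have hl := log_hh_aa hth hz c1 hv' k1 k2
    by_cases c2 : (w - l.2 * bb) / l.1 ∈ Qs
    · have hs2 : {z | ((w - l.1 * aa s) / l.2 ∈ Qs ∧ z = (aa s, (w - l.1 * aa s) / l.2)) ∨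
          ((w - l.2 * bb) / l.1 ∈ Qs ∧ z = ((w - l.2 * bb) / l.1, bb))} =
          {(aa s, (w - l.1 * aa s) / l.2), ((w - l.2 * bb) / l.1, bb)} := by
        ext z; simp [c1, c2]
      rw [hs2, finsum_mem_pair hne, if_pos c1, if_pos c2, hl]
    · have hs2 : {z | ((w - l.1 * aa s) / l.2 ∈ Qs ∧ z = (aa s, (w - l.1 * aa s) / l.2)) ∨
          ((w - l.2 * bb) / l.1 ∈ Qs ∧ z = ((w - l.2 * bb) / l.1, bb))} =
          {(aa s, (w - l.1 * aa s) / l.2)} := by
        ext z; simp [c1, c2]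
      rw [hs2, finsum_mem_singleton, if_pos c1, if_neg c2, hl, add_zero]
  · by_cases c2 : (w - l.2 * bb) / l.1 ∈ Qs
    · have hs2 : {z | ((w - l.1 * aa s) / l.2 ∈ Qs ∧ z = (aa s, (w - l.1 * aa s) / l.2)) ∨
          ((w - l.2 * bb) / l.1 ∈ Qs ∧ z = ((w - l.2 * bb) / l.1, bb))} =
          {((w - l.2 * bb) / l.1, bb)} := by
        ext z; simp [c1, c2]
      rw [hs2, finsum_mem_singleton, if_neg c1, if_pos c2, zero_add]
    · have hs2 : {z | ((w - l.1 * aa s) / l.2 ∈ Qs ∧ z = (aa s, (w - l.1 * aa s) / l.2)) ∨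
          ((w - l.2 * bb) / l.1 ∈ Qs ∧ z = ((w - l.2 * bb) / l.1, bb))} = (∅ : Set (ℂ × ℂ)) := by
        ext z; simp [c1, c2]
      rw [hs2, finsum_mem_empty, if_neg c1, if_neg c2, add_zero]

include hz in
theorem theta_ne_zero_of_im {u : ℂ} (hu : u.im = 0) : jacobiTheta₂ u I ≠ 0 := by
  intro h
  obtain ⟨m, n, h⟩ := (hz u).1 h
  have him := congrArg Complex.im h
  simp [hu] at him
  have h3 : (2 * n + 1 : ℤ) = 0 := by
    have : (2 * (n : ℝ) + 1) = 0 := by linarith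
    exact_mod_cast this
  omega

include hth hz in
/-- `eval` from `th_t0` and `jt_zero_iff`. -/
theorem eval_core {l : ℂ × ℂ} (h1 : l.1 ≠ 0) (h2 : l.2 ≠ 0)
    (hi : Integrable (SS (1 / 4) (t0, l))) (hi' : Integrable (SS (-(1 / 4)) (t0, l))) :
    (∫ w, SS (1 / 4) (t0, l) w) - ∫ w, SS (-(1 / 4)) (t0, l) w = kap * ‖l.2‖ ^ 2 := by
  classical
  have hs : (1 / 4 : ℝ) = 1 / 4 ∨ (1 / 4 : ℝ) = -(1 / 4) := Or.inl rfl
  have hs' : (-(1 / 4) : ℝ) = 1 / 4 ∨ (-(1 / 4) : ℝ) = -(1 / 4) := Or.inr rfl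
  have e1 : aa (1 / 4) + 1 / 4 - I / 2 = 1 / 2 := by simp only [aa]; push_cast; ring
  have e2 : aa (1 / 4) - 1 / 4 - I / 2 = 0 := by simp only [aa]; push_cast; ring
  have e3 : aa (-(1 / 4)) + 1 / 4 - I / 2 = 0 + 1 := by simp only [aa]; push_cast; ring
  have e4 : aa (-(1 / 4)) - 1 / 4 - I / 2 = 1 / 2 := by simp only [aa]; push_cast; ring
  have n1 : jacobiTheta₂ (1 / 2) I ≠ 0 := theta_ne_zero_of_im hz (by simp)
  have n2 : jacobiTheta₂ 0 I ≠ 0 := theta_ne_zero_of_im hz (by simp)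
  have n3 : jacobiTheta₂ (0 + 1) I ≠ 0 := by rw [jacobiTheta₂_add_left]; exact n2
  have hk1 : ks (1 / 4) = kap / 2 := by
    unfold ks kap; rw [e1, e2]; ring
  have hk2 : ks (-(1 / 4)) = -(kap / 2) := by
    unfold ks kap; rw [e3, e4, jacobiTheta₂_add_left]; ring
  rw [← integral_sub hi hi']
  have hae : (fun w => SS (1 / 4) (t0, l) w - SS (-(1 / 4)) (t0, l) w) =ᵐ[volume]
      fun w => (if (w - l.1 * aa (1 / 4)) / l.2 ∈ Qs then kap / 2 else 0) +
        (if (w - l.1 * aa (-(1 / 4))) / l.2 ∈ Qs then kap / 2 else 0) := by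
    have hfin : ({l.1 * aa (1 / 4) + l.2 * bb, l.1 * aa (1 / 4) + l.2 * (I / 2),
        l.1 * aa (-(1 / 4)) + l.2 * bb, l.1 * aa (-(1 / 4)) + l.2 * (I / 2)} : Set ℂ).Finite :=
      Set.toFinite _
    have hnull := hfin.measure_zero volume
    filter_upwards [compl_mem_ae_iff.2 hnull] with w hw
    simp only [mem_compl_iff, mem_insert_iff, mem_singleton_iff, not_or] at hw
    obtain ⟨w1, w2, w3, w4⟩ := hw
    rw [SS_eq hth hz hs h1 h2 (by rw [e1]; exact n1) (by rw [e2]; exact n2) w1 w2,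
      SS_eq hth hz hs' h1 h2 (by rw [e3]; exact n3) (by rw [e4]; exact n1) w3 w4, hk1, hk2]
    split_ifs <;> ring
  rw [integral_congr_ae hae]
  have hint : ∀ c : ℂ, Integrable (fun w : ℂ => if (w - c) / l.2 ∈ Qs then kap / 2 else 0) := by
    intro c
    by_contra hcon
    have h3 := integral_indicator_square (c := c) h2 1
    have h4 := integral_undef (μ := (volume : Measure ℂ))
      (f := fun w : ℂ => if (w - c) / l.2 ∈ Qs then (1 : ℝ) else 0)
      (fun hI => hcon (by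
        have h5 := hI.const_mul (kap / 2)
        refine h5.congr (Filter.Eventually.of_forall fun w => ?_)
        simp only
        split_ifs <;> ring))
    rw [h4] at h3
    have : (0 : ℝ) < 1 * ‖l.2‖ ^ 2 := by
      have := norm_pos_iff.2 h2
      positivity
    linarith
  rw [integral_add (hint _) (hint _), integral_indicator_square h2, integral_indicator_square h2]
  ring

end core

end EvalAux

end Pool.Agent.Helper14.AS
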