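import Pool.Agent.Helper14.AS.Objs

/-! SYM: rational symplectic frames near a unitary frame, period matrices (Riemann relations). -/

noncomputable section

namespace Pool.Agent.Helper14.AS

open Complex MeasureTheory Set Filter Topology Metric

/-- Rational combinations of the basis `b`. -/
def QS (b : Module.Basis (Fin 4) ℝ (ℂ × ℂ)) : Submodule ℚ (ℂ × ℂ) :=
  Submodule.span ℚ (Set.range b)

lemma dense_QS (b : Module.Basis (Fin 4) ℝ (ℂ × ℂ)) : Dense (QS b : Set (ℂ × ℂ)) := by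
  have hcont : Continuous fun c : Fin 4 → ℝ => ∑ i, c i • b i := by fun_prop
  have hsurj : Function.Surjective fun c : Fin 4 → ℝ => ∑ i, c i • b i := by
    intro v
    exact ⟨fun i => b.repr v i, b.sum_repr v⟩
  have hd : DenseRange fun c : Fin 4 → ℚ => fun i => ((c i : ℚ) : ℝ) := by
    exact DenseRange.piMap fun _ => Rat.denseRange_cast
  have h2 := hsurj.denseRange.comp hd hcont
  refine h2.mono ?_
  rintro _ ⟨c, rfl⟩
  simp only [Function.comp]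
  refine Submodule.sum_mem _ fun i _ => ?_
  have : (((c i : ℚ) : ℝ)) • b i = (c i) • b i := by
    exact (Rat.cast_smul_eq_qsmul ℝ (c i) (b i))
  rw [this]
  exact Submodule.smul_mem _ _ (Submodule.subset_span ⟨i, rfl⟩)

/-- `E` takes rational values on rational vectors. -/
lemma rat_QS (b : Module.Basis (Fin 4) ℝ (ℂ × ℂ)) (E : (ℂ × ℂ) →ₗ[ℝ] (ℂ × ℂ) →ₗ[ℝ] ℝ)
    (hr : ∀ i j, ∃ q : ℚ, E (b i) (b j) = q) {u v : ℂ × ℂ} (hu : u ∈ QS b) (hv : v ∈ QS b) :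
    ∃ q : ℚ, E u v = q := by
  have hsm : ∀ (q : ℚ) (w : ℂ × ℂ), q • w = (q : ℝ) • w := fun q w =>
    (Rat.cast_smul_eq_qsmul ℝ q w).symm
  induction hu using Submodule.span_induction with
  | mem x hx =>
    obtain ⟨i, rfl⟩ := hx
    induction hv using Submodule.span_induction with
    | mem y hy => obtain ⟨j, rfl⟩ := hy; exact hr i j
    | zero => exact ⟨0, by simp⟩
    | add y z _ _ hy hz =>
      obtain ⟨q, hq⟩ := hy
      obtain ⟨r, hr⟩ := hz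
      exact ⟨q + r, by rw [map_add, hq, hr]; push_cast; ring⟩
    | smul a y _ hy =>
      obtain ⟨q, hq⟩ := hy
      exact ⟨a * q, by rw [hsm, map_smul, hq, smul_eq_mul]; push_cast; ring⟩
  | zero => exact ⟨0, by simp⟩
  | add y z _ _ hy hz =>
    obtain ⟨q, hq⟩ := hy
    obtain ⟨r, hr⟩ := hz
    exact ⟨q + r, by rw [map_add, LinearMap.add_apply, hq, hr]; push_cast; ring⟩
  | smul a y _ hy =>
    obtain ⟨q, hq⟩ := hy
    exact ⟨a * q, by rw [hsm, map_smul, LinearMap.smul_apply, hq, smul_eq_mul]; push_cast; ring⟩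

/-- Symplectic frames. -/
structure SF (E : (ℂ × ℂ) →ₗ[ℝ] (ℂ × ℂ) →ₗ[ℝ] ℝ) (m1 m2 n1 n2 : ℂ × ℂ) : Prop where
  h11 : E m1 n1 = 1
  h22 : E m2 n2 = 1
  h12 : E m1 n2 = 0
  h21 : E m2 n1 = 0
  hm : E m1 m2 = 0
  hn : E n1 n2 = 0

lemma smul_QS {b : Module.Basis (Fin 4) ℝ (ℂ × ℂ)} {u : ℂ × ℂ} (hu : u ∈ QS b) {r : ℝ}
    (hr : ∃ q : ℚ, r = q) : r • u ∈ QS b := by
  obtain ⟨q, rfl⟩ := hr
  rw [Rat.cast_smul_eq_qsmul ℝ q u]
  exact Submodule.smul_mem _ _ hu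

/-- Gram-Schmidt. -/
lemma gs {E : (ℂ × ℂ) →ₗ[ℝ] (ℂ × ℂ) →ₗ[ℝ] ℝ} (ha : ∀ u v, E u v = - E v u)
    {m1 m2 n1 n2 : ℂ × ℂ} (h1 : E m1 n1 ≠ 0) {n1' m2' n2'' n2' : ℂ × ℂ}
    (e1 : n1' = (E m1 n1)⁻¹ • n1)
    (e2 : m2' = m2 + (-E m2 n1') • m1 + (E m2 m1) • n1')
    (e3 : n2'' = n2 + (-E n2 n1') • m1 + (E n2 m1) • n1')
    (h2 : E m2' n2'' ≠ 0)
    (e4 : n2' = (E m2' n2'')⁻¹ • n2'') : SF E m1 m2' n1' n2' := by
  have h0 : ∀ u, E u u = 0 := fun u => by linarith [ha u u]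
  have a11 : E m1 n1' = 1 := by
    rw [e1, map_smul, smul_eq_mul, inv_mul_cancel₀ h1]
  have a11' : E n1' m1 = -1 := by rw [ha, a11]
  have b1 : E m2' m1 = 0 := by
    rw [e2]; simp [a11', h0]
  have b2 : E m2' n1' = 0 := by
    rw [e2]; simp [a11, h0]
  have b3 : E n2'' m1 = 0 := by
    rw [e3]; simp [a11', h0]
  have b4 : E n2'' n1' = 0 := by
    rw [e3]; simp [a11, h0]
  refine ⟨a11, ?_, ?_, b2, ?_, ?_⟩
  · rw [e4, map_smul, smul_eq_mul, inv_mul_cancel₀ h2]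
  · rw [ha, e4, map_smul, LinearMap.smul_apply, b3]; simp
  · rw [ha, b1, neg_zero]
  · rw [ha, e4, map_smul, LinearMap.smul_apply, b4]; simp

/-- Rational symplectic frames are dense among the real ones. -/
theorem exists_near (b : Module.Basis (Fin 4) ℝ (ℂ × ℂ)) (E : (ℂ × ℂ) →ₗ[ℝ] (ℂ × ℂ) →ₗ[ℝ] ℝ)
    (hr : ∀ i j, ∃ q : ℚ, E (b i) (b j) = q) (ha : ∀ u v, E u v = - E v u)
    {e1 e2 f1 f2 : ℂ × ℂ} (hS : SF E e1 e2 f1 f2)
    {W : Set ((ℂ × ℂ) × (ℂ × ℂ) × (ℂ × ℂ) × (ℂ × ℂ))} (hW : W ∈ 𝓝 (e1, e2, f1, f2)) :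
    ∃ m1 ∈ QS b, ∃ m2 ∈ QS b, ∃ n1 ∈ QS b, ∃ n2 ∈ QS b,
      (m1, m2, n1, n2) ∈ W ∧ SF E m1 m2 n1 n2 := by
  have hE : Continuous fun p : (ℂ × ℂ) × (ℂ × ℂ) => E p.1 p.2 := by
    let T : ((ℂ × ℂ) →ₗ[ℝ] ℝ) ≃ₗ[ℝ] ((ℂ × ℂ) →L[ℝ] ℝ) := LinearMap.toContinuousLinearMap
    have hF : Continuous (T.toLinearMap ∘ₗ E) := LinearMap.continuous_of_finiteDimensional _
    have := (hF.comp continuous_fst).clm_apply
      (continuous_snd : Continuous fun p : (ℂ × ℂ) × (ℂ × ℂ) => p.2)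
    exact this
  have hEc : ∀ {f g : (ℂ × ℂ) × (ℂ × ℂ) × (ℂ × ℂ) × (ℂ × ℂ) → ℂ × ℂ} {x},
      ContinuousAt f x → ContinuousAt g x → ContinuousAt (fun p => E (f p) (g p)) x := by
    intro f g x hf hg
    exact hE.continuousAt.comp (hf.prodMk hg)
  set x : (ℂ × ℂ) × (ℂ × ℂ) × (ℂ × ℂ) × (ℂ × ℂ) := (e1, e2, f1, f2) with hx
  have h0 : ∀ u, E u u = 0 := fun u => by linarith [ha u u]
  let A : (ℂ × ℂ) × (ℂ × ℂ) × (ℂ × ℂ) × (ℂ × ℂ) → ℂ × ℂ := fun p => p.1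
  let B : (ℂ × ℂ) × (ℂ × ℂ) × (ℂ × ℂ) × (ℂ × ℂ) → ℂ × ℂ := fun p => p.2.1
  let C : (ℂ × ℂ) × (ℂ × ℂ) × (ℂ × ℂ) × (ℂ × ℂ) → ℂ × ℂ := fun p => p.2.2.1
  let D : (ℂ × ℂ) × (ℂ × ℂ) × (ℂ × ℂ) × (ℂ × ℂ) → ℂ × ℂ := fun p => p.2.2.2
  have cA : ContinuousAt A x := by fun_prop
  have cB : ContinuousAt B x := by fun_prop
  have cC : ContinuousAt C x := by fun_prop
  have cD : ContinuousAt D x := by fun_prop
  let N1 := fun p => (E (A p) (C p))⁻¹ • C p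
  have v1 : E (A x) (C x) = 1 := hS.h11
  have cN1 : ContinuousAt N1 x := (ContinuousAt.inv₀ (hEc cA cC) (by rw [v1]; norm_num)).smul cC
  have vN1 : N1 x = f1 := by simp only [N1]; rw [v1]; simp [C, hx]
  let M2 := fun p => B p + (-E (B p) (N1 p)) • A p + (E (B p) (A p)) • N1 p
  have cM2 : ContinuousAt M2 x :=
    (cB.add ((hEc cB cN1).neg.smul cA)).add ((hEc cB cA).smul cN1)
  have vM2 : M2 x = e2 := by
    simp only [M2]; rw [vN1]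
    have h1 : E (B x) f1 = 0 := hS.h21
    have h2 : E (B x) (A x) = 0 := by rw [ha]; simpa [A, B, hx] using hS.hm
    rw [h1, h2]; simp [B, hx]
  let N2 := fun p => D p + (-E (D p) (N1 p)) • A p + (E (D p) (A p)) • N1 p
  have cN2 : ContinuousAt N2 x :=
    (cD.add ((hEc cD cN1).neg.smul cA)).add ((hEc cD cA).smul cN1)
  have vN2 : N2 x = f2 := by
    simp only [N2]; rw [vN1]
    have h1 : E (D x) f1 = 0 := by rw [ha]; simpa [D, hx] using hS.hn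
    have h2 : E (D x) (A x) = 0 := by rw [ha]; simpa [A, D, hx] using hS.h12
    rw [h1, h2]; simp [D, hx]
  let N3 := fun p => (E (M2 p) (N2 p))⁻¹ • N2 p
  have v3 : E (M2 x) (N2 x) = 1 := by rw [vM2, vN2]; exact hS.h22
  have cN3 : ContinuousAt N3 x :=
    (ContinuousAt.inv₀ (hEc cM2 cN2) (by rw [v3]; norm_num)).smul cN2
  have vN3 : N3 x = f2 := by simp only [N3]; rw [v3, vN2]; simp
  let G := fun p => (A p, M2 p, N1 p, N3 p)
  have cG : ContinuousAt G x := cA.prodMk (cM2.prodMk (cN1.prodMk cN3))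
  have vG : G x = x := by
    simp only [G]; rw [vM2, vN1, vN3]
  have hWG : ∀ᶠ p in 𝓝 x, G p ∈ W := by
    apply cG
    rw [vG]
    exact hW
  have hne1 : ∀ᶠ p in 𝓝 x, E (A p) (C p) ≠ 0 :=
    (hEc cA cC).eventually_ne (by rw [v1]; norm_num)
  have hne2 : ∀ᶠ p in 𝓝 x, E (M2 p) (N2 p) ≠ 0 :=
    (hEc cM2 cN2).eventually_ne (by rw [v3]; norm_num)
  have hdense : Dense ((QS b : Set (ℂ × ℂ)) ×ˢ (QS b : Set (ℂ × ℂ)) ×ˢ
      (QS b : Set (ℂ × ℂ)) ×ˢ (QS b : Set (ℂ × ℂ))) :=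
    (dense_QS b).prod ((dense_QS b).prod ((dense_QS b).prod (dense_QS b)))
  obtain ⟨U, hU, hUo, hxU⟩ := _root_.mem_nhds_iff.1 (hWG.and (hne1.and hne2))
  obtain ⟨p, hp, hpU⟩ := hdense.exists_mem_open hUo ⟨x, hxU⟩
  obtain ⟨p1, p2, p3⟩ := hU hpU
  obtain ⟨qA, qB, qC, qD⟩ := hp
  have rN1 : N1 p ∈ QS b := smul_QS qC (by
    obtain ⟨q, hq⟩ := rat_QS b E hr qA qC
    exact ⟨q⁻¹, by rw [show E (A p) (C p) = q from hq]; push_cast; rfl⟩)
  have rneg : ∀ {r : ℝ}, (∃ q : ℚ, r = q) → ∃ q : ℚ, -r = q := by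
    rintro r ⟨q, rfl⟩; exact ⟨-q, by push_cast; rfl⟩
  have rM2 : M2 p ∈ QS b :=
    Submodule.add_mem _ (Submodule.add_mem _ qB (smul_QS qA (rneg (rat_QS b E hr qB rN1))))
      (smul_QS rN1 (rat_QS b E hr qB qA))
  have rN2 : N2 p ∈ QS b :=
    Submodule.add_mem _ (Submodule.add_mem _ qD (smul_QS qA (rneg (rat_QS b E hr qD rN1))))
      (smul_QS rN1 (rat_QS b E hr qD qA))
  have rN3 : N3 p ∈ QS b := smul_QS rN2 (by
    obtain ⟨q, hq⟩ := rat_QS b E hr rM2 rN2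
    exact ⟨q⁻¹, by rw [hq]; push_cast; rfl⟩)
  exact ⟨A p, qA, M2 p, rM2, N1 p, rN1, N3 p, rN3, p1,
    gs ha (n2'' := N2 p) p2 rfl rfl rfl p3 rfl⟩

section
variable {E : (ℂ × ℂ) →ₗ[ℝ] (ℂ × ℂ) →ₗ[ℝ] ℝ}

lemma csmul_eq (a : ℂ) (u : ℂ × ℂ) : a • u = a.re • u + a.im • (I • u) := by
  conv_lhs => rw [← Complex.re_add_im a]
  rw [add_smul, mul_smul, Complex.coe_smul, Complex.coe_smul]

lemma E_smul_smul (hI : ∀ u v, E (I • u) (I • v) = E u v)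
    (a c : ℂ) (u v : ℂ × ℂ) :
    E (a • u) (c • v) = (a.re * c.re + a.im * c.im) * E u v +
      (a.re * c.im - a.im * c.re) * E u (I • v) := by
  have h1 : E (I • u) v = - E u (I • v) := by
    rw [← hI (I • u) v, smul_smul, I_mul_I]; simp
  rw [csmul_eq a u, csmul_eq c v]
  simp only [map_add, map_smul, LinearMap.add_apply, LinearMap.smul_apply, smul_eq_mul, h1, hI]
  ring

/-- Riemann's relations. -/
lemma riemann (ha : ∀ u v, E u v = - E v u) (hI : ∀ u v, E (I • u) (I • v) = E u v)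
    {m1 m2 n1 n2 : ℂ × ℂ} (hS : SF E m1 m2 n1 n2) {x1 y1 x2 y2 : ℂ}
    (h1 : n1 = x1 • m1 + y1 • m2) (h2 : n2 = x2 • m1 + y2 • m2) : y1 = x2 := by
  have h0 : ∀ u, E u u = 0 := fun u => by linarith [ha u u]
  have hIl : ∀ u v, E (I • u) v = - E u (I • v) := fun u v => by
    rw [← hI (I • u) v, smul_smul, I_mul_I]; simp
  have hc : E m2 (I • m1) = E m1 (I • m2) := by
    rw [ha m2, hIl, neg_neg]
  have hm := hS.hm
  have hm' : E m2 m1 = 0 := by rw [ha, hm, neg_zero]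
  have one : ∀ u v : ℂ × ℂ, ∀ c : ℂ, E u (c • v) = c.re * E u v + c.im * E u (I • v) := by
    intro u v c
    have := E_smul_smul hI 1 c u v
    simpa using this
  have r11 := hS.h11
  have r22 := hS.h22
  have r12 := hS.h12
  have r21 := hS.h21
  have rn := hS.hn
  rw [h1] at r11 r21
  rw [h2] at r22 r12
  rw [h1, h2] at rn
  rw [map_add, one m1 m1 x1, one m1 m2 y1] at r11
  rw [map_add, one m2 m1 x1, one m2 m2 y1] at r21
  rw [map_add, one m2 m1 x2, one m2 m2 y2] at r22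
  rw [map_add, one m1 m1 x2, one m1 m2 y2] at r12
  simp only [map_add, LinearMap.add_apply, E_smul_smul hI] at rn
  simp only [h0, hm, hm', hc, mul_zero, zero_add] at r11 r21 r22 r12 rn
  set h11 := E m1 (I • m1)
  set h12 := E m1 (I • m2)
  set h22 := E m2 (I • m2)
  apply Complex.ext
  · linear_combination rn - x1.re * r12 - y1.re * r22 + x2.re * r11 + y2.re * r21
  · linear_combination (-y1.im) * r22 + x2.im * r11 + (y2.im) * r21 - x1.im * r12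

end

/-- Rational symplectic frames near a unitary frame, with period matrix near `i`. -/
theorem exists_frame (b : Module.Basis (Fin 4) ℝ (ℂ × ℂ)) (E : (ℂ × ℂ) →ₗ[ℝ] (ℂ × ℂ) →ₗ[ℝ] ℝ)
    (hr : ∀ i j, ∃ q : ℚ, E (b i) (b j) = q) (ha : ∀ u v, E u v = - E v u)
    (hI : ∀ u v, E (I • u) (I • v) = E u v)
    {e1 e2 : ℂ × ℂ} (h12 : E e1 e2 = 0) (h12' : E e1 (I • e2) = 0)
    (h1 : E e1 (I • e1) = 1) (h2 : E e2 (I • e2) = 1)
    {W : Set ((ℂ × ℂ) × (ℂ × ℂ) × ℂ × ℂ × ℂ)} (hW : W ∈ 𝓝 (e1, e2, I, (0 : ℂ), I)) :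
    ∃ m1 ∈ QS b, ∃ m2 ∈ QS b, ∃ t11 t12 t22 : ℂ,
      t11 • m1 + t12 • m2 ∈ QS b ∧ t12 • m1 + t22 • m2 ∈ QS b ∧
      (m1, m2, t11, t12, t22) ∈ W := by
  have hIl : ∀ u v, E (I • u) v = - E u (I • v) := fun u v => by
    rw [← hI (I • u) v, smul_smul, I_mul_I]; simp
  have h21 : E e2 e1 = 0 := by rw [ha, h12, neg_zero]
  have h21' : E e2 (I • e1) = 0 := by rw [ha, hIl, h12', neg_zero, neg_zero]
  have hSF : SF E e1 e2 (I • e1) (I • e2) :=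
    ⟨h1, h2, h12', h21', h12, by rw [hI]; exact h12⟩
  -- determinant
  have hdet : e1.1 * e2.2 - e1.2 * e2.1 ≠ 0 := by
    intro h
    have hz : ∀ c d : ℂ, c • e1 + d • e2 = 0 → c = 0 ∧ d = 0 := by
      intro c d hcd
      have k1 : E e1 (c • e1 + d • e2) = 0 := by rw [hcd, map_zero]
      have k2 : E e2 (c • e1 + d • e2) = 0 := by rw [hcd, map_zero]
      have one : ∀ u v : ℂ × ℂ, ∀ c : ℂ, E u (c • v) = c.re * E u v + c.im * E u (I • v) := by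
        intro u v c
        have := E_smul_smul hI 1 c u v
        simpa using this
      have h0 : ∀ u, E u u = 0 := fun u => by linarith [ha u u]
      have k3 : E e1 (I • (c • e1 + d • e2)) = 0 := by rw [hcd, smul_zero, map_zero]
      have k4 : E e2 (I • (c • e1 + d • e2)) = 0 := by rw [hcd, smul_zero, map_zero]
      rw [smul_add, smul_smul, smul_smul] at k3 k4
      rw [map_add, one e1 e1 c, one e1 e2 d] at k1
      rw [map_add, one e2 e1 c, one e2 e2 d] at k2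
      rw [map_add, one e1 e1, one e1 e2 (I * d)] at k3
      rw [map_add, one e2 e1, one e2 e2 (I * d)] at k4
      rw [h0, h1, h12, h12'] at k1 k3
      rw [h0, h2, h21, h21'] at k2 k4
      simp at k1 k2 k3 k4
      exact ⟨Complex.ext k3 k1, Complex.ext k4 k2⟩
    have k := hz e2.2 (-e1.2) (by
      ext
      · simp; linear_combination h
      · simp; ring)
    have k' := hz e2.1 (-e1.1) (by
      ext
      · simp; ring
      · simp; linear_combination -h)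
    have : e2 = 0 := Prod.ext k'.1 k.1
    rw [this] at h2
    simp at h2
  set x : (ℂ × ℂ) × (ℂ × ℂ) × (ℂ × ℂ) × (ℂ × ℂ) := (e1, e2, I • e1, I • e2) with hx
  let Δ : (ℂ × ℂ) × (ℂ × ℂ) × (ℂ × ℂ) × (ℂ × ℂ) → ℂ := fun p =>
    p.1.1 * p.2.1.2 - p.1.2 * p.2.1.1
  let X1 : (ℂ × ℂ) × (ℂ × ℂ) × (ℂ × ℂ) × (ℂ × ℂ) → ℂ := fun p =>
    (p.2.2.1.1 * p.2.1.2 - p.2.2.1.2 * p.2.1.1) / Δ p
  let Y1 : (ℂ × ℂ) × (ℂ × ℂ) × (ℂ × ℂ) × (ℂ × ℂ) → ℂ := fun p =>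
    (p.1.1 * p.2.2.1.2 - p.1.2 * p.2.2.1.1) / Δ p
  let X2 : (ℂ × ℂ) × (ℂ × ℂ) × (ℂ × ℂ) × (ℂ × ℂ) → ℂ := fun p =>
    (p.2.2.2.1 * p.2.1.2 - p.2.2.2.2 * p.2.1.1) / Δ p
  let Y2 : (ℂ × ℂ) × (ℂ × ℂ) × (ℂ × ℂ) × (ℂ × ℂ) → ℂ := fun p =>
    (p.1.1 * p.2.2.2.2 - p.1.2 * p.2.2.2.1) / Δ p
  have hΔx : Δ x ≠ 0 := hdet
  have cΔ : ContinuousAt Δ x := by simp only [Δ]; fun_prop
  have cX1 : ContinuousAt X1 x := ContinuousAt.div (by fun_prop) cΔ hΔx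
  have cY1 : ContinuousAt Y1 x := ContinuousAt.div (by fun_prop) cΔ hΔx
  have cY2 : ContinuousAt Y2 x := ContinuousAt.div (by fun_prop) cΔ hΔx
  have vX1 : X1 x = I := by
    simp only [X1, Δ, hx]
    rw [div_eq_iff hdet]; simp; ring
  have vY1 : Y1 x = 0 := by
    simp only [Y1, Δ, hx]
    rw [div_eq_iff hdet]; simp; ring
  have vY2 : Y2 x = I := by
    simp only [Y2, Δ, hx]
    rw [div_eq_iff hdet]; simp; ring
  let G : (ℂ × ℂ) × (ℂ × ℂ) × (ℂ × ℂ) × (ℂ × ℂ) → (ℂ × ℂ) × (ℂ × ℂ) × ℂ × ℂ × ℂ :=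
    fun p => (p.1, p.2.1, X1 p, Y1 p, Y2 p)
  have cG : ContinuousAt G x := by
    have a1 : ContinuousAt (fun p : (ℂ × ℂ) × (ℂ × ℂ) × (ℂ × ℂ) × (ℂ × ℂ) => p.1) x := by
      fun_prop
    have a2 : ContinuousAt (fun p : (ℂ × ℂ) × (ℂ × ℂ) × (ℂ × ℂ) × (ℂ × ℂ) => p.2.1) x := by
      fun_prop
    exact a1.prodMk (a2.prodMk (cX1.prodMk (cY1.prodMk cY2)))
  have vG : G x = (e1, e2, I, (0 : ℂ), I) := by
    simp only [G]; rw [vX1, vY1, vY2]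
  have hWG : ∀ᶠ p in 𝓝 x, G p ∈ W := by
    apply cG
    rw [vG]
    exact hW
  have hne : ∀ᶠ p in 𝓝 x, Δ p ≠ 0 := cΔ.eventually_ne hΔx
  obtain ⟨m1, hm1, m2, hm2, n1, hn1, n2, hn2, ⟨hG, hΔ⟩, hS⟩ :=
    exists_near b E hr ha hSF (hWG.and hne)
  simp only [Δ] at hΔ
  have e1' : n1 = X1 (m1, m2, n1, n2) • m1 + Y1 (m1, m2, n1, n2) • m2 := by
    dsimp only [X1, Y1, Δ]
    ext
    · simp only [Prod.fst_add, Prod.smul_fst, smul_eq_mul]
      rw [div_mul_eq_mul_div, div_mul_eq_mul_div, ← add_div, eq_div_iff hΔ]; ring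
    · simp only [Prod.snd_add, Prod.smul_snd, smul_eq_mul]
      rw [div_mul_eq_mul_div, div_mul_eq_mul_div, ← add_div, eq_div_iff hΔ]; ring
  have e2' : n2 = X2 (m1, m2, n1, n2) • m1 + Y2 (m1, m2, n1, n2) • m2 := by
    dsimp only [X2, Y2, Δ]
    ext
    · simp only [Prod.fst_add, Prod.smul_fst, smul_eq_mul]
      rw [div_mul_eq_mul_div, div_mul_eq_mul_div, ← add_div, eq_div_iff hΔ]; ring
    · simp only [Prod.snd_add, Prod.smul_snd, smul_eq_mul]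
      rw [div_mul_eq_mul_div, div_mul_eq_mul_div, ← add_div, eq_div_iff hΔ]; ring
  have key := riemann ha hI hS e1' e2'
  refine ⟨m1, hm1, m2, hm2, X1 (m1, m2, n1, n2), Y1 (m1, m2, n1, n2), Y2 (m1, m2, n1, n2),
    ?_, ?_, hG⟩
  · rw [← e1']; exact hn1
  · rw [key, ← e2']; exact hn2


lemma QS_lat (b : Module.Basis (Fin 4) ℝ (ℂ × ℂ)) {u : ℂ × ℂ} (hu : u ∈ QS b) :
    ∃ N : ℕ, 0 < N ∧ (N : ℂ) • u ∈ lat b := by
  have key : ∀ (K : ℕ) (w : ℂ × ℂ), (K : ℂ) • w = K • w := fun K w => by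
    rw [← Nat.cast_smul_eq_nsmul ℂ K w]
  induction hu using Submodule.span_induction with
  | mem x hx => exact ⟨1, one_pos, by simpa [lat] using AddSubgroup.subset_closure hx⟩
  | zero => exact ⟨1, one_pos, by simp [lat]⟩
  | add y z _ _ hy hz =>
    obtain ⟨M, hM, hM'⟩ := hy
    obtain ⟨N, hN, hN'⟩ := hz
    refine ⟨M * N, Nat.mul_pos hM hN, ?_⟩
    rw [smul_add]
    refine AddSubgroup.add_mem _ ?_ ?_
    · have : ((M * N : ℕ) : ℂ) • y = N • ((M : ℂ) • y) := by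
        rw [← key, smul_smul]; push_cast; rw [mul_comm]
      rw [this]; exact AddSubgroup.nsmul_mem _ hM' _
    · have : ((M * N : ℕ) : ℂ) • z = M • ((N : ℂ) • z) := by
        rw [← key, smul_smul]; push_cast; rfl
      rw [this]; exact AddSubgroup.nsmul_mem _ hN' _
  | smul a y _ hy =>
    obtain ⟨N, hN, hN'⟩ := hy
    refine ⟨N * a.den, Nat.mul_pos hN a.pos, ?_⟩
    have : ((N * a.den : ℕ) : ℂ) • (a • y) = a.num • ((N : ℂ) • y) := by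
      rw [← Rat.cast_smul_eq_qsmul ℂ a y, smul_smul, ← Int.cast_smul_eq_zsmul ℂ, smul_smul]
      congr 1
      push_cast
      have h1 : (a : ℂ) = (a.num : ℂ) / (a.den : ℂ) := by
        exact_mod_cast (Rat.num_div_den a).symm
      have h2 : (a.den : ℂ) ≠ 0 := by exact_mod_cast a.den_nz
      rw [h1]; field_simp
    rw [this]; exact AddSubgroup.zsmul_mem _ hN' _

/-- Common denominators. -/
lemma QS_lat_common (b : Module.Basis (Fin 4) ℝ (ℂ × ℂ)) {u : Fin 4 → ℂ × ℂ}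
    (hu : ∀ i, u i ∈ QS b) : ∃ N : ℕ, 0 < N ∧ ∀ i, (N : ℂ) • u i ∈ lat b := by
  choose M hM hM' using fun i => QS_lat b (hu i)
  refine ⟨∏ i, M i, Finset.prod_pos fun i _ => hM i, fun i => ?_⟩
  have h : ((∏ i, M i : ℕ) : ℂ) • u i = (∏ j ∈ Finset.univ.erase i, M j) • ((M i : ℂ) • u i) := by
    rw [← Nat.cast_smul_eq_nsmul ℂ, smul_smul, ← Nat.cast_mul,
      Finset.prod_erase_mul _ _ (Finset.mem_univ i)]
  rw [h]; exact AddSubgroup.nsmul_mem _ (hM' i) _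

lemma IsRiemannForm.anti {b : Fin 4 → ℂ × ℂ} {E : (ℂ × ℂ) →ₗ[ℝ] (ℂ × ℂ) →ₗ[ℝ] ℝ}
    (hE : IsRiemannForm b E) (u v : ℂ × ℂ) : E u v = - E v u := by
  have h := hE.alt (u + v)
  simp only [map_add, LinearMap.add_apply, hE.alt, zero_add, add_zero] at h
  linarith

lemma card_eq_finrank : Fintype.card (Fin 4) = Module.finrank ℝ (ℂ × ℂ) := by
  rw [Module.finrank_prod, Complex.finrank_real_complex]; simp

theorem sym {b : Fin 4 → ℂ × ℂ} (hb : LinearIndependent ℝ b)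
    {E : (ℂ × ℂ) →ₗ[ℝ] (ℂ × ℂ) →ₗ[ℝ] ℝ} (hE : IsRiemannForm b E) {v₁ v₂ : ℂ × ℂ}
    (h1 : E v₁ (I • v₁) = 1) (h2 : E v₂ (I • v₂) = 1) (h3 : E v₁ v₂ = 0)
    (h4 : E v₁ (I • v₂) = 0) {δ : ℝ} (hδ : 0 < δ) :
    ∃ N : ℕ, 0 < N ∧ ∃ (m₁ m₂ : ℂ × ℂ) (t : ℂ × ℂ × ℂ),
      ‖m₁ - v₁‖ < δ ∧ ‖m₂ - v₂‖ < δ ∧ ‖t - t0‖ < δ ∧
      ∀ i, (N : ℂ) • ((bt t i).1 • m₁ + (bt t i).2 • m₂) ∈ lat b := by
  let B : Module.Basis (Fin 4) ℝ (ℂ × ℂ) :=
    basisOfLinearIndependentOfCardEqFinrank hb card_eq_finrank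
  have hB : (B : Fin 4 → ℂ × ℂ) = b := coe_basisOfLinearIndependentOfCardEqFinrank _ _
  have hr : ∀ i j, ∃ q : ℚ, E (B i) (B j) = q := by
    intro i j
    rw [hB]
    obtain ⟨k, hk⟩ := hE.int i j
    exact ⟨k, by rw [hk]; push_cast; rfl⟩
  have hW : (ball v₁ δ ×ˢ (ball v₂ δ ×ˢ ball t0 δ) :
      Set ((ℂ × ℂ) × (ℂ × ℂ) × ℂ × ℂ × ℂ)) ∈ 𝓝 (v₁, v₂, I, (0 : ℂ), I) :=
    prod_mem_nhds (ball_mem_nhds _ hδ) (prod_mem_nhds (ball_mem_nhds _ hδ) (ball_mem_nhds _ hδ))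
  obtain ⟨m₁, hm₁, m₂, hm₂, t11, t12, t22, hn1, hn2, hw⟩ :=
    exists_frame B E hr hE.anti hE.mul_I h3 h4 h1 h2 hW
  obtain ⟨N, hN, hN'⟩ := QS_lat_common B
    (u := fun i => (bt (t11, t12, t22) i).1 • m₁ + (bt (t11, t12, t22) i).2 • m₂) (by
      intro i
      fin_cases i
      · simpa [bt] using hm₁
      · simpa [bt] using hm₂
      · simpa [bt] using hn1
      · simpa [bt] using hn2)
  rw [hB] at hN'
  refine ⟨N, hN, m₁, m₂, (t11, t12, t22), ?_, ?_, ?_, hN'⟩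
  · simpa [mem_ball, dist_eq_norm] using hw.1
  · simpa [mem_ball, dist_eq_norm] using hw.2.1
  · simpa [mem_ball, dist_eq_norm] using hw.2.2

lemma E_rr (E : (ℂ × ℂ) →ₗ[ℝ] (ℂ × ℂ) →ₗ[ℝ] ℝ) {w : ℂ × ℂ} (hp : 0 < E w (I • w)) :
    E ((Real.sqrt (E w (I • w)))⁻¹ • w) (I • ((Real.sqrt (E w (I • w)))⁻¹ • w)) = 1 := by
  set r := Real.sqrt (E w (I • w)) with hr
  have h0 : I • (r⁻¹ • w) = r⁻¹ • (I • w) := smul_comm _ _ _
  have h1 : r * r = E w (I • w) := Real.mul_self_sqrt hp.le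
  have h3 : r ≠ 0 := (Real.sqrt_pos.2 hp).ne'
  rw [h0, (E _).map_smul, E.map_smul, LinearMap.smul_apply, smul_eq_mul, smul_eq_mul, ← h1]
  field_simp

/-- Existence of a normalised vector orthogonal to `u`. -/
lemma exists_perp {b : Fin 4 → ℂ × ℂ} {E : (ℂ × ℂ) →ₗ[ℝ] (ℂ × ℂ) →ₗ[ℝ] ℝ}
    (hE : IsRiemannForm b E) (u : ℂ × ℂ) : ∃ v : ℂ × ℂ, E v (I • v) = 1 ∧ E v u = 0 ∧
      E v (I • u) = 0 := by
  let φ : (ℂ × ℂ) →ₗ[ℝ] ℝ × ℝ := (E.flip u).prod (E.flip (I • u))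
  have hk : LinearMap.ker φ ≠ ⊥ := LinearMap.ker_ne_bot_of_finrank_lt (by
    rw [← card_eq_finrank]; simp)
  obtain ⟨w, hw, hw0⟩ := Submodule.exists_mem_ne_zero_of_ne_bot hk
  have h1 : E w u = 0 := congrArg Prod.fst (LinearMap.mem_ker.1 hw)
  have h2 : E w (I • u) = 0 := congrArg Prod.snd (LinearMap.mem_ker.1 hw)
  have hp := hE.pos w hw0
  refine ⟨(Real.sqrt (E w (I • w)))⁻¹ • w, E_rr E hp, ?_, ?_⟩
  · rw [E.map_smul, LinearMap.smul_apply, h1, smul_zero]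
  · rw [E.map_smul, LinearMap.smul_apply, h2, smul_zero]

lemma E_csmul_right {b : Fin 4 → ℂ × ℂ} {E : (ℂ × ℂ) →ₗ[ℝ] (ℂ × ℂ) →ₗ[ℝ] ℝ}
    (hE : IsRiemannForm b E) {k u : ℂ × ℂ} (h1 : E k u = 0) (h2 : E k (I • u) = 0) (c : ℂ) :
    E k (c • u) = 0 := by
  have := E_smul_smul hE.mul_I 1 c k u
  rw [h1, h2] at this
  simpa using this

lemma E_csmul_left {b : Fin 4 → ℂ × ℂ} {E : (ℂ × ℂ) →ₗ[ℝ] (ℂ × ℂ) →ₗ[ℝ] ℝ}
    (hE : IsRiemannForm b E) {k u : ℂ × ℂ} {c : ℂ} (hc : c ≠ 0) (h1 : E (c • k) u = 0)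
    (h2 : E (c • k) (I • u) = 0) : E k u = 0 ∧ E k (I • u) = 0 := by
  have a1 := E_smul_smul hE.mul_I c 1 k u
  have a2 := E_smul_smul hE.mul_I c I k u
  rw [one_smul, h1] at a1
  rw [h2] at a2
  simp at a1 a2
  have hc' : c.re ^ 2 + c.im ^ 2 ≠ 0 := by
    intro h
    apply hc
    have r : c.re = 0 := by nlinarith [sq_nonneg c.re, sq_nonneg c.im]
    have i : c.im = 0 := by nlinarith [sq_nonneg c.re, sq_nonneg c.im]
    exact Complex.ext r i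
  constructor
  · apply mul_left_cancel₀ hc'
    linear_combination -c.re * a1 - c.im * a2
  · apply mul_left_cancel₀ hc'
    linear_combination c.im * a1 - c.re * a2

lemma frm_ne (i : Fin 4) : frm i ≠ 0 := by
  fin_cases i <;> simp [frm, Prod.ext_iff]

theorem frame {b : Fin 4 → ℂ × ℂ} {E : (ℂ × ℂ) →ₗ[ℝ] (ℂ × ℂ) →ₗ[ℝ] ℝ}
    (hE : IsRiemannForm b E) : ∃ B : Set ℂ, B.Finite ∧ ∀ x ∉ B, ∃ (v₁ : ℂ × ℂ) (c : ℝ), 0 < c ∧
      E v₁ (I • v₁) = 1 ∧ E (c • ((1 : ℂ), x)) (I • (c • ((1 : ℂ), x))) = 1 ∧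
      E v₁ (c • ((1 : ℂ), x)) = 0 ∧ E v₁ (I • (c • ((1 : ℂ), x))) = 0 ∧
      ∀ i, lin (frm i) v₁ ≠ 0 ∧ lin (frm i) ((1 : ℂ), x) ≠ 0 := by
  let k : Fin 4 → ℂ × ℂ := fun i => (-(frm i).2, (frm i).1)
  have hk : ∀ i, k i ≠ 0 := by
    intro i h
    apply frm_ne i
    have h1 := congrArg Prod.fst h
    have h2 := congrArg Prod.snd h
    simp only [k, Prod.fst_zero, neg_eq_zero, Prod.snd_zero] at h1 h2
    exact Prod.ext h2 h1
  let B1 : Fin 4 → Set ℂ := fun i => {x | lin (frm i) ((1 : ℂ), x) = 0}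
  let B2 : Fin 4 → Set ℂ := fun i => {x | E (k i) ((1 : ℂ), x) = 0 ∧ E (k i) (I • ((1 : ℂ), x)) = 0}
  have hB1 : ∀ i, (B1 i).Subsingleton := by
    intro i x hx y hy
    by_contra hne
    simp only [B1, mem_ofPred_eq, lin, mul_one] at hx hy
    have h2 : (frm i).2 = 0 := by
      have : (frm i).2 * (x - y) = 0 := by linear_combination hx - hy
      rcases mul_eq_zero.1 this with h | h
      · exact h
      · exact absurd (sub_eq_zero.1 h) hne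
    have h1 : (frm i).1 = 0 := by rw [h2] at hx; simpa using hx
    exact frm_ne i (Prod.ext h1 h2)
  have hB2 : ∀ i, (B2 i).Subsingleton := by
    intro i x hx y hy
    by_contra hne
    have hd : x - y ≠ 0 := sub_ne_zero.2 hne
    have e1 : ((0 : ℂ), x - y) = ((1 : ℂ), x) - ((1 : ℂ), y) := by simp
    have a1 : E (k i) ((0 : ℂ), x - y) = 0 := by rw [e1, map_sub, hx.1, hy.1, sub_zero]
    have a2 : E (k i) (I • ((0 : ℂ), x - y)) = 0 := by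
      rw [e1, smul_sub, map_sub, hx.2, hy.2, sub_zero]
    have h3 : ∀ v : ℂ × ℂ, E (k i) v = 0 := by
      intro v
      have : v = v.1 • ((1 : ℂ), x) + ((v.2 - v.1 * x) / (x - y)) • ((0 : ℂ), x - y) := by
        ext
        · simp
        · simp only [Prod.snd_add, Prod.smul_snd, smul_eq_mul]; field_simp; ring
      rw [this, map_add, E_csmul_right hE hx.1 hx.2, E_csmul_right hE a1 a2, add_zero]
    exact (hE.pos (k i) (hk i)).ne' (h3 _)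
  refine ⟨⋃ i, (B1 i ∪ B2 i), Set.finite_iUnion fun i => (hB1 i).finite.union (hB2 i).finite, ?_⟩
  intro x hx
  simp only [mem_iUnion, mem_union, not_exists, not_or] at hx
  set u : ℂ × ℂ := ((1 : ℂ), x) with hu
  have hu0 : u ≠ 0 := fun h => one_ne_zero (congrArg Prod.fst h)
  have hp := hE.pos u hu0
  obtain ⟨v, hv1, hv2, hv3⟩ := exists_perp hE u
  have hc : 0 < (Real.sqrt (E u (I • u)))⁻¹ := inv_pos.2 (Real.sqrt_pos.2 hp)
  refine ⟨v, (Real.sqrt (E u (I • u)))⁻¹, hc, hv1, E_rr E hp, ?_, ?_, ?_⟩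
  · rw [(E v).map_smul, hv2, smul_zero]
  · have h0 : I • ((Real.sqrt (E u (I • u)))⁻¹ • u) = (Real.sqrt (E u (I • u)))⁻¹ • (I • u) :=
      smul_comm _ _ _
    rw [h0, (E v).map_smul, hv3, smul_zero]
  · intro i
    refine ⟨fun h => ?_, (hx i).1⟩
    have hv0 : v ≠ 0 := by
      rintro rfl
      simp at hv1
    have hex : ∃ c : ℂ, v = c • k i := by
      simp only [lin] at h
      by_cases h1 : (frm i).1 = 0
      · have h2 : (frm i).2 ≠ 0 := fun h2 => frm_ne i (Prod.ext h1 h2)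
        refine ⟨-v.1 / (frm i).2, ?_⟩
        have h3 : v.2 = 0 := by
          rw [h1, zero_mul, zero_add] at h
          exact (mul_eq_zero.1 h).resolve_left h2
        ext
        · simp only [k, Prod.smul_fst, smul_eq_mul]; field_simp
        · simp only [k, Prod.smul_snd, smul_eq_mul]; rw [h3, h1, mul_zero]
      · refine ⟨v.2 / (frm i).1, ?_⟩
        ext
        · simp only [k, Prod.smul_fst, smul_eq_mul]; field_simp; linear_combination h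
        · simp only [k, Prod.smul_snd, smul_eq_mul]; field_simp
    obtain ⟨c, hc⟩ := hex
    have hc0 : c ≠ 0 := by
      rintro rfl
      exact hv0 (by rw [hc, zero_smul])
    rw [hc] at hv2 hv3
    exact (hx i).2 (E_csmul_left hE hc0 hv2 hv3)

end Pool.Agent.Helper14.AS
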