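import Pool.Agent.Helper14.AS.Objs

/-!
# Module TR: linear substitutions
-/

noncomputable section

namespace Pool.Agent.Helper14.AS

open Complex MeasureTheory Set Filter Topology

theorem hasOrd_map {Z : Set (ℂ × ℂ)} {f : ℂ × ℂ → ℂ} (S : (ℂ × ℂ) ≃L[ℂ] (ℂ × ℂ)) {p : ℂ × ℂ}
    {m : ℤ} (h : HasOrd Z f (S.symm p) m) :
    HasOrd {z | S.symm z ∈ Z} (fun z => f (S.symm z)) p m := by
  have ht : Tendsto S.symm (𝓝 p) (𝓝 (S.symm p)) := S.symm.continuous.continuousAt
  rcases h with ⟨hm, hf, hd⟩ | ⟨γ, hγ, h0, h1, h2, h3, h4, h5⟩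
  · refine Or.inl ⟨hm, hf, ?_⟩
    filter_upwards [ht.eventually hd] with z hz
    exact DifferentiableAt.comp z hz S.symm.differentiableAt
  · refine Or.inr ⟨fun s => S (γ s), ?_, ?_, ?_, ?_, ?_, ?_, ?_⟩
    · exact AnalyticAt.comp (g := fun z => S z) (S.analyticAt _) hγ
    · change S (γ 0) = p
      rw [h0]; simp
    · have hd : HasDerivAt (fun s => S (γ s)) (S (deriv γ 0)) 0 :=
        (S.hasFDerivAt (x := γ 0)).comp_hasDerivAt 0 hγ.differentiableAt.hasDerivAt
      rw [hd.deriv]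
      intro h
      exact h1 (by simpa using h)
    · filter_upwards [h2] with s hs
      simpa using hs
    · intro U hU
      filter_upwards [ht.eventually (h3 U hU)] with z hz hzZ
      obtain ⟨s, hs, e⟩ := hz hzZ
      refine ⟨s, hs, ?_⟩
      rw [e]; simp
    · have e : (fun z => f (S.symm z)) ∘ (fun s => S (γ s)) = f ∘ γ := by
        funext s; simp
      rw [e]; exact h4
    · have e : (fun z => f (S.symm z)) ∘ (fun s => S (γ s)) = f ∘ γ := by
        funext s; simp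
      rw [e]; exact h5

theorem valid_map {Λ Λ' : AddSubgroup (ℂ × ℂ)} {T : Term} (h : T.Valid Λ)
    (S : (ℂ × ℂ) ≃L[ℂ] (ℂ × ℂ)) (hΛ : ∀ i, S (T.b i) ∈ Λ') : (T.map S).Valid Λ' where
  indep := by
    have h1 := h.indep.map' ((S.toLinearEquiv.restrictScalars ℝ).toLinearMap)
      (LinearEquiv.ker _)
    exact h1
  mem := hΛ
  curve := by
    intro p
    obtain ⟨g, h1, h2, h3⟩ := h.curve (S.symm p)
    have ht : Tendsto S.symm (𝓝 p) (𝓝 (S.symm p)) := S.symm.continuous.continuousAt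
    have ht' : Tendsto S (𝓝 (S.symm p)) (𝓝 p) := by
      have := S.continuous.continuousAt (x := S.symm p)
      rwa [ContinuousAt, ContinuousLinearEquiv.apply_symm_apply] at this
    refine ⟨fun z => g (S.symm z), ?_, ?_, ?_⟩
    · filter_upwards [ht.eventually h1] with z hz
      exact DifferentiableAt.comp z hz S.symm.differentiableAt
    · intro hz
      apply h2
      filter_upwards [ht'.eventually hz] with w hw
      simpa using hw
    · filter_upwards [ht.eventually h3] with z hz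
      exact hz
  Z_periodic := by
    intro i z
    change S.symm (z + S (T.b i)) ∈ T.Z ↔ S.symm z ∈ T.Z
    rw [map_add, ContinuousLinearEquiv.symm_apply_apply]
    exact h.Z_periodic i _
  f_periodic := by
    intro i z
    change T.f (S.symm (z + S (T.b i))) = T.f (S.symm z)
    rw [map_add, ContinuousLinearEquiv.symm_apply_apply]
    exact h.f_periodic i _
  ord := fun z hz => hasOrd_map S (h.ord (S.symm z) hz)
  ord_zero := fun z hz => h.ord_zero (S.symm z) hz

theorem lin_map (S : (ℂ × ℂ) ≃L[ℂ] (ℂ × ℂ)) (l z : ℂ × ℂ) :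
    lin l (S z) = lin (lin l (S (1, 0)), lin l (S (0, 1))) z := by
  have hz : z = z.1 • ((1 : ℂ), (0 : ℂ)) + z.2 • ((0 : ℂ), (1 : ℂ)) := by
    ext <;> simp
  have h1 : S z = z.1 • S (1, 0) + z.2 • S (0, 1) := by
    conv_lhs => rw [hz]
    rw [map_add, map_smul, map_smul]
  rw [h1]
  simp only [lin, Prod.fst_add, Prod.snd_add, Prod.smul_fst, Prod.smul_snd, smul_eq_mul]
  ring

theorem mem_cell_map (b : Fin 4 → ℂ × ℂ) (S : (ℂ × ℂ) ≃L[ℂ] (ℂ × ℂ)) (z : ℂ × ℂ) :
    z ∈ cell (fun i => S (b i)) ↔ S.symm z ∈ cell b := by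
  have hS : ∀ x : Fin 4 → ℝ, S (∑ i, x i • b i) = ∑ i, x i • S (b i) := by
    intro x
    rw [map_sum]
    refine Finset.sum_congr rfl fun i _ => ?_
    exact S.toLinearMap.map_smul_of_tower (x i) (b i)
  constructor
  · rintro ⟨x, hx, rfl⟩
    refine ⟨x, hx, ?_⟩
    rw [← hS]; simp
  · rintro ⟨x, hx, e⟩
    refine ⟨x, hx, ?_⟩
    rw [← hS, ← e]; simp

theorem reg_map (T : Term) (S : (ℂ × ℂ) ≃L[ℂ] (ℂ × ℂ)) (l : ℂ × ℂ) :
    (T.map S).reg l = T.reg (lin l (S (1, 0)), lin l (S (0, 1))) := by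
  unfold Term.reg
  congr 1
  funext w
  refine finsum_mem_eq_of_bijOn S.symm ⟨?_, S.symm.injective.injOn, ?_⟩ ?_
  · rintro z ⟨h1, h2, h3⟩
    refine ⟨h1, (mem_cell_map T.b S z).mp h2, ?_⟩
    rw [← lin_map]; simpa using h3
  · rintro z ⟨h1, h2, h3⟩
    refine ⟨S z, ⟨?_, (mem_cell_map T.b S (S z)).mpr (by simpa using h2), ?_⟩, by simp⟩
    · change S.symm (S z) ∈ T.Z
      simpa using h1
    · rw [lin_map]; exact h3
  · intro z _
    rfl

theorem integral_comp_mul_complex (φ : ℂ → ℝ) (c : ℂ) (hc : c ≠ 0) :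
    ∫ w : ℂ, φ (c⁻¹ * w) = ‖c‖ ^ 2 * ∫ w : ℂ, φ w := by
  let L : ℂ →ₗ[ℝ] ℂ := Algebra.lmul ℝ ℂ c⁻¹
  have hL : ∀ w, L w = c⁻¹ * w := fun w => rfl
  have hdet : LinearMap.det L = Complex.normSq c⁻¹ := by
    have := Algebra.norm_complex_apply c⁻¹
    rw [Algebra.norm_apply] at this
    exact this
  have hn : Complex.normSq c⁻¹ ≠ 0 := by
    rw [Ne, Complex.normSq_eq_zero]
    exact inv_ne_zero hc
  have hmap := Measure.map_linearMap_addHaar_eq_smul_addHaar (μ := (volume : Measure ℂ))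
    (f := L) (by rw [hdet]; exact hn)
  have hemb : MeasurableEmbedding (fun w : ℂ => c⁻¹ * w) :=
    (Homeomorph.mulLeft₀ c⁻¹ (inv_ne_zero hc)).measurableEmbedding
  have h1 : ∫ w : ℂ, φ (c⁻¹ * w) = ∫ w, φ w ∂(Measure.map (fun w : ℂ => c⁻¹ * w) volume) :=
    (hemb.integral_map φ).symm
  have h2 : Measure.map (fun w : ℂ => c⁻¹ * w) volume
      = ENNReal.ofReal |(LinearMap.det L)⁻¹| • (volume : Measure ℂ) := hmap
  rw [h1, h2, integral_smul_measure, hdet, ENNReal.toReal_ofReal (abs_nonneg _), smul_eq_mul]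
  congr 1
  rw [Complex.normSq_inv, inv_inv, Complex.normSq_eq_norm_sq]
  exact abs_of_nonneg (by positivity)

theorem reg_smul (T : Term) (c : ℂ) (hc : c ≠ 0) (l : ℂ × ℂ) :
    T.reg (c • l) = ‖c‖ ^ 2 * T.reg l := by
  have h1 : ∀ z, lin (c • l) z = c * lin l z := by
    intro z
    simp only [lin, Prod.smul_fst, Prod.smul_snd, smul_eq_mul]
    ring
  have h2 : ∀ w z, lin (c • l) z = w ↔ lin l z = c⁻¹ * w := by
    intro w z
    rw [h1]
    constructor
    · rintro rfl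
      field_simp
    · intro h
      rw [h]
      field_simp
  unfold Term.reg
  simp_rw [h2]
  exact integral_comp_mul_complex
    (fun w => ∑ᶠ z ∈ {z | z ∈ T.Z ∧ z ∈ cell T.b ∧ lin l z = w}, Real.log ‖T.f z‖) c hc

end Pool.Agent.Helper14.AS
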