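import Pool.Agent.Helper14.AS.Cyc
import Pool.Agent.Helper14.AS.Dom
import Pool.Agent.Helper14.AS.Eval
import Pool.Agent.Helper14.AS.Sym
import Pool.Agent.Helper14.AS.ThZ
import Pool.Agent.Helper14.AS.Tr

/-! FIN: the closure of the set of regulator values is a subspace; it is everything. -/

noncomputable section

namespace Pool.Agent.Helper14.AS

open Complex MeasureTheory Set Filter Topology Metric

/-- Multiplication of a chain by an integer. -/
def smulChain (k : ℤ) (ξ : Chain) : Chain := ξ.map fun T => ⟨k * T.n, T.b, T.Z, T.f, T.o⟩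

lemma reg_append (l : ℂ × ℂ) (ξ η : Chain) :
    Chain.reg l (ξ ++ η) = Chain.reg l ξ + Chain.reg l η := by
  simp [Chain.reg]

lemma reg_smulChain (l : ℂ × ℂ) (k : ℤ) (ξ : Chain) :
    Chain.reg l (smulChain k ξ) = k * Chain.reg l ξ := by
  induction ξ with
  | nil => simp [Chain.reg, smulChain]
  | cons T ξ ih =>
    simp only [Chain.reg, smulChain, List.map_cons, List.sum_cons, Int.cast_mul] at ih ⊢
    rw [ih]
    have : Term.reg l ⟨k * T.n, T.b, T.Z, T.f, T.o⟩ = Term.reg l T := rfl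
    rw [this]; ring

lemma isCycle_append {Λ : AddSubgroup (ℂ × ℂ)} {ξ η : Chain} (h1 : IsCycle Λ ξ)
    (h2 : IsCycle Λ η) : IsCycle Λ (ξ ++ η) := by
  refine ⟨fun T hT => ?_, fun p => ?_⟩
  · rcases List.mem_append.1 hT with h | h
    · exact h1.valid T h
    · exact h2.valid T h
  · rw [List.map_append, List.sum_append, h1.bdry, h2.bdry, add_zero]

lemma isCycle_smulChain {Λ : AddSubgroup (ℂ × ℂ)} {ξ : Chain} (h : IsCycle Λ ξ) (k : ℤ) :
    IsCycle Λ (smulChain k ξ) := by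
  refine ⟨fun T hT => ?_, fun p => ?_⟩
  · obtain ⟨T', hT', rfl⟩ := List.mem_map.1 hT
    have := h.valid T' hT'
    exact ⟨this.indep, this.mem, this.curve, this.Z_periodic, this.f_periodic, this.ord,
      this.ord_zero⟩
  · have hs : ∀ ξ : Chain, ((smulChain k ξ).map fun T => T.n * T.mult Λ p).sum =
        k * (ξ.map fun T => T.n * T.mult Λ p).sum := by
      intro ξ
      induction ξ with
      | nil => simp [smulChain]
      | cons T ξ ih =>
        simp only [smulChain, List.map_cons, List.sum_cons] at ih ⊢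
        rw [ih]
        have : Term.mult Λ ⟨k * T.n, T.b, T.Z, T.f, T.o⟩ p = Term.mult Λ T p := rfl
        rw [this]; ring
    rw [hs, h.bdry, mul_zero]

/-- The set of values. -/
def vals (b : Fin 4 → ℂ × ℂ) : Set (Fin 4 → ℝ) :=
  {v : Fin 4 → ℝ | ∃ m : ℕ, 0 < m ∧ ∃ ξ : Chain, IsCycle (lat b) ξ ∧
      v = fun i => (1 / (m : ℝ)) * ξ.reg (frm i)}

lemma vals_zero (b : Fin 4 → ℂ × ℂ) : (0 : Fin 4 → ℝ) ∈ vals b := by
  refine ⟨1, one_pos, [], ⟨by simp, by simp⟩, ?_⟩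
  ext i; simp [Chain.reg]

lemma vals_add {b : Fin 4 → ℂ × ℂ} {u v : Fin 4 → ℝ} (hu : u ∈ vals b) (hv : v ∈ vals b) :
    u + v ∈ vals b := by
  obtain ⟨m, hm, ξ, hξ, rfl⟩ := hu
  obtain ⟨n, hn, η, hη, rfl⟩ := hv
  refine ⟨m * n, Nat.mul_pos hm hn, smulChain n ξ ++ smulChain m η,
    isCycle_append (isCycle_smulChain hξ _) (isCycle_smulChain hη _), ?_⟩
  ext i
  have h1 : (m : ℝ) ≠ 0 := by exact_mod_cast hm.ne'
  have h2 : (n : ℝ) ≠ 0 := by exact_mod_cast hn.ne'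
  rw [reg_append, reg_smulChain, reg_smulChain, Pi.add_apply]
  push_cast
  field_simp

lemma vals_rat {b : Fin 4 → ℂ × ℂ} {u : Fin 4 → ℝ} (hu : u ∈ vals b) (q : ℚ) :
    (q : ℝ) • u ∈ vals b := by
  obtain ⟨m, hm, ξ, hξ, rfl⟩ := hu
  refine ⟨m * q.den, Nat.mul_pos hm q.pos, smulChain q.num ξ, isCycle_smulChain hξ _, ?_⟩
  ext i
  have h1 : (m : ℝ) ≠ 0 := by exact_mod_cast hm.ne'
  have h2 : (q.den : ℝ) ≠ 0 := by exact_mod_cast q.den_nz
  have h3 : (q : ℝ) = (q.num : ℝ) / (q.den : ℝ) := by exact_mod_cast (Rat.num_div_den q).symm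
  rw [reg_smulChain, Pi.smul_apply, smul_eq_mul, h3]
  push_cast
  field_simp

/-- The closure of the set of values, as a real subspace. -/
def VV (b : Fin 4 → ℂ × ℂ) : Submodule ℝ (Fin 4 → ℝ) where
  carrier := closure (vals b)
  zero_mem' := subset_closure (vals_zero b)
  add_mem' := by
    intro u v hu hv
    exact map_mem_closure₂ continuous_add hu hv fun a ha c hc => vals_add ha hc
  smul_mem' := by
    intro c u hu
    have h1 : ∀ q : ℚ, (q : ℝ) • u ∈ closure (vals b) := fun q =>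
      map_mem_closure (continuous_const_smul (q : ℝ)) hu fun a ha => vals_rat ha q
    have h2 : c ∈ closure (range ((↑) : ℚ → ℝ)) := by
      rw [Rat.denseRange_cast.closure_range]; trivial
    have h3 : Continuous fun c : ℝ => c • u := continuous_id.smul continuous_const
    have h4 := map_mem_closure (t := closure (vals b)) h3 h2 (by
      rintro _ ⟨q, rfl⟩; exact h1 q)
    rwa [closure_closure] at h4

/-- The substitution. -/
lemma exists_sub {m₁ m₂ : ℂ × ℂ} (h : m₁.1 * m₂.2 - m₁.2 * m₂.1 ≠ 0) {c : ℂ} (hc : c ≠ 0) :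
    ∃ S : (ℂ × ℂ) ≃L[ℂ] (ℂ × ℂ), ∀ z, S z = c • (z.1 • m₁ + z.2 • m₂) := by
  let f : (ℂ × ℂ) →ₗ[ℂ] (ℂ × ℂ) :=
    c • ((LinearMap.fst ℂ ℂ ℂ).smulRight m₁ + (LinearMap.snd ℂ ℂ ℂ).smulRight m₂)
  have hf : ∀ z, f z = c • (z.1 • m₁ + z.2 • m₂) := fun z => rfl
  have hinj : Function.Injective f := by
    rw [injective_iff_map_eq_zero]
    intro z hz
    rw [hf, smul_eq_zero] at hz
    have hz := hz.resolve_left hc
    have a1 : z.1 * m₁.1 + z.2 * m₂.1 = 0 := congrArg Prod.fst hz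
    have a2 : z.1 * m₁.2 + z.2 * m₂.2 = 0 := congrArg Prod.snd hz
    have b1 : z.1 = 0 := by
      have : z.1 * (m₁.1 * m₂.2 - m₁.2 * m₂.1) = 0 := by
        linear_combination m₂.2 * a1 - m₂.1 * a2
      exact (mul_eq_zero.1 this).resolve_right h
    have b2 : z.2 = 0 := by
      have : z.2 * (m₁.1 * m₂.2 - m₁.2 * m₂.1) = 0 := by
        linear_combination m₁.1 * a2 - m₁.2 * a1
      exact (mul_eq_zero.1 this).resolve_right h
    exact Prod.ext b1 b2
  exact ⟨(LinearEquiv.ofInjectiveEndo f hinj).toContinuousLinearEquiv, fun z => hf z⟩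

/-- The value obtained from one period matrix and one frame. -/
lemma vals_xi {b : Fin 4 → ℂ × ℂ} {m₁ m₂ : ℂ × ℂ} {t : ℂ × ℂ × ℂ} {N : ℕ} (hN : 0 < N)
    (h : m₁.1 * m₂.2 - m₁.2 * m₂.1 ≠ 0)
    (hv : ∀ (n : ℤ) (s : ℝ), (s = 1 / 4 ∨ s = -(1 / 4)) → (TT n s t).Valid (lat (bt t)))
    (hL : ∀ i, (N : ℂ) • ((bt t i).1 • m₁ + (bt t i).2 • m₂) ∈ lat b) :
    (fun i => (∫ w, SS (1 / 4) (t, (lin (frm i) m₁, lin (frm i) m₂)) w) -
      ∫ w, SS (-(1 / 4)) (t, (lin (frm i) m₁, lin (frm i) m₂)) w) ∈ vals b := by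
  have hN0 : (N : ℂ) ≠ 0 := by exact_mod_cast hN.ne'
  obtain ⟨S, hS⟩ := exists_sub h hN0
  have hreg : ∀ (n : ℤ) (s : ℝ) (l : ℂ × ℂ), ((TT n s t).map S).reg l =
      (N : ℝ) ^ 2 * ∫ w, SS s (t, (lin l m₁, lin l m₂)) w := by
    intro n s l
    rw [reg_map]
    have h1 : (lin l (S (1, 0)), lin l (S (0, 1))) = (N : ℂ) • (lin l m₁, lin l m₂) := by
      rw [hS, hS]
      ext
      · simp [lin]; ring
      · simp [lin]; ring
    rw [h1, reg_smul _ _ hN0, reg_TT]
    simp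
  refine ⟨N ^ 2, pow_pos hN 2, [(TT 1 (1 / 4) t).map S, (TT (-1) (-(1 / 4)) t).map S], ?_, ?_⟩
  · have hb : ∀ i, S (bt t i) ∈ lat b := fun i => by rw [hS]; exact hL i
    refine ⟨?_, ?_⟩
    · intro T hT
      simp only [List.mem_cons, List.not_mem_nil, or_false] at hT
      rcases hT with rfl | rfl
      · exact valid_map (hv 1 (1 / 4) (Or.inl rfl)) S hb
      · exact valid_map (hv (-1) (-(1 / 4)) (Or.inr rfl)) S hb
    · intro p
      have h1 : ((TT 1 (1 / 4) t).map S).mult (lat b) p =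
        ((TT (-1) (-(1 / 4)) t).map S).mult (lat b) p := rfl
      simp only [List.map_cons, List.map_nil, List.sum_cons, List.sum_nil]
      rw [h1]
      have h2 : ((TT 1 (1 / 4) t).map S).n = 1 := rfl
      have h3 : ((TT (-1) (-(1 / 4)) t).map S).n = -1 := rfl
      rw [h2, h3]; ring
  · ext i
    simp only [Chain.reg, List.map_cons, List.map_nil, List.sum_cons, List.sum_nil, hreg]
    have h2 : ((TT 1 (1 / 4) t).map S).n = 1 := rfl
    have h3 : ((TT (-1) (-(1 / 4)) t).map S).n = -1 := rfl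
    rw [h2, h3]
    have h4 : (N : ℝ) ≠ 0 := by exact_mod_cast hN.ne'
    push_cast
    field_simp
    ring

lemma continuous_lin_right (l : ℂ × ℂ) : Continuous (lin l) := by
  unfold lin; fun_prop

/-- The vectors in the closure. -/
lemma mem_VV {b : Fin 4 → ℂ × ℂ} (hb : LinearIndependent ℝ b)
    {E : (ℂ × ℂ) →ₗ[ℝ] (ℂ × ℂ) →ₗ[ℝ] ℝ} (hE : IsRiemannForm b E) {v₁ v₂ : ℂ × ℂ}
    (h1 : E v₁ (I • v₁) = 1) (h2 : E v₂ (I • v₂) = 1) (h3 : E v₁ v₂ = 0)
    (h4 : E v₁ (I • v₂) = 0) (hl : ∀ i, lin (frm i) v₁ ≠ 0 ∧ lin (frm i) v₂ ≠ 0) :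
    (fun i => kap * ‖lin (frm i) v₂‖ ^ 2) ∈ VV b := by
  have hδ : ∀ n : ℕ, (0 : ℝ) < 1 / ((n : ℝ) + 1) := fun n => by positivity
  choose N hN m₁ m₂ t hm₁ hm₂ ht hL using fun n => sym hb hE h1 h2 h3 h4 (hδ n)
  have hlim : Tendsto (fun n : ℕ => (1 : ℝ) / ((n : ℝ) + 1)) atTop (𝓝 0) :=
    tendsto_one_div_add_atTop_nhds_zero_nat
  have tm₁ : Tendsto m₁ atTop (𝓝 v₁) := by
    rw [tendsto_iff_norm_sub_tendsto_zero]
    exact squeeze_zero (fun n => norm_nonneg _) (fun n => (hm₁ n).le) hlim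
  have tm₂ : Tendsto m₂ atTop (𝓝 v₂) := by
    rw [tendsto_iff_norm_sub_tendsto_zero]
    exact squeeze_zero (fun n => norm_nonneg _) (fun n => (hm₂ n).le) hlim
  have tt : Tendsto t atTop (𝓝 t0) := by
    rw [tendsto_iff_norm_sub_tendsto_zero]
    exact squeeze_zero (fun n => norm_nonneg _) (fun n => (ht n).le) hlim
  -- determinant
  have hdet : v₁.1 * v₂.2 - v₁.2 * v₂.1 ≠ 0 := by
    intro h
    have hv2 : v₂ ≠ 0 := by rintro rfl; simp at h2
    have hv1 : v₁ ≠ 0 := by rintro rfl; simp at h1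
    have hex : ∃ c : ℂ, v₂ = c • v₁ := by
      by_cases h0 : v₁.1 = 0
      · have h0' : v₁.2 ≠ 0 := fun h' => hv1 (Prod.ext h0 h')
        refine ⟨v₂.2 / v₁.2, ?_⟩
        have h5 : v₂.1 = 0 := by
          rw [h0, zero_mul, zero_sub, neg_eq_zero] at h
          exact (mul_eq_zero.1 h).resolve_left h0'
        ext
        · simp [h5, h0]
        · simp only [Prod.smul_snd, smul_eq_mul]; field_simp
      · refine ⟨v₂.1 / v₁.1, ?_⟩
        ext
        · simp only [Prod.smul_fst, smul_eq_mul]; field_simp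
        · simp only [Prod.smul_snd, smul_eq_mul]; field_simp; linear_combination h
    obtain ⟨c, hc⟩ := hex
    have hc0 : c ≠ 0 := by rintro rfl; exact hv2 (by rw [hc, zero_smul])
    have h6 : E v₁ (c⁻¹ • v₂) = 0 := E_csmul_right hE h3 h4 _
    have h7 : E v₁ ((I * c⁻¹) • v₂) = 0 := E_csmul_right hE h3 h4 _
    rw [hc, smul_smul, mul_assoc, inv_mul_cancel₀ hc0, mul_one, h1] at h7
    exact one_ne_zero h7
  have tdet : Tendsto (fun n => (m₁ n).1 * (m₂ n).2 - (m₁ n).2 * (m₂ n).1) atTop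
      (𝓝 (v₁.1 * v₂.2 - v₁.2 * v₂.1)) :=
    (((continuous_fst.tendsto _).comp tm₁).mul ((continuous_snd.tendsto _).comp tm₂)).sub
      (((continuous_snd.tendsto _).comp tm₁).mul ((continuous_fst.tendsto _).comp tm₂))
  have ev1 := tdet.eventually_ne hdet
  have ev2 := tt.eventually valid_TT
  have key : Tendsto (fun n => fun i => (∫ w, SS (1 / 4) (t n, (lin (frm i) (m₁ n),
      lin (frm i) (m₂ n))) w) - ∫ w, SS (-(1 / 4)) (t n, (lin (frm i) (m₁ n),
      lin (frm i) (m₂ n))) w) atTop (𝓝 fun i => kap * ‖lin (frm i) v₂‖ ^ 2) := by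
    rw [tendsto_pi_nhds]
    intro i
    have hp : Tendsto (fun n => (t n, (lin (frm i) (m₁ n), lin (frm i) (m₂ n)))) atTop
        (𝓝 (t0, (lin (frm i) v₁, lin (frm i) v₂))) :=
      tt.prodMk_nhds ((((continuous_lin_right _).tendsto _).comp tm₁).prodMk_nhds
        (((continuous_lin_right _).tendsto _).comp tm₂))
    obtain ⟨r1, i1⟩ := reg_tendsto (1 / 4) (Or.inl rfl) (l := (lin (frm i) v₁, lin (frm i) v₂))
      (hl i).1 (hl i).2
    obtain ⟨r2, i2⟩ := reg_tendsto (-(1 / 4)) (Or.inr rfl)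
      (l := (lin (frm i) v₁, lin (frm i) v₂)) (hl i).1 (hl i).2
    have h5 := (r1.comp hp).sub (r2.comp hp)
    rw [eval (hl i).1 (hl i).2 i1 i2] at h5
    exact h5
  refine mem_closure_of_tendsto key ?_
  filter_upwards [ev1, ev2] with n e1 e2
  exact vals_xi (hN n) e1 e2 (hL n)

theorem main (b : Fin 4 → ℂ × ℂ) (hb : LinearIndependent ℝ b)
    (hR : ∃ E, IsRiemannForm b E) :
    Dense {v : Fin 4 → ℝ | ∃ m : ℕ, 0 < m ∧ ∃ ξ : Chain, IsCycle (lat b) ξ ∧
      v = fun i => (1 / (m : ℝ)) * ξ.reg (frm i)} := by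
  obtain ⟨E, hE⟩ := hR
  have hcl : IsClosed ((VV b : Submodule ℝ (Fin 4 → ℝ)) : Set (Fin 4 → ℝ)) := isClosed_closure
  obtain ⟨B, hB, hBx⟩ := frame hE
  let w : ℂ → Fin 4 → ℝ := fun x i => ‖lin (frm i) ((1 : ℂ), x)‖ ^ 2
  have hw : Continuous w := by
    refine continuous_pi fun i => ?_
    exact ((continuous_lin_right (frm i)).comp (by fun_prop : Continuous fun x : ℂ =>
      ((1 : ℂ), x))).norm.pow 2
  have h1 : ∀ x ∉ B, w x ∈ VV b := by
    intro x hx
    obtain ⟨v₁, c, hc, a1, a2, a3, a4, a5⟩ := hBx x hx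
    have hsm : ∀ i, lin (frm i) (c • ((1 : ℂ), x)) = c * lin (frm i) ((1 : ℂ), x) := by
      intro i; simp [lin]; ring
    have hc' : (c : ℂ) ≠ 0 := by exact_mod_cast hc.ne'
    have := mem_VV hb hE a1 a2 a3 a4 fun i => ⟨(a5 i).1, by
      rw [hsm]; exact mul_ne_zero hc' (a5 i).2⟩
    have h2 := (VV b).smul_mem (kap * c ^ 2)⁻¹ this
    convert h2 using 1
    ext i
    have hk : kap ≠ 0 := kap_neg.ne
    rw [Pi.smul_apply, smul_eq_mul, hsm, norm_mul, Complex.norm_real, Real.norm_eq_abs,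
      mul_pow, sq_abs]
    simp only [w]
    have hc'' : c ≠ 0 := hc.ne'
    field_simp
  have h2 : ∀ x, w x ∈ VV b := by
    intro x
    have hd : Dense (Bᶜ : Set ℂ) := hB.countable.dense_compl ℂ
    have := map_mem_closure hw (hd x) (t := (VV b : Set (Fin 4 → ℝ))) fun y hy => h1 y hy
    rwa [hcl.closure_eq] at this
  have htop : VV b = ⊤ := by
    rw [eq_top_iff]
    intro v _
    have e : v = (v 0 - v 1) • w 0 + ((v 2 - v 1 - v 0) / 4) • (w 1 - w (-1)) +
      ((v 3 - v 1 - v 0) / 4) • (w (-I) - w I) + (v 1 / 2) • (w 1 + w (-1)) := by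
      have a1 : ‖(1 : ℂ) + I‖ ^ 2 = 2 := by
        rw [← Complex.normSq_eq_norm_sq, Complex.normSq_apply]; simp; norm_num
      have a2 : ‖(1 : ℂ) + -I‖ ^ 2 = 2 := by
        rw [← Complex.normSq_eq_norm_sq, Complex.normSq_apply]; simp; norm_num
      ext i
      fin_cases i
      · simp [w, frm, lin]
      · simp [w, frm, lin]
      · simp [w, frm, lin, a1, a2]
        norm_num
        ring
      · simp [w, frm, lin, a1, a2]
        norm_num
        try ring
    rw [e]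
    exact (VV b).add_mem ((VV b).add_mem ((VV b).add_mem ((VV b).smul_mem _ (h2 _))
      ((VV b).smul_mem _ ((VV b).sub_mem (h2 _) (h2 _))))
      ((VV b).smul_mem _ ((VV b).sub_mem (h2 _) (h2 _))))
      ((VV b).smul_mem _ ((VV b).add_mem (h2 _) (h2 _)))
  intro v
  have : v ∈ (VV b : Submodule ℝ (Fin 4 → ℝ)) := by rw [htop]; trivial
  exact this

end Pool.Agent.Helper14.AS
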