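import Pool.Agent.Helper14.AS.Defs

/-!
# The Riemann theta function in two variables near a product and the cycle `xi`
-/

noncomputable section

namespace Pool.Agent.Helper14.AS

open Complex MeasureTheory Set Filter Topology

/-- Period matrices `(τ₁₁, τ₁₂, τ₂₂)` near `t0 = (i, 0, i)`. -/
def t0 : ℂ × ℂ × ℂ := (I, 0, I)

def W : Set (ℂ × ℂ × ℂ) := Metric.ball t0 (1 / 8)

/-- Exponent of the theta series. -/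
def thE (t : ℂ × ℂ × ℂ) (z : ℂ × ℂ) (k : ℤ × ℤ) : ℂ :=
  Real.pi * I * (t.1 * k.1 ^ 2 + 2 * t.2.1 * k.1 * k.2 + t.2.2 * k.2 ^ 2) +
    2 * Real.pi * I * (k.1 * z.1 + k.2 * z.2)

/-- The Riemann theta function. -/
def th (t : ℂ × ℂ × ℂ) (z : ℂ × ℂ) : ℂ := ∑' k : ℤ × ℤ, cexp (thE t z k)

/-- Its partial derivative in `z₁`. -/
def th1 (t : ℂ × ℂ × ℂ) (z : ℂ × ℂ) : ℂ :=
  ∑' k : ℤ × ℤ, 2 * Real.pi * I * k.1 * cexp (thE t z k)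

/-- Its partial derivative in `z₂`. -/
def th2 (t : ℂ × ℂ × ℂ) (z : ℂ × ℂ) : ℂ :=
  ∑' k : ℤ × ℤ, 2 * Real.pi * I * k.2 * cexp (thE t z k)

/-- Its derivative. -/
def thD (t : ℂ × ℂ × ℂ) (z : ℂ × ℂ) : (ℂ × ℂ) →L[ℂ] ℂ :=
  th1 t z • ContinuousLinearMap.fst ℂ ℂ ℂ + th2 t z • ContinuousLinearMap.snd ℂ ℂ ℂ

/-- Basis of the lattice `ℤ² + τ ℤ²`. -/
def bt (t : ℂ × ℂ × ℂ) : Fin 4 → ℂ × ℂ := ![(1, 0), (0, 1), (t.1, t.2.1), (t.2.1, t.2.2)]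

/-- The point with real coordinates `y`. -/
def vec (t : ℂ × ℂ × ℂ) (y : Fin 4 → ℝ) : ℂ × ℂ := ∑ i, y i • bt t i

/-- The argument of theta in `G`. -/
def gp (s : ℝ) (z : ℂ × ℂ) : ℂ × ℂ := (z.1 + s, z.2)

/-- The argument of theta in `F`. -/
def fp (s : ℝ) (t : ℂ × ℂ × ℂ) (z : ℂ × ℂ) : ℂ × ℂ :=
  (z.1 + s - t.1 / 2, z.2 - t.2.1 / 2 - 1 / 2)

def G (s : ℝ) (t : ℂ × ℂ × ℂ) (z : ℂ × ℂ) : ℂ := th t (gp s z)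

def F (s : ℝ) (t : ℂ × ℂ × ℂ) (z : ℂ × ℂ) : ℂ := th t (fp s t z)

/-- The curves `G s t = 0`, for `s = 1/4` and `s = -1/4`. -/
def Zc (s : ℝ) (t : ℂ × ℂ × ℂ) : Set (ℂ × ℂ) := {z | G s t z = 0}

/-- The function. -/
def hh (t : ℂ × ℂ × ℂ) (z : ℂ × ℂ) : ℂ := (F (1 / 4) t z / F (-(1 / 4)) t z) ^ 2

/-- Real coordinates of the common zeros of `G s` and `F s'` in the closed cell. -/
def pts (s s' : ℝ) : Fin 4 → Fin 4 → ℝ :=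
  ![![1 / 2 - s', 1 / 2, 0, 1 / 2], ![1 / 2 - s', 1 / 2, 1, 1 / 2],
    ![1 / 2 - s, 0, 1 / 2, 1 / 2], ![1 / 2 - s, 1, 1 / 2, 1 / 2]]

/-- The zero (for `s' = 1/4`) and the pole (for `s' = -1/4`) of `hh`. -/
def AA (s' : ℝ) (t : ℂ × ℂ × ℂ) : ℂ × ℂ := vec t ![1 / 2 - s', 1 / 2, 0, 1 / 2]

/-- The divisor of `hh` on both curves. -/
def oo (t : ℂ × ℂ × ℂ) (z : ℂ × ℂ) : ℤ :=
  open Classical in
  (if z - AA (1 / 4) t ∈ lat (bt t) then 2 else 0) -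
    (if z - AA (-(1 / 4)) t ∈ lat (bt t) then 2 else 0)

def TT (n : ℤ) (s : ℝ) (t : ℂ × ℂ × ℂ) : Term := ⟨n, bt t, Zc s t, hh t, oo t⟩

/-- The cycle. -/
def xi (t : ℂ × ℂ × ℂ) : Chain := [TT 1 (1 / 4) t, TT (-1) (-(1 / 4)) t]

/-- The function of `w` whose integral is the regulator of a term. -/
def SS (s : ℝ) (p : (ℂ × ℂ × ℂ) × (ℂ × ℂ)) (w : ℂ) : ℝ :=
  ∑ᶠ z ∈ {z | z ∈ Zc s p.1 ∧ z ∈ cell (bt p.1) ∧ lin p.2 z = w}, Real.log ‖hh p.1 z‖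

theorem reg_TT (n : ℤ) (s : ℝ) (t : ℂ × ℂ × ℂ) (l : ℂ × ℂ) :
    (TT n s t).reg l = ∫ w, SS s (t, l) w := rfl

/-- The Jacobian determinant of `(G s, F s')` at `z`. -/
def JJ (s s' : ℝ) (t : ℂ × ℂ × ℂ) (z : ℂ × ℂ) : ℂ :=
  th1 t (gp s z) * th2 t (fp s' t z) - th2 t (gp s z) * th1 t (fp s' t z)

/-- `κ = 4 log |θ(1/2) / θ(0)|` for `τ = i`. -/
def kap : ℝ := 4 * (Real.log ‖jacobiTheta₂ (1 / 2) I‖ - Real.log ‖jacobiTheta₂ 0 I‖)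

/-- Image of a term under an invertible linear map. -/
def Term.map (S : (ℂ × ℂ) ≃L[ℂ] (ℂ × ℂ)) (T : Term) : Term :=
  ⟨T.n, fun i => S (T.b i), {z | S.symm z ∈ T.Z}, fun z => T.f (S.symm z), fun z => T.o (S.symm z)⟩

end Pool.Agent.Helper14.AS
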