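import Pool.Agent.Helper14.AS.Defs

/-!
# Vacuity check for AbelianSurfaces

The standard lattice `ℤ[i]²` with the form `Im (conj z · w)` satisfies all hypotheses.
-/

namespace Pool.Agent.Helper14.AS.Vacuity

open Complex

/-- The standard basis of `ℤ[i]²` over `ℤ`. -/
def b0 : Fin 4 → ℂ × ℂ := ![(1, 0), (I, 0), (0, 1), (0, I)]

/-- The standard form, `E z w = Im (conj z₁ w₁ + conj z₂ w₂)`. -/
noncomputable def E0 : (ℂ × ℂ) →ₗ[ℝ] (ℂ × ℂ) →ₗ[ℝ] ℝ :=
  LinearMap.mk₂ ℝ (fun z w => z.1.re * w.1.im - z.1.im * w.1.re +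
    (z.2.re * w.2.im - z.2.im * w.2.re))
    (by intros; simp; ring) (by intros; simp; ring) (by intros; simp; ring) (by intros; simp; ring)

theorem linInd : LinearIndependent ℝ b0 := by
  rw [Fintype.linearIndependent_iff]
  intro g hg
  simp only [b0, Fin.sum_univ_four, Matrix.cons_val_zero, Matrix.cons_val_one, Matrix.cons_val,
    Prod.smul_mk, smul_zero, Prod.mk_add_mk, add_zero, zero_add] at hg
  have h1 := congrArg Prod.fst hg
  have h2 := congrArg Prod.snd hg
  have a0 := congrArg Complex.re h1
  have a1 := congrArg Complex.im h1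
  have a2 := congrArg Complex.re h2
  have a3 := congrArg Complex.im h2
  simp at a0 a1 a2 a3
  intro i
  fin_cases i <;> simp [a0, a1, a2, a3]

theorem riemann : IsRiemannForm b0 E0 := by
  constructor
  · intro z
    simp [E0]
    ring
  · intro i j
    fin_cases i <;> fin_cases j <;>
      first
        | (refine ⟨0, ?_⟩; simp [E0, b0]; done)
        | (refine ⟨1, ?_⟩; simp [E0, b0]; done)
        | (refine ⟨-1, ?_⟩; simp [E0, b0]; done)
  · intro z w
    simp [E0]
    ring
  · intro z hz
    have h : z.1 ≠ 0 ∨ z.2 ≠ 0 := by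
      by_contra hc
      push Not at hc
      exact hz (Prod.ext hc.1 hc.2)
    have hval : E0 z (I • z) = Complex.normSq z.1 + Complex.normSq z.2 := by
      simp [E0, Complex.normSq_apply]
    rw [hval]
    rcases h with h | h
    · exact add_pos_of_pos_of_nonneg (Complex.normSq_pos.2 h) (Complex.normSq_nonneg _)
    · exact add_pos_of_nonneg_of_pos (Complex.normSq_nonneg _) (Complex.normSq_pos.2 h)

end Pool.Agent.Helper14.AS.Vacuity
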